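import Pool.Agent.MP_997fa2_co.Induct

/-!
# From the multigraph statement to simple graphs
-/

namespace PCF

set_option linter.unusedSectionVars false

/-- `G` has a `K4` minor: there are four pairwise disjoint and pairwise adjacent sets of
vertices inducing connected subgraphs. -/
def HasK4Minor {V : Type*} (G : SimpleGraph V) : Prop :=
  ∃ B : Fin 4 → Set V, (∀ i, (G.induce (B i)).Connected) ∧
    (∀ i j, i ≠ j → Disjoint (B i) (B j)) ∧
    ∀ i j, i ≠ j → ∃ a ∈ B i, ∃ b ∈ B j, G.Adj a b

/-- A proper conflict-free colouring: adjacent vertices get different colours, and every vertex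
with a neighbour has a neighbour whose colour no other neighbour has. -/
def IsPCF {V C : Type*} (G : SimpleGraph V) (φ : V → C) : Prop :=
  (∀ u v, G.Adj u v → φ u ≠ φ v) ∧
    ∀ v, (∃ w, G.Adj v w) → ∃ u, G.Adj v u ∧ ∀ w, G.Adj v w → φ w = φ u → w = u

section c5

variable {V : Type*} [Fintype V] [DecidableEq V] (G : SimpleGraph V) [DecidableRel G.Adj]

theorem mk_c5 (hc : Fintype.card V = 5) {v a c d b : V} (d1 : v ≠ a) (d2 : v ≠ c) (d3 : v ≠ d)
    (d4 : v ≠ b) (d5 : a ≠ c) (d6 : a ≠ d) (d7 : a ≠ b) (d8 : c ≠ d) (d9 : c ≠ b) (d10 : d ≠ b)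
    (e1 : G.Adj v a) (e2 : G.Adj a c) (e3 : G.Adj c d) (e4 : G.Adj d b) (e5 : G.Adj b v)
    (n1 : ¬ G.Adj v c) (n2 : ¬ G.Adj v d) (n3 : ¬ G.Adj a d) (n4 : ¬ G.Adj a b)
    (n5 : ¬ G.Adj c b) : Nonempty (G ≃g SimpleGraph.cycleGraph 5) := by
  let f : Fin 5 → V := ![v, a, c, d, b]
  have hinj : Function.Injective f := by
    intro i j hij
    fin_cases i <;> fin_cases j <;> simp [f] at hij ⊢
    all_goals first
      | exact absurd hij d1 | exact absurd hij d2 | exact absurd hij d3 | exact absurd hij d4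
      | exact absurd hij d5 | exact absurd hij d6 | exact absurd hij d7 | exact absurd hij d8
      | exact absurd hij d9 | exact absurd hij d10
      | exact absurd hij.symm d1 | exact absurd hij.symm d2 | exact absurd hij.symm d3
      | exact absurd hij.symm d4 | exact absurd hij.symm d5 | exact absurd hij.symm d6
      | exact absurd hij.symm d7 | exact absurd hij.symm d8 | exact absurd hij.symm d9
      | exact absurd hij.symm d10
  have hbij : Function.Bijective f :=
    (Fintype.bijective_iff_injective_and_card f).2 ⟨hinj, by simp [hc]⟩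
  have hadj : ∀ i j : Fin 5, G.Adj (f i) (f j) ↔ (SimpleGraph.cycleGraph 5).Adj i j := by
    have n1' : ¬ G.Adj c v := fun h => n1 h.symm
    have n2' : ¬ G.Adj d v := fun h => n2 h.symm
    have n3' : ¬ G.Adj d a := fun h => n3 h.symm
    have n4' : ¬ G.Adj b a := fun h => n4 h.symm
    have n5' : ¬ G.Adj b c := fun h => n5 h.symm
    have key : ∀ (P Q : Prop) [Decidable Q], P → decide Q = true → (P ↔ Q) := by
      intro P Q _ h1 h2
      exact ⟨fun _ => of_decide_eq_true h2, fun _ => h1⟩
    have key' : ∀ (P Q : Prop) [Decidable Q], ¬ P → decide Q = false → (P ↔ Q) := by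
      intro P Q _ h1 h2
      exact ⟨fun h => absurd h h1, fun h => absurd h (of_decide_eq_false h2)⟩
    intro i j
    fin_cases i <;> fin_cases j
    · exact key' _ _ G.irrefl rfl
    · exact key _ _ e1 rfl
    · exact key' _ _ n1 rfl
    · exact key' _ _ n2 rfl
    · exact key _ _ e5.symm rfl
    · exact key _ _ e1.symm rfl
    · exact key' _ _ G.irrefl rfl
    · exact key _ _ e2 rfl
    · exact key' _ _ n3 rfl
    · exact key' _ _ n4 rfl
    · exact key' _ _ n1' rfl
    · exact key _ _ e2.symm rfl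
    · exact key' _ _ G.irrefl rfl
    · exact key _ _ e3 rfl
    · exact key' _ _ n5 rfl
    · exact key' _ _ n2' rfl
    · exact key' _ _ n3' rfl
    · exact key _ _ e3.symm rfl
    · exact key' _ _ G.irrefl rfl
    · exact key _ _ e4 rfl
    · exact key _ _ e5 rfl
    · exact key' _ _ n4' rfl
    · exact key' _ _ n5' rfl
    · exact key _ _ e4.symm rfl
    · exact key' _ _ G.irrefl rfl
  exact ⟨(RelIso.mk (Equiv.ofBijective f hbij) (fun {i j} => hadj i j)).symm⟩

theorem c5_of_regular (hc : Fintype.card V = 5) (hd : ∀ v, G.degree v = 2) :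
    Nonempty (G ≃g SimpleGraph.cycleGraph 5) := by
  obtain ⟨v⟩ : Nonempty V := Fintype.card_pos_iff.1 (by omega)
  obtain ⟨a, b, hab, hN⟩ := Finset.card_eq_two.1
    ((SimpleGraph.card_neighborFinset_eq_degree G v).trans (hd v))
  have memN : ∀ x, G.Adj v x ↔ x = a ∨ x = b := by
    intro x
    rw [← SimpleGraph.mem_neighborFinset, hN]
    simp
  have hva : G.Adj v a := (memN a).2 (Or.inl rfl)
  have hvb : G.Adj v b := (memN b).2 (Or.inr rfl)
  have d1 : v ≠ a := hva.ne
  have d4 : v ≠ b := hvb.ne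
  have hcard3 : ({v, a, b} : Finset V).card = 3 :=
    Finset.card_eq_three.2 ⟨v, a, b, d1, d4, hab, rfl⟩
  have hrest : ((Finset.univ : Finset V) \ {v, a, b}).card = 2 := by
    rw [Finset.card_sdiff_of_subset (Finset.subset_univ _), hcard3, Finset.card_univ, hc]
  obtain ⟨c, d, hcd, hR⟩ := Finset.card_eq_two.1 hrest
  have hcm : c ∈ (Finset.univ : Finset V) \ {v, a, b} := by rw [hR]; simp
  have hdm : d ∈ (Finset.univ : Finset V) \ {v, a, b} := by rw [hR]; simp
  simp only [Finset.mem_sdiff, Finset.mem_univ, true_and, Finset.mem_insert,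
    Finset.mem_singleton, not_or] at hcm hdm
  obtain ⟨c1, c2, c3⟩ := hcm
  obtain ⟨k1, k2, k3⟩ := hdm
  have huniv : (Finset.univ : Finset V) = {v, a, b, c, d} := by
    ext x
    simp only [Finset.mem_univ, true_iff, Finset.mem_insert, Finset.mem_singleton]
    by_cases hx : x ∈ ({v, a, b} : Finset V)
    · simp only [Finset.mem_insert, Finset.mem_singleton] at hx
      rcases hx with h | h | h
      · exact Or.inl h
      · exact Or.inr (Or.inl h)
      · exact Or.inr (Or.inr (Or.inl h))
    · have : x ∈ (Finset.univ : Finset V) \ {v, a, b} := by simpa using hx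
      rw [hR] at this
      simp only [Finset.mem_insert, Finset.mem_singleton] at this
      exact Or.inr (Or.inr (Or.inr this))
  have hdeg : ∀ w, (if G.Adj w v then 1 else 0) + ((if G.Adj w a then 1 else 0) +
      ((if G.Adj w b then 1 else 0) + ((if G.Adj w c then 1 else 0) +
        (if G.Adj w d then 1 else 0)))) = 2 := by
    intro w
    have h1 : G.degree w = ∑ x : V, if G.Adj w x then 1 else 0 := by
      rw [← SimpleGraph.card_neighborFinset_eq_degree, SimpleGraph.neighborFinset_eq_filter,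
        Finset.card_filter]
    rw [huniv, Finset.sum_insert, Finset.sum_insert, Finset.sum_insert, Finset.sum_insert,
      Finset.sum_singleton] at h1
    · rw [← h1, hd w]
    · simpa using hcd
    · simp only [Finset.mem_insert, Finset.mem_singleton, not_or]
      exact ⟨c3 ∘ Eq.symm, k3 ∘ Eq.symm⟩
    · simp only [Finset.mem_insert, Finset.mem_singleton, not_or]
      exact ⟨hab, c2 ∘ Eq.symm, k2 ∘ Eq.symm⟩
    · simp only [Finset.mem_insert, Finset.mem_singleton, not_or]
      exact ⟨d1, d4, c1 ∘ Eq.symm, k1 ∘ Eq.symm⟩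
  have nvc : ¬ G.Adj v c := fun h => by
    rcases (memN c).1 h with h | h
    · exact c2 h
    · exact c3 h
  have nvd : ¬ G.Adj v d := fun h => by
    rcases (memN d).1 h with h | h
    · exact k2 h
    · exact k3 h
  have ha := hdeg a
  have hb := hdeg b
  have hc' := hdeg c
  have hd' := hdeg d
  have ncv : ¬ G.Adj c v := fun h => nvc h.symm
  have ndv : ¬ G.Adj d v := fun h => nvd h.symm
  simp only [G.irrefl, hva.symm, hvb.symm, ncv, ndv, if_true, if_false, zero_add, add_zero]
    at ha hb hc' hd'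
  simp only [G.adj_comm b a] at hb
  simp only [G.adj_comm c a, G.adj_comm c b] at hc'
  simp only [G.adj_comm d a, G.adj_comm d b, G.adj_comm d c] at hd'
  by_cases q1 : G.Adj a b
  · exfalso
    simp only [q1, if_true] at ha hb
    split_ifs at ha hb hc' hd' <;> omega
  · simp only [q1, if_false, zero_add] at ha hb
    by_cases q2 : G.Adj a c
    · have q3 : ¬ G.Adj a d := by
        intro h; simp only [q2, h, if_true] at ha; omega
      have q4 : ¬ G.Adj b c := by
        intro h
        simp only [h, if_true] at hb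
        have q5 : ¬ G.Adj b d := by
          intro h'; simp only [h', if_true] at hb; omega
        simp only [q3, q5, if_false, zero_add] at hd'
        split_ifs at hd'
        omega
      have q5 : G.Adj b d := by
        by_contra h
        simp only [q4, h, if_false] at hb
        omega
      have q6 : G.Adj c d := by
        by_contra h
        simp only [q2, q4, h, if_true, if_false] at hc'
        omega
      exact mk_c5 G hc d1 (Ne.symm c1) (Ne.symm k1) d4 (Ne.symm c2) (Ne.symm k2) hab hcd c3 k3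
        hva q2 q6 q5.symm hvb.symm nvc nvd q3 q1 (fun h => q4 h.symm)
    · have q3 : G.Adj a d := by
        by_contra h; simp only [q2, h, if_false] at ha; omega
      have q4 : ¬ G.Adj b d := by
        intro h
        have q5 : ¬ G.Adj b c := by
          intro h'; simp only [h, h', if_true] at hb; omega
        simp only [q2, q5, if_false, zero_add] at hc'
        split_ifs at hc'
        omega
      have q5 : G.Adj b c := by
        by_contra h
        simp only [q4, h, if_false] at hb
        omega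
      have q6 : G.Adj d c := by
        by_contra h
        have h' : ¬ G.Adj c d := fun h' => h h'.symm
        simp only [q2, q5, h', if_true, if_false] at hc'
        omega
      exact mk_c5 G hc d1 (Ne.symm k1) (Ne.symm c1) d4 (Ne.symm k2) (Ne.symm c2) hab
        (Ne.symm hcd) k3 c3 hva q3 q6 q5.symm hvb.symm nvd nvc q2 q1 (fun h => q4 h.symm)

end c5

section translation

variable {V C : Type*} [Fintype V] [DecidableEq V] [DecidableEq C]
  (G : SimpleGraph V) [DecidableRel G.Adj]

/-- the pairs of adjacent vertices, each once -/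
noncomputable def prs : Finset (V × V) :=
  Finset.univ.filter (fun x => (Fintype.equivFin V x.1) < (Fintype.equivFin V x.2) ∧
    G.Adj x.1 x.2)

theorem mem_prs (x : V × V) : x ∈ prs G ↔ (Fintype.equivFin V x.1) < (Fintype.equivFin V x.2) ∧
    G.Adj x.1 x.2 := by simp [prs]

theorem sum_prs (v : V) (P : V → Prop) [DecidablePred P] :
    ∑ x ∈ prs G, ((if x.1 = v ∧ P x.2 then 1 else 0) + (if x.2 = v ∧ P x.1 then 1 else 0)) =
      (Finset.univ.filter (fun u => G.Adj v u ∧ P u)).card := by
  rw [Finset.sum_add_distrib, ← Finset.card_filter, ← Finset.card_filter]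
  have h1 : ((prs G).filter (fun x => x.1 = v ∧ P x.2)).card = (Finset.univ.filter
      (fun u => (Fintype.equivFin V v < Fintype.equivFin V u) ∧ G.Adj v u ∧ P u)).card := by
    apply Finset.card_nbij' (fun x => x.2) (fun u => (v, u))
    · rintro ⟨x, y⟩ hx
      simp only [Finset.coe_filter, Set.mem_ofPred_eq, mem_prs, Finset.mem_univ, true_and] at hx ⊢
      obtain ⟨⟨g1, g2⟩, rfl, g3⟩ := hx
      exact ⟨g1, g2, g3⟩
    · intro u hu
      simp only [Finset.coe_filter, Set.mem_ofPred_eq, mem_prs, Finset.mem_univ, true_and] at hu ⊢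
      exact ⟨⟨hu.1, hu.2.1⟩, hu.2.2⟩
    · rintro ⟨x, y⟩ hx
      simp only [Finset.coe_filter, Set.mem_ofPred_eq] at hx
      simp only [hx.2.1]
    · intro u hu
      rfl
  have h2 : ((prs G).filter (fun x => x.2 = v ∧ P x.1)).card = (Finset.univ.filter
      (fun u => (Fintype.equivFin V u < Fintype.equivFin V v) ∧ G.Adj v u ∧ P u)).card := by
    apply Finset.card_nbij' (fun x => x.1) (fun u => (u, v))
    · rintro ⟨x, y⟩ hx
      simp only [Finset.coe_filter, Set.mem_ofPred_eq, mem_prs, Finset.mem_univ, true_and] at hx ⊢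
      obtain ⟨⟨g1, g2⟩, rfl, g3⟩ := hx
      exact ⟨g1, g2.symm, g3⟩
    · intro u hu
      simp only [Finset.coe_filter, Set.mem_ofPred_eq, mem_prs, Finset.mem_univ, true_and] at hu ⊢
      exact ⟨⟨hu.1, hu.2.1.symm⟩, hu.2.2⟩
    · rintro ⟨x, y⟩ hx
      simp only [Finset.coe_filter, Set.mem_ofPred_eq] at hx
      simp only [hx.2.1]
    · intro u hu
      rfl
  rw [h1, h2, ← Finset.card_union_of_disjoint]
  · congr 1
    ext u
    simp only [Finset.mem_union, Finset.mem_filter, Finset.mem_univ, true_and]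
    constructor
    · rintro (h | h)
      · exact h.2
      · exact h.2
    · intro h
      rcases lt_trichotomy (Fintype.equivFin V v) (Fintype.equivFin V u) with h3 | h3 | h3
      · exact Or.inl ⟨h3, h⟩
      · exact absurd ((Fintype.equivFin V).injective h3) h.1.ne
      · exact Or.inr ⟨h3, h⟩
  · rw [Finset.disjoint_left]
    intro u hu hu'
    simp only [Finset.mem_filter, Finset.mem_univ, true_and] at hu hu'
    exact absurd (lt_trans hu.1 hu'.1) (lt_irrefl _)

/-- the graph as a multiset of direct edges -/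
noncomputable def mes (C : Type*) : Multiset (E V C) := (prs G).val.map (fun x => ⟨x.1, x.2, []⟩)

theorem mem_mes (e : E V C) : e ∈ mes G C ↔ (e.p, e.q) ∈ prs G ∧ e.l = [] := by
  unfold mes
  rw [Multiset.mem_map]
  constructor
  · rintro ⟨x, hx, rfl⟩
    exact ⟨hx, rfl⟩
  · rintro ⟨h1, h2⟩
    refine ⟨(e.p, e.q), h1, ?_⟩
    cases e
    simp only at h2
    subst h2
    rfl

theorem sum_mes (g : E V C → ℕ) :
    ((mes G C).map g).sum = ∑ x ∈ prs G, g ⟨x.1, x.2, []⟩ := by
  unfold mes
  rw [Multiset.map_map]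
  rfl

theorem deg_mes (v : V) : deg (mes G C) v = G.degree v := by
  unfold deg
  rw [sum_mes]
  have := sum_prs G v (fun _ => True)
  simp only [and_true] at this
  unfold w1
  rw [this, ← SimpleGraph.card_neighborFinset_eq_degree, SimpleGraph.neighborFinset_eq_filter]

theorem adj_mes {x y : V} (h : adj (mes G C) x y) : G.Adj x y := by
  obtain ⟨e, he, h'⟩ := h
  rw [mem_mes, mem_prs] at he
  rcases h' with ⟨rfl, rfl⟩ | ⟨rfl, rfl⟩
  · exact he.1.2
  · exact he.1.2.symm

theorem mes_adj {x y : V} (h : G.Adj x y) : ∃ e ∈ mes G C, (e.p = x ∧ e.q = y) ∨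
    (e.p = y ∧ e.q = x) := by
  rcases lt_trichotomy (Fintype.equivFin V x) (Fintype.equivFin V y) with h3 | h3 | h3
  · exact ⟨⟨x, y, []⟩, (mem_mes G _).2 ⟨(mem_prs G _).2 ⟨h3, h⟩, rfl⟩, Or.inl ⟨rfl, rfl⟩⟩
  · exact absurd ((Fintype.equivFin V).injective h3) h.ne
  · exact ⟨⟨y, x, []⟩, (mem_mes G _).2 ⟨(mem_prs G _).2 ⟨h3, h.symm⟩, rfl⟩, Or.inr ⟨rfl, rfl⟩⟩

theorem conn_induce {r : V → V → Prop} (hr : ∀ x y, r x y → G.Adj x y) {B : Finset V}
    (h : Conn r B) : (G.induce (B : Set V)).Connected := by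
  classical
  obtain ⟨⟨b, hb⟩, hcut⟩ := h
  have hne : Nonempty ↥(B : Set V) := ⟨⟨b, hb⟩⟩
  rw [SimpleGraph.connected_iff]
  refine ⟨?_, hne⟩
  intro u v
  let A : Finset V := B.filter (fun x => ∃ hx : x ∈ (B : Set V),
    (G.induce (B : Set V)).Reachable u ⟨x, hx⟩)
  have hA : ∀ x, x ∈ A ↔ ∃ hx : x ∈ (B : Set V),
      (G.induce (B : Set V)).Reachable u ⟨x, hx⟩ := by
    intro x
    simp only [A, Finset.mem_filter]
    exact ⟨fun h => h.2, fun h => ⟨h.1, h⟩⟩
  by_contra hno
  have huA : (u : V) ∈ A := (hA _).2 ⟨u.2, SimpleGraph.Reachable.refl _⟩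
  have hvA : (v : V) ∉ A := fun h => by
    obtain ⟨h1, h2⟩ := (hA _).1 h
    exact hno h2
  obtain ⟨x, hx, y, hy, hyA, hxy⟩ := hcut A (Finset.filter_subset _ _) ⟨_, huA⟩
    (fun h => hvA (by rw [h]; exact v.2))
  obtain ⟨hxB, hxr⟩ := (hA x).1 hx
  apply hyA
  refine (hA y).2 ⟨hy, hxr.trans ?_⟩
  apply SimpleGraph.Adj.reachable
  exact hr _ _ hxy

theorem inv_mes (hconn : G.Connected) (hK : ¬ HasK4Minor G)
    (h5 : IsEmpty (G ≃g SimpleGraph.cycleGraph 5)) (L : V → Finset C)
    (hL : ∀ v, (L v).card = G.degree v + 2) : Inv Finset.univ L (mes G C) := by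
  classical
  constructor
  · intro e _; exact ⟨Finset.mem_univ _, Finset.mem_univ _⟩
  · intro e he A hA
    rw [((mem_mes G e).1 he).2] at hA
    simp at hA
  · intro e he hpq
    have h1 := ((mem_prs G _).1 ((mem_mes G e).1 he).1).2
    simp only at h1
    exact absurd hpq h1.ne
  · intro x y hxy
    unfold mes
    rw [Multiset.countP_map]
    have : (((prs G)).filter (fun z : V × V => Dir x y (⟨z.1, z.2, []⟩ : E V C))).card ≤ 1 := by
      rw [Finset.card_le_one]
      rintro ⟨a, b⟩ ha ⟨a', b'⟩ hb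
      simp only [Finset.mem_filter, mem_prs, Dir, true_and] at ha hb
      obtain ⟨⟨l1, _⟩, h1⟩ := ha
      obtain ⟨⟨l2, _⟩, h2⟩ := hb
      rcases h1 with ⟨rfl, rfl⟩ | ⟨rfl, rfl⟩
      · rcases h2 with ⟨rfl, rfl⟩ | ⟨rfl, rfl⟩
        · rfl
        · exact absurd (lt_trans l1 l2) (lt_irrefl _)
      · rcases h2 with ⟨rfl, rfl⟩ | ⟨rfl, rfl⟩
        · exact absurd (lt_trans l1 l2) (lt_irrefl _)
        · rfl
    exact this
  · intro v _
    rw [deg_mes, hL]
  · rintro ⟨B, _, b2, b3, b4⟩
    apply hK
    refine ⟨fun i => (B i : Set V), fun i => conn_induce G (fun x y => adj_mes G) (b2 i), ?_, ?_⟩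
    · intro i j hij
      rw [Finset.disjoint_coe]
      exact b3 i j hij
    · intro i j hij
      obtain ⟨a, ha, b, hb, hab⟩ := b4 i j hij
      exact ⟨a, ha, b, hb, adj_mes G hab⟩
  · intro S _ hne hcl
    by_contra hcon
    rw [not_or] at hcon
    obtain ⟨hcon, hwt⟩ := hcon
    push Not at hcon hwt
    have hadj : ∀ x y, G.Adj x y → (x ∈ S ↔ y ∈ S) := by
      intro x y hxy
      obtain ⟨e, he, h'⟩ := mes_adj (C := C) G hxy
      have := hcl e he
      rcases h' with ⟨rfl, rfl⟩ | ⟨rfl, rfl⟩
      · exact this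
      · exact this.symm
    have hS : ∀ x, x ∈ S := by
      obtain ⟨s, hs⟩ := hne
      intro x
      obtain ⟨w⟩ := hconn.preconnected s x
      have key : ∀ {a b : V} (_ : G.Walk a b), a ∈ S → b ∈ S := by
        intro a b w
        induction w with
        | nil => exact id
        | cons h _ ih => exact fun ha => ih ((hadj _ _ h).1 ha)
      exact key w hs
    have hSu : S = Finset.univ := Finset.eq_univ_iff_forall.2 hS
    have hcard : Fintype.card V = 5 := by
      unfold wt at hwt
      rw [sum_mes, hSu] at hwt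
      simpa using hwt
    have hdeg : ∀ v, G.degree v = 2 := by
      intro v
      have := hcon v (hS v)
      unfold Spec at this
      rw [not_or] at this
      rw [← deg_mes (C := C) G v]
      by_contra h
      exact this.1 h
    obtain ⟨f⟩ := c5_of_regular G hcard hdeg
    exact h5.false f

theorem main_graph (hconn : G.Connected) (hK : ¬ HasK4Minor G)
    (h5 : IsEmpty (G ≃g SimpleGraph.cycleGraph 5)) (L : V → Finset C)
    (hL : ∀ v, (L v).card = G.degree v + 2) :
    ∃ φ : V → C, (∀ v, φ v ∈ L v) ∧ IsPCF G φ := by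
  classical
  obtain ⟨v₀⟩ := hconn.nonempty
  have : Nonempty C := by
    obtain ⟨a, _⟩ : (L v₀).Nonempty := Finset.card_pos.1 (by rw [hL]; omega)
    exact ⟨a⟩
  obtain ⟨φ, h1, D, h2, h3, h4⟩ := main_ind _ Finset.univ L (mes G C) rfl
    (inv_mes G hconn hK h5 L hL)
  have hgood : ∀ d ∈ D, d.2.1 = φ d.1.q ∧ d.2.2 = φ d.1.p ∧ φ d.1.p ≠ φ d.1.q := by
    intro d hd
    have h5 := h3 d hd
    have h6 := ((mem_mes G d.1).1 (mem_of_map h2 hd)).2
    unfold Good at h5
    rw [h6] at h5
    exact h5
  have hcnt : ∀ v c, cnt D v c =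
      (Finset.univ.filter (fun u => G.Adj v u ∧ φ u = c)).card := by
    intro v c
    rw [← sum_prs G v (fun u => φ u = c)]
    let g : E V C → ℕ := fun e => (if e.p = v ∧ φ e.q = c then 1 else 0) +
      (if e.q = v ∧ φ e.p = c then 1 else 0)
    have e1 : cnt D v c = ((D.map Prod.fst).map g).sum := by
      unfold cnt
      rw [Multiset.map_map]
      congr 1
      apply Multiset.map_congr rfl
      intro d hd
      obtain ⟨k1, k2, _⟩ := hgood d hd
      simp only [w2, g, Function.comp, k1, k2]
    rw [e1, h2, sum_mes]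
  refine ⟨φ, fun v => h1 v (Finset.mem_univ v), ?_, ?_⟩
  · intro u v huv
    obtain ⟨e, he, h'⟩ := mes_adj (C := C) G huv
    rw [← h2, Multiset.mem_map] at he
    obtain ⟨d, hd, rfl⟩ := he
    have := (hgood d hd).2.2
    rcases h' with ⟨k1, k2⟩ | ⟨k1, k2⟩
    · rw [k1, k2] at this; exact this
    · rw [k1, k2] at this; exact this.symm
  · rintro v ⟨w, hw⟩
    have hd : deg (mes G C) v ≠ 0 := by
      rw [deg_mes, ← SimpleGraph.card_neighborFinset_eq_degree]
      exact Finset.card_ne_zero_of_mem ((SimpleGraph.mem_neighborFinset G v w).2 hw)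
    obtain ⟨c, hc⟩ := h4 v (Finset.mem_univ v) hd
    rw [hcnt, Finset.card_eq_one] at hc
    obtain ⟨u, hu⟩ := hc
    have mem : ∀ x, (G.Adj v x ∧ φ x = c) ↔ x = u := by
      intro x
      have : x ∈ Finset.univ.filter (fun u => G.Adj v u ∧ φ u = c) ↔ x ∈ ({u} : Finset V) := by
        rw [hu]
      simpa using this
    have hu' := (mem u).2 rfl
    refine ⟨u, hu'.1, fun x hx hxu => (mem x).1 ⟨hx, hxu.trans hu'.2⟩⟩

end translation

end PCF
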