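import Pool.Agent.MP_997fa2_co.Steps

/-!
# The induction
-/

namespace PCF

set_option linter.unusedSectionVars false

variable {V C : Type*} [DecidableEq V] [DecidableEq C]

theorem exists_of_deg {es : Multiset (E V C)} {v : V} (h : deg es v ≠ 0) :
    ∃ e es', es = e ::ₘ es' ∧ (e.p = v ∨ e.q = v) := by
  have : ∃ e ∈ es, e.p = v ∨ e.q = v := by
    by_contra hno
    push Not at hno
    exact h (deg_zero_of hno)
  obtain ⟨e, he, h'⟩ := this
  obtain ⟨es', rfl⟩ := Multiset.exists_cons_of_mem he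
  exact ⟨e, es', rfl, h'⟩

theorem Inv.or_flip {W : Finset V} {L : V → Finset C} {e e' : E V C} {es : Multiset (E V C)}
    (he : e' = e ∨ e' = e.flip) (h : Inv W L (e ::ₘ es)) : Inv W L (e' ::ₘ es) := by
  rcases he with rfl | rfl
  · exact h
  · exact h.flip

theorem Sol.or_flip {W : Finset V} {L : V → Finset C} {e e' : E V C} {es : Multiset (E V C)}
    (he : e' = e ∨ e' = e.flip) (h : Sol W L (e' ::ₘ es)) : Sol W L (e ::ₘ es) := by
  rcases he with rfl | rfl
  · exact h
  · exact h.flip

theorem w1_or_flip {e e' : E V C} (he : e' = e ∨ e' = e.flip) (v : V) : w1 e' v = w1 e v := by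
  rcases he with rfl | rfl
  · rfl
  · exact w1_flip e v

/-- orient an edge so that it starts at `v` -/
theorem orient_p (e : E V C) {v : V} (h : e.p = v ∨ e.q = v) :
    ∃ e' : E V C, (e' = e ∨ e' = e.flip) ∧ e'.p = v := by
  rcases h with h | h
  · exact ⟨e, Or.inl rfl, h⟩
  · exact ⟨e.flip, Or.inr rfl, h⟩

theorem orient_q (e : E V C) {v : V} (h : e.p = v ∨ e.q = v) :
    ∃ e' : E V C, (e' = e ∨ e' = e.flip) ∧ e'.q = v := by
  rcases h with h | h
  · exact ⟨e.flip, Or.inr rfl, h⟩
  · exact ⟨e, Or.inl rfl, h⟩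

theorem deg_map_flips (f : E V C → E V C) (hf : ∀ e, f e = e ∨ f e = e.flip)
    (es : Multiset (E V C)) (v : V) : deg (es.map f) v = deg es v := by
  induction es using Multiset.induction_on with
  | empty => rfl
  | cons e es ih =>
    rw [Multiset.map_cons, deg_cons, deg_cons, ih, w1_or_flip (hf e)]

/-- isolate all edges at a vertex, oriented away from it -/
theorem expose_all {W : Finset V} {L : V → Finset C} {es : Multiset (E V C)}
    (h : Inv W L es) (hnl : ∀ e ∈ es, e.p ≠ e.q) (u : V) :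
    ∃ (lst : List (E V C)) (es' : Multiset (E V C)),
      Inv W L ((lst : Multiset (E V C)) + es') ∧
      (Sol W L ((lst : Multiset (E V C)) + es') → Sol W L es) ∧
      lst.length + Multiset.card es' = Multiset.card es ∧
      (∀ e ∈ lst, e.p = u) ∧ (∀ e ∈ lst, e.q ≠ u) ∧
      (∀ e ∈ lst, adj es u e.q) ∧ deg es' u = 0 ∧
      (∀ v, deg ((lst : Multiset (E V C)) + es') v = deg es v) ∧
      (∀ x, adj es u x → x ≠ u → ∃ e ∈ lst, e.q = x) ∧
      (∀ e ∈ es, e.p ≠ u → e.q ≠ u → e ∈ es') ∧
      (∀ e ∈ es', e ∈ es) := by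
  classical
  let f : E V C → E V C := fun e => if e.q = u then e.flip else e
  have hf : ∀ e, f e = e ∨ f e = e.flip := by
    intro e
    by_cases he : e.q = u
    · right; simp [f, he]
    · left; simp [f, he]
  have hfq : ∀ e, e.q = u → f e = e.flip := fun e he => by simp [f, he]
  have hfn : ∀ e, e.q ≠ u → f e = e := fun e he => by simp [f, he]
  have hqne : ∀ e ∈ es, (f e).q ≠ u := by
    intro e he hq
    by_cases h1 : e.q = u
    · rw [hfq e h1] at hq
      exact hnl e he (hq.trans h1.symm)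
    · rw [hfn e h1] at hq
      exact h1 hq
  set es₁ := (es.map f).filter (fun e => e.p = u) with hes₁
  set es₂ := (es.map f).filter (fun e => ¬ e.p = u) with hes₂
  have hsum : es₁ + es₂ = es.map f := Multiset.filter_add_not _ _
  have hl : ((es₁.toList : List (E V C)) : Multiset (E V C)) = es₁ := Multiset.coe_toList _
  have hmem : ∀ e ∈ es₁.toList, ∃ e₀ ∈ es, f e₀ = e ∧ e.p = u := by
    intro e he
    rw [Multiset.mem_toList, hes₁, Multiset.mem_filter, Multiset.mem_map] at he
    obtain ⟨⟨e₀, h1, h2⟩, h3⟩ := he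
    exact ⟨e₀, h1, h2, h3⟩
  have hmem2 : ∀ e ∈ es₂, e ∈ es ∧ e.p ≠ u ∧ e.q ≠ u := by
    intro e he
    rw [hes₂, Multiset.mem_filter, Multiset.mem_map] at he
    obtain ⟨⟨e₀, h1, h2⟩, h3⟩ := he
    have hq := hqne e₀ h1
    by_cases h4 : e₀.q = u
    · rw [hfq e₀ h4] at h2
      exfalso
      apply h3
      rw [← h2]; exact h4
    · rw [hfn e₀ h4] at h2
      subst h2
      exact ⟨h1, h3, h4⟩
  refine ⟨es₁.toList, es₂, ?_, ?_, ?_, ?_, ?_, ?_, ?_, ?_, ?_, ?_, ?_⟩
  · rw [hl, hsum]
    have := Inv.flips (W := W) (L := L) f hf es 0 (by simpa using h)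
    simpa using this
  · intro hS
    rw [hl, hsum] at hS
    have := Sol.flips (W := W) (L := L) f hf es 0 (by simpa using hS)
    simpa using this
  · rw [Multiset.length_toList, ← Multiset.card_add, hsum, Multiset.card_map]
  · intro e he
    exact (hmem e he).choose_spec.2.2
  · intro e he
    obtain ⟨e₀, h1, h2, _⟩ := hmem e he
    rw [← h2]; exact hqne e₀ h1
  · intro e he
    obtain ⟨e₀, h1, h2, h3⟩ := hmem e he
    by_cases h4 : e₀.q = u
    · rw [hfq e₀ h4] at h2
      subst h2
      exact ⟨e₀, h1, Or.inr ⟨rfl, h4⟩⟩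
    · rw [hfn e₀ h4] at h2
      subst h2
      exact ⟨e₀, h1, Or.inl ⟨h3, rfl⟩⟩
  · apply deg_zero_of
    intro e he
    exact (hmem2 e he).2
  · intro v
    rw [hl, hsum, deg_map_flips f hf]
  · intro x hx hxu
    obtain ⟨e, he, h1⟩ := hx
    have hfe : f e ∈ es.map f := Multiset.mem_map_of_mem f he
    refine ⟨f e, ?_, ?_⟩
    · rw [Multiset.mem_toList, hes₁, Multiset.mem_filter]
      refine ⟨hfe, ?_⟩
      rcases h1 with ⟨h1, h2⟩ | ⟨h1, h2⟩
      · rw [hfn e (by rw [h2]; exact hxu)]; exact h1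
      · rw [hfq e h2]; exact h2
    · rcases h1 with ⟨h1, h2⟩ | ⟨h1, h2⟩
      · rw [hfn e (by rw [h2]; exact hxu)]; exact h2
      · rw [hfq e h2]; exact h1
  · intro e he hp hq
    rw [hes₂, Multiset.mem_filter, Multiset.mem_map]
    exact ⟨⟨e, he, hfn e hq⟩, hp⟩
  · exact fun e he => (hmem2 e he).1

theorem main_ind [Nonempty C] (n : ℕ) : ∀ (W : Finset V) (L : V → Finset C)
    (es : Multiset (E V C)), W.card + Multiset.card es = n → Inv W L es → Sol W L es := by
  classical
  induction n using Nat.strong_induction_on with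
  | _ n ih =>
  intro W L es hn h
  have IH : ∀ (W' : Finset V) (L' : V → Finset C) (es' : Multiset (E V C)),
      W'.card + Multiset.card es' < W.card + Multiset.card es → Inv W' L' es' → Sol W' L' es' :=
    fun W' L' es' h1 h2 => ih _ (hn ▸ h1) W' L' es' rfl h2
  -- empty
  rcases W.eq_empty_or_nonempty with rfl | hWne
  · have hes : es = 0 := by
      apply Multiset.eq_zero_of_forall_notMem
      intro e he
      simpa using (h.ends e he).1
    subst hes
    exact ⟨fun _ => Classical.arbitrary C, fun v hv => by simp at hv, 0, rfl,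
      fun d hd => by simp at hd, fun v hv => by simp at hv⟩
  have hcardW : ∀ u ∈ W, (W.erase u).card < W.card := fun u hu => Finset.card_erase_lt_of_mem hu
  -- isolated vertices
  by_cases h0 : ∃ u ∈ W, deg es u = 0
  · obtain ⟨u, hu, hd⟩ := h0
    obtain ⟨g1, g2⟩ := step_iso h hu hd
    exact g2 (IH _ _ _ (by have := hcardW u hu; omega) g1)
  push Not at h0
  -- leaves
  by_cases h1 : ∃ u ∈ W, deg es u = 1
  · obtain ⟨u, hu, hd⟩ := h1
    obtain ⟨e, es', rfl, he⟩ := exists_of_deg (by omega : deg es u ≠ 0)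
    obtain ⟨e', he', hp⟩ := orient_p e he
    rw [deg_cons, ← w1_or_flip he'] at hd
    have h3 : 1 ≤ w1 e' u := by unfold w1; rw [if_pos hp]; omega
    have h4 : e'.q ≠ e'.p := by
      intro h5
      unfold w1 at hd
      rw [if_pos hp, if_pos (h5.trans hp)] at hd
      omega
    subst hp
    obtain ⟨g1, g2⟩ := step_leaf (h.or_flip he') h4 (by omega)
    apply Sol.or_flip he'
    apply g2
    apply IH _ _ _ _ g1
    rw [Multiset.card_cons]
    have := hcardW _ hu
    omega
  push Not at h1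
  -- single loops
  by_cases h2 : ∃ u ∈ W, deg es u = 2 ∧ ∃ e ∈ es, e.p = u ∧ e.q = u
  · obtain ⟨u, hu, hd, e, he, hp, hq⟩ := h2
    obtain ⟨es', rfl⟩ := Multiset.exists_cons_of_mem he
    rw [deg_cons] at hd
    have h3 : w1 e u = 2 := by unfold w1; rw [if_pos hp, if_pos hq]
    subst hp
    obtain ⟨g1, g2⟩ := step_cyc h hq (by omega)
    apply g2
    apply IH _ _ _ _ g1
    rw [Multiset.card_cons]
    have := hcardW _ hu
    omega
  push Not at h2
  -- suppress vertices of degree two
  by_cases h3 : ∃ u ∈ W, deg es u = 2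
  · have h3' : ∃ w ∈ W, deg es w = 2 ∧ ((L w).card ≤ 4 ∨ ∀ v ∈ W, Spec L es v) := by
      by_cases h4 : ∃ w ∈ W, deg es w = 2 ∧ (L w).card ≤ 4
      · obtain ⟨w, hw, h5, h6⟩ := h4
        exact ⟨w, hw, h5, Or.inl h6⟩
      · push Not at h4
        obtain ⟨w, hw, h5⟩ := h3
        refine ⟨w, hw, h5, Or.inr ?_⟩
        intro v hv
        by_cases h6 : deg es v = 2
        · right
          have := h4 v hv h6
          omega
        · exact Or.inl h6
    obtain ⟨w, hw, hd, hsp⟩ := h3'
    obtain ⟨e, es₁, rfl, he⟩ := exists_of_deg (by omega : deg es w ≠ 0)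
    have hne : ¬ (e.p = w ∧ e.q = w) := fun hh =>
      h2 w hw hd e (Multiset.mem_cons_self _ _) hh.1 hh.2
    have hd' := hd
    rw [deg_cons] at hd'
    have hw1 : w1 e w = 1 := by
      unfold w1
      rcases he with he | he
      · rw [if_pos he, if_neg (fun hh => hne ⟨he, hh⟩)]
      · rw [if_neg (fun hh => hne ⟨hh, he⟩), if_pos he]
    obtain ⟨f, es₂, rfl, hf⟩ := exists_of_deg (by omega : deg es₁ w ≠ 0)
    have hne' : ¬ (f.p = w ∧ f.q = w) := fun hh =>
      h2 w hw hd f (Multiset.mem_cons_of_mem (Multiset.mem_cons_self _ _)) hh.1 hh.2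
    rw [deg_cons] at hd'
    have hw1' : w1 f w = 1 := by
      unfold w1
      rcases hf with hf | hf
      · rw [if_pos hf, if_neg (fun hh => hne' ⟨hf, hh⟩)]
      · rw [if_neg (fun hh => hne' ⟨hh, hf⟩), if_pos hf]
    obtain ⟨e', he', heq⟩ := orient_q e he
    obtain ⟨f', hf', hfp⟩ := orient_p f hf
    have hep : e'.p ≠ w := by
      intro hh
      have := w1_or_flip he' w
      unfold w1 at this hw1
      rw [if_pos hh, if_pos heq, hw1] at this
      omega
    have hfq : f'.q ≠ w := by
      intro hh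
      have := w1_or_flip hf' w
      unfold w1 at this hw1'
      rw [if_pos hh, if_pos hfp, hw1'] at this
      omega
    have hinv : Inv W L (e' ::ₘ f' ::ₘ es₂) := by
      have g := h.or_flip he'
      rw [Multiset.cons_swap] at g ⊢
      exact g.or_flip hf'
    have hdeg : ∀ v, deg (e' ::ₘ f' ::ₘ es₂) v = deg (e ::ₘ f ::ₘ es₂) v := by
      intro v
      rw [deg_cons, deg_cons, deg_cons, deg_cons, w1_or_flip he', w1_or_flip hf']
    have hepW := (hinv.ends e' (Multiset.mem_cons_self _ _)).1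
    obtain ⟨g1, g2⟩ := step_supp hinv heq hfp hep hfq (by omega) (by
      rcases hsp with hsp | hsp
      · exact Or.inl hsp
      · right
        have := hsp e'.p hepW
        unfold Spec at this ⊢
        rw [hdeg]
        exact this)
    have hsol : Sol W L (e' ::ₘ f' ::ₘ es₂) := by
      apply g2
      apply IH _ _ _ _ g1
      simp only [Multiset.card_cons]
      have := hcardW _ hw
      omega
    rw [Multiset.cons_swap] at hsol
    have h5 := hsol.or_flip hf'
    rw [Multiset.cons_swap] at h5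
    exact h5.or_flip he'
  push Not at h3
  have h33 : ∀ v ∈ W, 3 ≤ deg es v := by
    intro v hv
    have e0 := h0 v hv
    have e1 := h1 v hv
    have e2 := h3 v hv
    omega
  -- loops
  by_cases h4 : ∃ e ∈ es, e.p = e.q
  · obtain ⟨e, he, hpq⟩ := h4
    obtain ⟨es', rfl⟩ := Multiset.exists_cons_of_mem he
    have hpW := (h.ends e (Multiset.mem_cons_self _ _)).1
    have hd := h33 e.p hpW
    rw [deg_cons] at hd
    have hw1 : w1 e e.p = 2 := by unfold w1; rw [if_pos rfl, if_pos hpq.symm]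
    obtain ⟨g1, g2⟩ := step_loop h hpq.symm (by omega)
    apply g2
    apply IH _ _ _ _ g1
    rw [Multiset.card_cons]
    omega
  push Not at h4
  -- a vertex with at most two neighbours
  have hadjW : ∀ x y, adj es x y → x ∈ W ∧ y ∈ W := by
    rintro x y ⟨e, he, ⟨rfl, rfl⟩ | ⟨rfl, rfl⟩⟩
    · exact h.ends e he
    · exact (h.ends e he).symm
  have hadjne : ∀ x y, adj es x y → x ≠ y := by
    rintro x y ⟨e, he, ⟨rfl, rfl⟩ | ⟨rfl, rfl⟩⟩
    · exact h4 e he
    · exact (h4 e he).symm
  have hnb : ∀ x y, adj es x y ↔ y ∈ nbr (adj es) W x := by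
    intro x y
    rw [mem_nbr]
    exact ⟨fun hh => ⟨(hadjW x y hh).2, (hadjne x y hh).symm, hh⟩, fun hh => hh.2.2⟩
  have hexn : ∀ v ∈ W, ∃ x, adj es v x := by
    intro v hv
    obtain ⟨e, es', rfl, he⟩ := exists_of_deg (h0 v hv)
    rcases he with he | he
    · exact ⟨e.q, e, Multiset.mem_cons_self _ _, Or.inl ⟨he, rfl⟩⟩
    · exact ⟨e.p, e, Multiset.mem_cons_self _ _, Or.inr ⟨rfl, he⟩⟩
  have hsmall : ∃ u ∈ W, (nbr (adj es) W u).card ≤ 2 := by
    by_contra hno
    push Not at hno
    obtain ⟨s, hs⟩ := hWne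
    apply h.nomin
    refine claimD W.card W (adj es) s rfl (fun x y => adj_symm) (fun v hv _ => hno v hv) ?_
    obtain ⟨x, hx⟩ := hexn s hs
    exact ⟨x, (hadjW _ _ hx).2, (hadjne _ _ hx).symm⟩
  -- the good centre step
  have good : ∀ u x y, u ∈ W → adj es u x → adj es u y →
      (∀ z, adj es u z → z = x ∨ z = y) → (∃ x', adj es x x' ∧ x' ≠ u) →
      (∃ y', adj es y y' ∧ y' ≠ u) → Sol W L es := by
    intro u x y hu hux huy hz hx' hy'
    obtain ⟨lst, es', g1, g2, g3, g4, g5, g6, g7, g8, g9, g10, g11⟩ := expose_all h h4 u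
    have hdne : ∀ x, x ≠ u → (∃ x', adj es x x' ∧ x' ≠ u) → deg es' x ≠ 0 := by
      rintro x hxu ⟨x', ⟨e, he, hee⟩, hx'u⟩ hd
      have hn' := not_mem_of_deg_zero hd
      rcases hee with ⟨e1, e2⟩ | ⟨e1, e2⟩
      · exact (hn' e (g10 e he (by rw [e1]; exact hxu) (by rw [e2]; exact hx'u))).1 e1
      · exact (hn' e (g10 e he (by rw [e1]; exact hx'u) (by rw [e2]; exact hxu))).2 e2
    have hxu : x ≠ u := (hadjne _ _ hux).symm
    have hyu : y ≠ u := (hadjne _ _ huy).symm
    have hlen : 3 ≤ lst.length := by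
      have e1 := h33 u hu
      rw [← g8, deg_add, g7, deg_lst_center g4 g5] at e1
      exact e1
    obtain ⟨L', k1, k2⟩ := step_star g1 hu g4 (fun e he => hz _ (g6 e he)) hxu hyu g7
      (hdne x hxu hx') (hdne y hyu hy') hlen (g9 x hux hxu) (g9 y huy hyu)
    apply g2
    apply k2
    apply IH _ _ _ _ k1
    have := hcardW u hu
    omega
  -- the theta step
  have theta : ∀ u x, u ∈ W → adj es u x → (∀ z, adj es u z → z = x) →
      (∀ z, adj es x z → z = u) → Sol W L es := by
    intro u x hu hux hz hz'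
    obtain ⟨lst, es', g1, g2, g3, g4, g5, g6, g7, g8, g9, g10, g11⟩ := expose_all h h4 u
    have hn' := not_mem_of_deg_zero g7
    have hxu : x ≠ u := (hadjne _ _ hux).symm
    have hdx : deg es' x = 0 := by
      apply deg_zero_of
      intro e he
      constructor
      · intro hh
        exact (hn' e he).2 (hz' _ ⟨e, g11 e he, Or.inl ⟨hh, rfl⟩⟩)
      · intro hh
        exact (hn' e he).1 (hz' _ ⟨e, g11 e he, Or.inr ⟨rfl, hh⟩⟩)
    have hlen : 3 ≤ lst.length := by
      have e1 := h33 u hu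
      rw [← g8, deg_add, g7, deg_lst_center g4 g5] at e1
      exact e1
    obtain ⟨k1, k2⟩ := step_theta g1 hu (hadjW _ _ hux).2 g4 (fun e he => hz _ (g6 e he)) hxu
      g7 hdx hlen
    apply g2
    apply k2
    apply IH _ _ _ _ k1
    have e1 := hcardW u hu
    have e2 : ((W.erase u).erase x).card ≤ (W.erase u).card :=
      Finset.card_le_card (Finset.erase_subset _ _)
    omega
  obtain ⟨u, hu, hcard⟩ := hsmall
  obtain ⟨x, hux⟩ := hexn u hu
  have hxW := (hadjW _ _ hux).2
  by_cases hone : ∀ z, adj es u z → z = x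
  · by_cases hone' : ∀ z, adj es x z → z = u
    · exact theta u x hu hux hone hone'
    · push Not at hone'
      exact good u x x hu hux hux (fun z hz => Or.inl (hone z hz)) hone' hone'
  · push Not at hone
    obtain ⟨y, huy, hyx⟩ := hone
    have hyW := (hadjW _ _ huy).2
    have htwo : ∀ z, adj es u z → z = x ∨ z = y := by
      intro z hz
      by_contra hno
      rw [not_or] at hno
      have hsub : ({x, y, z} : Finset V) ⊆ nbr (adj es) W u := by
        intro w hw
        simp only [Finset.mem_insert, Finset.mem_singleton] at hw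
        rcases hw with rfl | rfl | rfl
        · exact (hnb _ _).1 hux
        · exact (hnb _ _).1 huy
        · exact (hnb _ _).1 hz
      have h5 := Finset.card_le_card hsub
      rw [Finset.card_eq_three.2 ⟨x, y, z, hyx.symm, fun hh => hno.1 hh.symm,
        fun hh => hno.2 hh.symm, rfl⟩] at h5
      omega
    by_cases hx1 : ∀ z, adj es x z → z = u
    · exact good x u u hxW (adj_symm hux) (adj_symm hux) (fun z hz => Or.inl (hx1 z hz))
        ⟨y, huy, hyx⟩ ⟨y, huy, hyx⟩
    · by_cases hy1 : ∀ z, adj es y z → z = u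
      · exact good y u u hyW (adj_symm huy) (adj_symm huy) (fun z hz => Or.inl (hy1 z hz))
          ⟨x, hux, hyx.symm⟩ ⟨x, hux, hyx.symm⟩
      · push Not at hx1 hy1
        exact good u x y hu hux huy htwo hx1 hy1

end PCF
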