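import Mathlib

/-!
# K4 minors of symmetric relations on finite sets

A finite symmetric relation in which all but at most one of the points have at least three
neighbours has a `K4` minor.
-/

namespace PCF

variable {V : Type*} [DecidableEq V]

/-- `B` is connected under `r`, in the sense of cuts. -/
def Conn (r : V → V → Prop) (B : Finset V) : Prop :=
  B.Nonempty ∧ ∀ A : Finset V, A ⊆ B → A.Nonempty → A ≠ B → ∃ a ∈ A, ∃ b ∈ B, b ∉ A ∧ r a b

/-- `r` has a `K4` minor with branch sets inside `W`. -/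
def K4M (r : V → V → Prop) (W : Finset V) : Prop :=
  ∃ B : Fin 4 → Finset V, (∀ i, B i ⊆ W) ∧ (∀ i, Conn r (B i)) ∧
    (∀ i j, i ≠ j → Disjoint (B i) (B j)) ∧
    (∀ i j, i ≠ j → ∃ a ∈ B i, ∃ b ∈ B j, r a b)

set_option linter.unusedSectionVars false

theorem Conn.mono {r r' : V → V → Prop} {B : Finset V} (h : Conn r B)
    (hr : ∀ x y, x ≠ y → r x y → r' x y) : Conn r' B := by
  refine ⟨h.1, fun A h1 h2 h3 => ?_⟩
  obtain ⟨a, ha, b, hb, hba, hab⟩ := h.2 A h1 h2 h3
  exact ⟨a, ha, b, hb, hba, hr _ _ (fun h => hba (h ▸ ha)) hab⟩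

theorem K4M.mono {r r' : V → V → Prop} {W W' : Finset V} (h : K4M r W) (hW : W ⊆ W')
    (hr : ∀ x y, x ≠ y → r x y → r' x y) : K4M r' W' := by
  obtain ⟨B, h1, h2, h3, h4⟩ := h
  refine ⟨B, fun i => (h1 i).trans hW, fun i => (h2 i).mono hr, h3, fun i j hij => ?_⟩
  obtain ⟨a, ha, b, hb, hab⟩ := h4 i j hij
  exact ⟨a, ha, b, hb, hr _ _ (fun h => Finset.disjoint_left.1 (h3 i j hij) ha (h ▸ hb)) hab⟩

theorem conn_singleton (r : V → V → Prop) (a : V) : Conn r {a} := by
  refine ⟨⟨a, by simp⟩, fun A h1 h2 h3 => ?_⟩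
  exact absurd (Finset.Nonempty.subset_singleton_iff h2 |>.1 h1) h3

theorem K4M_of_triangle {r : V → V → Prop} (hr : ∀ x y, r x y → r y x) {W Q : Finset V}
    {a b c : V} (ha : a ∈ W) (hb : b ∈ W) (hc : c ∈ W) (hQ : Q ⊆ W) (hQc : Conn r Q)
    (hab : r a b) (hac : r a c) (hbc : r b c) (nab : a ≠ b) (nac : a ≠ c) (nbc : b ≠ c)
    (aQ : a ∉ Q) (bQ : b ∉ Q) (cQ : c ∉ Q) (eaQ : ∃ z ∈ Q, r a z) (ebQ : ∃ z ∈ Q, r b z)
    (ecQ : ∃ z ∈ Q, r c z) : K4M r W := by
  obtain ⟨x, hx, hax⟩ := eaQ
  obtain ⟨y, hy, hby⟩ := ebQ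
  obtain ⟨z, hz, hcz⟩ := ecQ
  refine ⟨![{a}, {b}, {c}, Q], ?_, ?_, ?_, ?_⟩
  · intro i
    fin_cases i
    · simpa using ha
    · simpa using hb
    · simpa using hc
    · simpa using hQ
  · intro i
    fin_cases i
    · exact conn_singleton r a
    · exact conn_singleton r b
    · exact conn_singleton r c
    · exact hQc
  · intro i j hij
    fin_cases i <;> fin_cases j <;>
      simp [nab, nab.symm, nac, nac.symm, nbc, nbc.symm, aQ, bQ, cQ] at hij ⊢
  · have sym : ∀ B D : Finset V, (∃ x ∈ B, ∃ y ∈ D, r x y) → ∃ x ∈ D, ∃ y ∈ B, r x y := by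
      rintro B D ⟨x, hx, y, hy, hxy⟩
      exact ⟨y, hy, x, hx, hr _ _ hxy⟩
    have h01 : ∃ x ∈ ({a} : Finset V), ∃ y ∈ ({b} : Finset V), r x y :=
      ⟨a, by simp, b, by simp, hab⟩
    have h02 : ∃ x ∈ ({a} : Finset V), ∃ y ∈ ({c} : Finset V), r x y :=
      ⟨a, by simp, c, by simp, hac⟩
    have h12 : ∃ x ∈ ({b} : Finset V), ∃ y ∈ ({c} : Finset V), r x y :=
      ⟨b, by simp, c, by simp, hbc⟩
    have h03 : ∃ x ∈ ({a} : Finset V), ∃ y ∈ Q, r x y := ⟨a, by simp, x, hx, hax⟩
    have h13 : ∃ x ∈ ({b} : Finset V), ∃ y ∈ Q, r x y := ⟨b, by simp, y, hy, hby⟩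
    have h23 : ∃ x ∈ ({c} : Finset V), ∃ y ∈ Q, r x y := ⟨c, by simp, z, hz, hcz⟩
    intro i j hij
    fin_cases i <;> fin_cases j
    · exact absurd rfl hij
    · exact h01
    · exact h02
    · exact h03
    · exact sym _ _ h01
    · exact absurd rfl hij
    · exact h12
    · exact h13
    · exact sym _ _ h02
    · exact sym _ _ h12
    · exact absurd rfl hij
    · exact h23
    · exact sym _ _ h03
    · exact sym _ _ h13
    · exact sym _ _ h23
    · exact absurd rfl hij

/-- The relation obtained by contracting `w` into `a`. -/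
def contr (r : V → V → Prop) (w a : V) (x y : V) : Prop :=
  r x y ∨ (x = a ∧ r w y) ∨ (y = a ∧ r x w)

theorem contr_symm {r : V → V → Prop} (hr : ∀ x y, r x y → r y x) (w a : V) (x y : V)
    (h : contr r w a x y) : contr r w a y x := by
  rcases h with h | ⟨h1, h2⟩ | ⟨h1, h2⟩
  · exact Or.inl (hr _ _ h)
  · exact Or.inr (Or.inr ⟨h1, hr _ _ h2⟩)
  · exact Or.inr (Or.inl ⟨h1, hr _ _ h2⟩)

theorem K4M.lift {r : V → V → Prop} (hr : ∀ x y, r x y → r y x) {W : Finset V} {w a : V}
    (hw : w ∈ W) (hwa : r w a) (h : K4M (contr r w a) (W.erase w)) : K4M r W := by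
  obtain ⟨B, h1, h2, h3, h4⟩ := h
  have hwB : ∀ i, w ∉ B i := fun i hi => by simpa using h1 i hi
  let f : Fin 4 → Finset V := fun i => if a ∈ B i then insert w (B i) else B i
  have hfa : ∀ i, a ∈ B i → f i = insert w (B i) := fun i hi => by simp [f, hi]
  have hfn : ∀ i, a ∉ B i → f i = B i := fun i hi => by simp [f, hi]
  have hsub : ∀ i, B i ⊆ f i := by
    intro i x hx
    by_cases hi : a ∈ B i
    · rw [hfa i hi]; exact Finset.mem_insert_of_mem hx
    · rw [hfn i hi]; exact hx
  have hmem : ∀ i x, x ∈ f i → x ∈ B i ∨ (x = w ∧ a ∈ B i) := by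
    intro i x hx
    by_cases hi : a ∈ B i
    · rw [hfa i hi, Finset.mem_insert] at hx
      rcases hx with h | h
      · exact Or.inr ⟨h, hi⟩
      · exact Or.inl h
    · rw [hfn i hi] at hx; exact Or.inl hx
  refine ⟨f, ?_, ?_, ?_, ?_⟩
  · intro i x hx
    rcases hmem i x hx with h | ⟨rfl, _⟩
    · exact Finset.mem_of_mem_erase (h1 i h)
    · exact hw
  · intro i
    by_cases hi : a ∈ B i
    · rw [hfa i hi]
      refine ⟨⟨w, by simp⟩, fun A hA1 hA2 hA3 => ?_⟩
      by_cases hwA : w ∈ A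
      · by_cases haA : a ∈ A
        · -- both in A
          have hsub' : A.erase w ⊆ B i := by
            intro x hx
            have hx1 := Finset.mem_of_mem_erase hx
            have hx2 := Finset.ne_of_mem_erase hx
            exact (Finset.mem_insert.1 (hA1 hx1)).resolve_left hx2
          have haw : a ≠ w := fun h => hwB i (h ▸ hi)
          have hne : A.erase w ≠ B i := by
            intro h
            apply hA3
            rw [← h, Finset.insert_erase hwA]
          obtain ⟨x, hx, y, hy, hyA, hxy⟩ :=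
            (h2 i).2 (A.erase w) hsub' ⟨a, Finset.mem_erase.2 ⟨haw, haA⟩⟩ hne
          have hyw : y ≠ w := fun h => hwB i (h ▸ hy)
          have hyA' : y ∉ A := fun h => hyA (Finset.mem_erase.2 ⟨hyw, h⟩)
          rcases hxy with h | ⟨_, h⟩ | ⟨h, _⟩
          · exact ⟨x, Finset.mem_of_mem_erase hx, y, Finset.mem_insert_of_mem hy, hyA', h⟩
          · exact ⟨w, hwA, y, Finset.mem_insert_of_mem hy, hyA', h⟩
          · exact absurd (h ▸ haA) hyA'
        · exact ⟨w, hwA, a, Finset.mem_insert_of_mem hi, haA, hwa⟩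
      · by_cases haA : a ∈ A
        · exact ⟨a, haA, w, by simp, hwA, hr _ _ hwa⟩
        · have hsub' : A ⊆ B i := by
            intro x hx
            exact (Finset.mem_insert.1 (hA1 hx)).resolve_left (fun h => hwA (h ▸ hx))
          obtain ⟨x, hx, y, hy, hyA, hxy⟩ := (h2 i).2 A hsub' hA2 (fun h => haA (h ▸ hi))
          rcases hxy with h | ⟨h, _⟩ | ⟨_, h⟩
          · exact ⟨x, hx, y, Finset.mem_insert_of_mem hy, hyA, h⟩
          · exact absurd (h ▸ hx) haA
          · exact ⟨x, hx, w, by simp, hwA, h⟩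
    · rw [hfn i hi]
      refine ⟨(h2 i).1, fun A hA1 hA2 hA3 => ?_⟩
      obtain ⟨x, hx, y, hy, hyA, hxy⟩ := (h2 i).2 A hA1 hA2 hA3
      rcases hxy with h | ⟨h, _⟩ | ⟨h, _⟩
      · exact ⟨x, hx, y, hy, hyA, h⟩
      · exact absurd (h ▸ hA1 hx) hi
      · exact absurd (h ▸ hy) hi
  · intro i j hij
    rw [Finset.disjoint_left]
    intro x hx hx'
    have hd := Finset.disjoint_left.1 (h3 i j hij)
    rcases hmem i x hx with h | ⟨h, h'⟩
    · rcases hmem j x hx' with g | ⟨g, g'⟩
      · exact hd h g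
      · exact hwB i (g ▸ h)
    · rcases hmem j x hx' with g | ⟨g, g'⟩
      · exact hwB j (h ▸ g)
      · exact hd h' g'
  · intro i j hij
    obtain ⟨x, hx, y, hy, hxy⟩ := h4 i j hij
    rcases hxy with h | ⟨h, h'⟩ | ⟨h, h'⟩
    · exact ⟨x, hsub i hx, y, hsub j hy, h⟩
    · refine ⟨w, ?_, y, hsub j hy, h'⟩
      rw [hfa i (h ▸ hx)]; simp
    · refine ⟨x, hsub i hx, w, ?_, h'⟩
      rw [hfa j (h ▸ hy)]; simp

open Classical in
/-- Neighbours of `v` inside `W`. -/
noncomputable def nbr (r : V → V → Prop) (W : Finset V) (v : V) : Finset V :=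
  W.filter (fun x => x ≠ v ∧ r v x)

theorem mem_nbr {r : V → V → Prop} {W : Finset V} {v x : V} :
    x ∈ nbr r W v ↔ x ∈ W ∧ x ≠ v ∧ r v x := by
  simp [nbr]

open Classical in
/-- Component of `x` in `U`. -/
noncomputable def comp (r : V → V → Prop) (U : Finset V) (x : V) : Finset V :=
  U.filter (fun v => Relation.ReflTransGen (fun y z => r y z ∧ y ∈ U ∧ z ∈ U) x v)

theorem mem_comp {r : V → V → Prop} {U : Finset V} {x v : V} :
    v ∈ comp r U x ↔ v ∈ U ∧ Relation.ReflTransGen (fun y z => r y z ∧ y ∈ U ∧ z ∈ U) x v := by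
  simp [comp]

theorem comp_self {r : V → V → Prop} {U : Finset V} {x : V} (hx : x ∈ U) : x ∈ comp r U x :=
  mem_comp.2 ⟨hx, Relation.ReflTransGen.refl⟩

theorem comp_sub {r : V → V → Prop} {U : Finset V} {x : V} : comp r U x ⊆ U :=
  fun _ h => (mem_comp.1 h).1

theorem comp_closed {r : V → V → Prop} {U : Finset V} {x v y : V} (hv : v ∈ comp r U x)
    (hy : y ∈ U) (hvy : r v y) : y ∈ comp r U x := by
  obtain ⟨h1, h2⟩ := mem_comp.1 hv
  exact mem_comp.2 ⟨hy, h2.tail ⟨hvy, h1, hy⟩⟩

theorem comp_conn {r : V → V → Prop} (hr : ∀ x y, r x y → r y x) {U : Finset V} {x : V}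
    (hx : x ∈ U) : Conn r (comp r U x) := by
  refine ⟨⟨x, comp_self hx⟩, fun A hA1 hA2 hA3 => ?_⟩
  by_contra hcon
  push Not at hcon
  -- both A and its complement are closed
  have hcl : ∀ v y, v ∈ comp r U x → y ∈ comp r U x → r v y → (v ∈ A ↔ y ∈ A) := by
    intro v y hv hy hvy
    constructor
    · intro h
      by_contra h'
      exact hcon v h y hy h' hvy
    · intro h
      by_contra h'
      exact hcon y h v hv h' (hr _ _ hvy)
  have key : ∀ v, v ∈ comp r U x → (x ∈ A ↔ v ∈ A) := by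
    intro v hv
    obtain ⟨-, h2⟩ := mem_comp.1 hv
    clear hv
    induction h2 with
    | refl => rfl
    | @tail y z hxy hyz ih =>
      have hy : y ∈ comp r U x := mem_comp.2 ⟨hyz.2.1, hxy⟩
      exact ih.trans (hcl y z hy (comp_closed hy hyz.2.2 hyz.1) hyz.1)
  obtain ⟨v, hv⟩ := hA2
  have hxA : x ∈ A := (key v (hA1 hv)).2 hv
  apply hA3
  apply Finset.Subset.antisymm hA1
  intro y hy
  exact (key y hy).1 hxA

theorem rich_contract {r : V → V → Prop} {W : Finset V}
    {s w a : V} (ha : a ∈ W) (haw : a ≠ w)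
    (h : ∀ v ∈ W, v ≠ s → 3 ≤ (nbr r W v).card)
    (h1 : ∀ v ∈ W, v ≠ s → v ≠ w → v ≠ a → r v w → r v a → 4 ≤ (nbr r W v).card)
    (h2 : a ≠ s → ∃ T : Finset V, 3 ≤ T.card ∧ ∀ x ∈ T, x ∈ W ∧ x ≠ a ∧ x ≠ w ∧
      (r a x ∨ r w x)) :
    ∀ v ∈ W.erase w, v ≠ s → 3 ≤ (nbr (contr r w a) (W.erase w) v).card := by
  intro v hv hvs
  obtain ⟨hvw, hvW⟩ := Finset.mem_erase.1 hv
  by_cases hva : v = a
  · subst hva
    obtain ⟨T, hT, hT'⟩ := h2 hvs
    refine le_trans hT (Finset.card_le_card ?_)
    intro x hx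
    obtain ⟨g1, g2, g3, g4⟩ := hT' x hx
    refine mem_nbr.2 ⟨Finset.mem_erase.2 ⟨g3, g1⟩, g2, ?_⟩
    rcases g4 with g | g
    · exact Or.inl g
    · exact Or.inr (Or.inl ⟨rfl, g⟩)
  · have hsub : (nbr r W v).erase w ⊆ nbr (contr r w a) (W.erase w) v := by
      intro x hx
      obtain ⟨g1, g2⟩ := Finset.mem_erase.1 hx
      obtain ⟨g3, g4, g5⟩ := mem_nbr.1 g2
      exact mem_nbr.2 ⟨Finset.mem_erase.2 ⟨g1, g3⟩, g4, Or.inl g5⟩
    by_cases hvw' : r v w
    · by_cases hva' : r v a
      · have := h1 v hvW hvs hvw hva hvw' hva'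
        have h3 := Finset.card_le_card hsub
        have h4 := Finset.pred_card_le_card_erase (s := nbr r W v) (a := w)
        omega
      · have h3 : insert a ((nbr r W v).erase w) ⊆ nbr (contr r w a) (W.erase w) v := by
          intro x hx
          rcases Finset.mem_insert.1 hx with rfl | hx
          · exact mem_nbr.2 ⟨Finset.mem_erase.2 ⟨haw, ha⟩, fun h => hva h.symm,
              Or.inr (Or.inr ⟨rfl, hvw'⟩)⟩
          · exact hsub hx
        have h4 := Finset.card_le_card h3
        have h5 : a ∉ (nbr r W v).erase w := by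
          intro h'
          exact hva' (mem_nbr.1 (Finset.mem_of_mem_erase h')).2.2
        rw [Finset.card_insert_of_notMem h5] at h4
        have h6 := Finset.pred_card_le_card_erase (s := nbr r W v) (a := w)
        have h7 := h v hvW hvs
        omega
    · have h5 : w ∉ nbr r W v := fun h' => hvw' (mem_nbr.1 h').2.2
      rw [Finset.erase_eq_of_notMem h5] at hsub
      exact le_trans (h v hvW hvs) (Finset.card_le_card hsub)

theorem exists_three {T : Finset V} (h : 3 ≤ T.card) (a b : V) : ∃ x ∈ T, x ≠ a ∧ x ≠ b := by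
  by_contra hc
  push Not at hc
  have : T ⊆ {a, b} := by
    intro x hx
    by_cases hxa : x = a
    · simp [hxa]
    · simp [hc x hx hxa]
  have h1 := Finset.card_le_card this
  have h2 := Finset.card_le_two (a := a) (b := b)
  omega

theorem diamond {r : V → V → Prop} (hr : ∀ x y, r x y → r y x) {W : Finset V} {s : V}
    (h : ∀ v ∈ W, v ≠ s → 3 ≤ (nbr r W v).card)
    (IH : ∀ (W' : Finset V) (s' : V), W'.card < W.card →
      (∀ v ∈ W', v ≠ s' → 3 ≤ (nbr r W' v).card) → (∃ v ∈ W', v ≠ s') → K4M r W')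
    (hWs : ∀ W' : Finset V, W' ⊆ W → K4M r W' → K4M r W)
    {a b p q : V} (ha : a ∈ W) (hb : b ∈ W) (hp : p ∈ W) (hq : q ∈ W)
    (nab : a ≠ b) (nap : a ≠ p) (naq : a ≠ q) (nbp : b ≠ p) (nbq : b ≠ q) (npq : p ≠ q)
    (rab : r a b) (rap : r a p) (raq : r a q) (rbp : r b p) (rbq : r b q)
    (hNa : ∀ x ∈ W, x ≠ a → r a x → x = b ∨ x = p ∨ x = q)
    (hNb : ∀ x ∈ W, x ≠ b → r b x → x = a ∨ x = p ∨ x = q) : K4M r W := by
  set U : Finset V := W \ {a, b, p} with hU
  have memU : ∀ x, x ∈ U ↔ x ∈ W ∧ x ≠ a ∧ x ≠ b ∧ x ≠ p := by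
    intro x; simp [hU]
  set Q := comp r U q with hQ
  have hqU : q ∈ U := (memU q).2 ⟨hq, naq.symm, nbq.symm, npq.symm⟩
  have hqQ : q ∈ Q := comp_self hqU
  have hQU : Q ⊆ U := comp_sub
  by_cases hpQ : ∃ z ∈ Q, r p z
  · exact K4M_of_triangle hr ha hb hp (fun x hx => ((memU x).1 (hQU hx)).1) (comp_conn hr hqU)
      rab rap rbp nab nap nbp
      (fun h => ((memU _).1 (hQU h)).2.1 rfl) (fun h => ((memU _).1 (hQU h)).2.2.1 rfl)
      (fun h => ((memU _).1 (hQU h)).2.2.2 rfl) ⟨q, hqQ, raq⟩ ⟨q, hqQ, rbq⟩ hpQ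
  · push Not at hpQ
    by_cases hsQ : s ∈ Q
    · -- use the component of p
      set U' : Finset V := W \ {a, b} with hU'
      have memU' : ∀ x, x ∈ U' ↔ x ∈ W ∧ x ≠ a ∧ x ≠ b := by
        intro x; simp [hU']
      set P := comp r U' p with hP
      have hpU : p ∈ U' := (memU' p).2 ⟨hp, nap.symm, nbp.symm⟩
      have hpP : p ∈ P := comp_self hpU
      have hPU : P ⊆ U' := comp_sub
      have hdisj : ∀ x ∈ P, x ∉ Q := by
        intro x hx
        obtain ⟨-, h2⟩ := mem_comp.1 hx
        clear hx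
        induction h2 with
        | refl => exact fun h => ((memU _).1 (hQU h)).2.2.2 rfl
        | @tail y z hxy hyz ih =>
          intro hz
          by_cases hyp : y = p
          · subst hyp; exact hpQ z hz hyz.1
          · have hyU : y ∈ U := (memU y).2 ⟨((memU' y).1 hyz.2.1).1, ((memU' y).1 hyz.2.1).2.1,
              ((memU' y).1 hyz.2.1).2.2, hyp⟩
            exact ih (comp_closed hz hyU (hr _ _ hyz.1))
      apply hWs P (fun x hx => ((memU' x).1 (hPU hx)).1)
      apply IH P p
      · apply Finset.card_lt_card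
        refine ⟨fun x hx => ((memU' x).1 (hPU hx)).1, fun hh => ?_⟩
        exact ((memU' a).1 (hPU (hh ha))).2.1 rfl
      · intro v hv hvp
        have hvs : v ≠ s := fun h => hdisj v hv (h ▸ hsQ)
        have hvU := (memU' v).1 (hPU hv)
        refine le_trans (h v hvU.1 hvs) (Finset.card_le_card ?_)
        intro x hx
        obtain ⟨g1, g2, g3⟩ := mem_nbr.1 hx
        have hvq : v ≠ q := fun h => hdisj v hv (h ▸ hqQ)
        have hxa : x ≠ a := by
          rintro rfl
          rcases hNa v hvU.1 hvU.2.1 (hr _ _ g3) with h | h | h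
          · exact hvU.2.2 h
          · exact hvp h
          · exact hvq h
        have hxb : x ≠ b := by
          rintro rfl
          rcases hNb v hvU.1 hvU.2.2 (hr _ _ g3) with h | h | h
          · exact hvU.2.1 h
          · exact hvp h
          · exact hvq h
        exact mem_nbr.2 ⟨comp_closed hv ((memU' x).2 ⟨g1, hxa, hxb⟩) g3, g2, g3⟩
      · have hps : p ≠ s := fun h => hdisj p hpP (h ▸ hsQ)
        obtain ⟨x, hx, hxa, hxb⟩ := exists_three (h p hp hps) a b
        obtain ⟨g1, g2, g3⟩ := mem_nbr.1 hx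
        exact ⟨x, comp_closed hpP ((memU' x).2 ⟨g1, hxa, hxb⟩) g3, g2⟩
    · apply hWs Q (fun x hx => ((memU x).1 (hQU hx)).1)
      apply IH Q q
      · apply Finset.card_lt_card
        refine ⟨fun x hx => ((memU x).1 (hQU hx)).1, fun hh => ?_⟩
        exact ((memU a).1 (hQU (hh ha))).2.1 rfl
      · intro v hv hvq
        have hvs : v ≠ s := fun h => hsQ (h ▸ hv)
        have hvU := (memU v).1 (hQU hv)
        refine le_trans (h v hvU.1 hvs) (Finset.card_le_card ?_)
        intro x hx
        obtain ⟨g1, g2, g3⟩ := mem_nbr.1 hx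
        have hxa : x ≠ a := by
          rintro rfl
          rcases hNa v hvU.1 hvU.2.1 (hr _ _ g3) with h | h | h
          · exact hvU.2.2.1 h
          · exact hvU.2.2.2 h
          · exact hvq h
        have hxb : x ≠ b := by
          rintro rfl
          rcases hNb v hvU.1 hvU.2.2.1 (hr _ _ g3) with h | h | h
          · exact hvU.2.1 h
          · exact hvU.2.2.2 h
          · exact hvq h
        have hxp : x ≠ p := by
          rintro rfl
          exact hpQ v hv (hr _ _ g3)
        exact mem_nbr.2 ⟨comp_closed hv ((memU x).2 ⟨g1, hxa, hxb, hxp⟩) g3, g2, g3⟩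
      · have hqs : q ≠ s := fun h => hsQ (h ▸ hqQ)
        obtain ⟨x, hx, hxa, hxb⟩ := exists_three (h q hq hqs) a b
        obtain ⟨g1, g2, g3⟩ := mem_nbr.1 hx
        have hxp : x ≠ p := by
          rintro rfl
          exact hpQ q hqQ (hr _ _ g3)
        exact ⟨x, comp_closed hqQ ((memU x).2 ⟨g1, hxa, hxb, hxp⟩) g3, g2⟩

/-- A finite symmetric relation in which all points but one have three neighbours has a `K4`
minor. -/
theorem claimD (n : ℕ) : ∀ (W : Finset V) (r : V → V → Prop) (s : V), W.card = n →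
    (∀ x y, r x y → r y x) → (∀ v ∈ W, v ≠ s → 3 ≤ (nbr r W v).card) →
    (∃ v ∈ W, v ≠ s) → K4M r W := by
  classical
  induction n using Nat.strong_induction_on with
  | _ n ih =>
  intro W r s hcard hr h hex
  have IH : ∀ (W' : Finset V) (s' : V), W'.card < W.card →
      (∀ v ∈ W', v ≠ s' → 3 ≤ (nbr r W' v).card) → (∃ v ∈ W', v ≠ s') → K4M r W' :=
    fun W' s' h1 h2 h3 => ih W'.card (hcard ▸ h1) W' r s' rfl hr h2 h3
  have hWs : ∀ W' : Finset V, W' ⊆ W → K4M r W' → K4M r W :=
    fun W' h1 h2 => h2.mono h1 (fun _ _ _ h => h)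
  -- contraction step
  have step : ∀ w a, w ∈ W → a ∈ W → a ≠ w → r w a →
      (∀ v ∈ W, v ≠ s → v ≠ w → v ≠ a → r v w → r v a → 4 ≤ (nbr r W v).card) →
      (a ≠ s → ∃ T : Finset V, 3 ≤ T.card ∧ ∀ x ∈ T, x ∈ W ∧ x ≠ a ∧ x ≠ w ∧
        (r a x ∨ r w x)) → (∃ v ∈ W, v ≠ s ∧ v ≠ w) → K4M r W := by
    intro w a hw ha haw hwa h1 h2 h3
    apply K4M.lift hr hw hwa
    refine ih (W.erase w).card ?_ (W.erase w) _ s rfl (contr_symm hr w a)
      (rich_contract ha haw h h1 h2) ?_
    · rw [Finset.card_erase_of_mem hw, ← hcard]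
      have := Finset.card_pos.2 ⟨w, hw⟩
      omega
    · obtain ⟨v, hv, hvs, hvw⟩ := h3
      exact ⟨v, Finset.mem_erase.2 ⟨hvw, hv⟩, hvs⟩
  obtain ⟨a, ha, has⟩ := hex
  obtain ⟨b, hb, hbs, _⟩ := exists_three (h a ha has) s s
  obtain ⟨hbW, hba, rab⟩ := mem_nbr.1 hb
  have hb' := h b hbW hbs
  have ha' := h a ha has
  by_cases hcom : ∀ v ∈ W, v ≠ s → v ≠ b → v ≠ a → r v b → r v a → 4 ≤ (nbr r W v).card
  · -- contract b into a, unless diamond
    by_cases hT : 3 ≤ ((nbr r W a ∪ nbr r W b) \ {a, b}).card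
    · refine step b a hbW ha hba.symm (hr _ _ rab) hcom (fun _ => ⟨_, hT, ?_⟩) ⟨a, ha, has, hba.symm⟩
      intro x hx
      simp only [Finset.mem_sdiff, Finset.mem_union, mem_nbr, Finset.mem_insert,
        Finset.mem_singleton, not_or] at hx
      obtain ⟨h1, h2, h3⟩ := hx
      rcases h1 with h1 | h1
      · exact ⟨h1.1, h2, h3, Or.inl h1.2.2⟩
      · exact ⟨h1.1, h2, h3, Or.inr h1.2.2⟩
    · -- diamond
      have hA2 : 2 ≤ ((nbr r W a).erase b).card := by
        have := Finset.pred_card_le_card_erase (s := nbr r W a) (a := b)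
        omega
      have hB2 : 2 ≤ ((nbr r W b).erase a).card := by
        have := Finset.pred_card_le_card_erase (s := nbr r W b) (a := a)
        omega
      have hAs : (nbr r W a).erase b ⊆ (nbr r W a ∪ nbr r W b) \ {a, b} := by
        intro x hx
        obtain ⟨h1, h2⟩ := Finset.mem_erase.1 hx
        simp only [Finset.mem_sdiff, Finset.mem_union, Finset.mem_insert,
          Finset.mem_singleton, not_or]
        exact ⟨Or.inl h2, (mem_nbr.1 h2).2.1, h1⟩
      have hBs : (nbr r W b).erase a ⊆ (nbr r W a ∪ nbr r W b) \ {a, b} := by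
        intro x hx
        obtain ⟨h1, h2⟩ := Finset.mem_erase.1 hx
        simp only [Finset.mem_sdiff, Finset.mem_union, Finset.mem_insert,
          Finset.mem_singleton, not_or]
        exact ⟨Or.inr h2, h1, (mem_nbr.1 h2).2.1⟩
      have hAe := Finset.eq_of_subset_of_card_le hAs (by omega)
      have hBe := Finset.eq_of_subset_of_card_le hBs (by omega)
      have hcA : ((nbr r W a).erase b).card = 2 := by rw [hAe]; rw [hAe] at hA2; omega
      obtain ⟨p, q, npq, hpq⟩ := Finset.card_eq_two.1 hcA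
      have hBpq : (nbr r W b).erase a = {p, q} := by rw [hBe, ← hAe, hpq]
      have mp : p ∈ (nbr r W a).erase b := by rw [hpq]; simp
      have mq : q ∈ (nbr r W a).erase b := by rw [hpq]; simp
      have mp' : p ∈ (nbr r W b).erase a := by rw [hBpq]; simp
      have mq' : q ∈ (nbr r W b).erase a := by rw [hBpq]; simp
      obtain ⟨p1, p2⟩ := Finset.mem_erase.1 mp
      obtain ⟨q1, q2⟩ := Finset.mem_erase.1 mq
      obtain ⟨p3, p4, p5⟩ := mem_nbr.1 p2
      obtain ⟨q3, q4, q5⟩ := mem_nbr.1 q2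
      obtain ⟨p6, p7⟩ := Finset.mem_erase.1 mp'
      obtain ⟨q6, q7⟩ := Finset.mem_erase.1 mq'
      refine diamond hr h IH hWs ha hbW p3 q3 hba.symm p4.symm q4.symm p1.symm q1.symm npq
        rab p5 q5 (mem_nbr.1 p7).2.2 (mem_nbr.1 q7).2.2 ?_ ?_
      · intro x hx hxa hax
        by_cases hxb : x = b
        · exact Or.inl hxb
        · have : x ∈ (nbr r W a).erase b := Finset.mem_erase.2 ⟨hxb, mem_nbr.2 ⟨hx, hxa, hax⟩⟩
          rw [hpq] at this
          simp only [Finset.mem_insert, Finset.mem_singleton] at this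
          exact Or.inr this
      · intro x hx hxb hbx
        by_cases hxa : x = a
        · exact Or.inl hxa
        · have : x ∈ (nbr r W b).erase a := Finset.mem_erase.2 ⟨hxa, mem_nbr.2 ⟨hx, hxb, hbx⟩⟩
          rw [hBpq] at this
          simp only [Finset.mem_insert, Finset.mem_singleton] at this
          exact Or.inr this
  · -- a common neighbour t of degree three
    push Not at hcom
    obtain ⟨t, ht, hts, htb, hta, rtb, rta, hdt⟩ := hcom
    have hdt3 : (nbr r W t).card = 3 := le_antisymm (by omega) (h t ht hts)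
    have mta : a ∈ nbr r W t := mem_nbr.2 ⟨ha, fun h => hta h.symm, rta⟩
    have mtb : b ∈ nbr r W t := mem_nbr.2 ⟨hbW, fun h => htb h.symm, rtb⟩
    obtain ⟨c, hc, hca, hcb⟩ := exists_three (T := nbr r W t) (by omega) a b
    have hNt : nbr r W t = {a, b, c} := by
      symm
      apply Finset.eq_of_subset_of_card_le
      · intro x hx
        simp only [Finset.mem_insert, Finset.mem_singleton] at hx
        rcases hx with rfl | rfl | rfl
        · exact mta
        · exact mtb
        · exact hc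
      · rw [hdt3, Finset.card_eq_three.2 ⟨a, b, c, hba.symm, hca.symm, hcb.symm, rfl⟩]
    obtain ⟨hcW, hct, rtc⟩ := mem_nbr.1 hc
    have memNt : ∀ x ∈ W, x ≠ t → r t x → x = a ∨ x = b ∨ x = c := by
      intro x h1 h2 h3
      have : x ∈ nbr r W t := mem_nbr.2 ⟨h1, h2, h3⟩
      rw [hNt] at this
      simpa using this
    -- helper: one sided case
    have oneSided : ∀ a' b' : V, a' ∈ W → b' ∈ W → a' ≠ s → b' ≠ s → a' ≠ b' → r a' b' →
        a' ≠ t → b' ≠ t → r t a' → r t b' → c ≠ a' → c ≠ b' →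
        (∀ x ∈ W, x ≠ t → r t x → x = a' ∨ x = b' ∨ x = c) →
        r c a' → ¬ r c b' → K4M r W := by
      intro a b ha hbW has hbs hab rab hta htb rta rtb hca hcb memNt rca rcb
      by_cases hda : 4 ≤ (nbr r W a).card
      · refine step t c ht hcW hct rtc ?_ ?_ ⟨a, ha, has, hta⟩
        · intro v hv hvs hvt hvc rvt rvc
          rcases memNt v hv hvt (hr _ _ rvt) with rfl | rfl | rfl
          · exact hda
          · exact absurd (hr _ _ rvc) rcb
          · exact absurd rfl hvc
        · intro hcs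
          refine ⟨insert b ((nbr r W c).erase t), ?_, ?_⟩
          · rw [Finset.card_insert_of_notMem]
            · have := Finset.pred_card_le_card_erase (s := nbr r W c) (a := t)
              have := h c hcW hcs
              omega
            · intro hh
              exact rcb (mem_nbr.1 (Finset.mem_of_mem_erase hh)).2.2
          · intro x hx
            rcases Finset.mem_insert.1 hx with rfl | hx
            · exact ⟨hbW, hcb.symm, htb, Or.inr rtb⟩
            · obtain ⟨g1, g2⟩ := Finset.mem_erase.1 hx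
              obtain ⟨g3, g4, g5⟩ := mem_nbr.1 g2
              exact ⟨g3, g4, g1, Or.inl g5⟩
      · -- diamond on a, t
        have hda3 : (nbr r W a).card = 3 := le_antisymm (by omega) (h a ha has)
        have hNa : nbr r W a = {t, b, c} := by
          symm
          apply Finset.eq_of_subset_of_card_le
          · intro x hx
            simp only [Finset.mem_insert, Finset.mem_singleton] at hx
            rcases hx with rfl | rfl | rfl
            · exact mem_nbr.2 ⟨ht, hta.symm, hr _ _ rta⟩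
            · exact mem_nbr.2 ⟨hbW, hab.symm, rab⟩
            · exact mem_nbr.2 ⟨hcW, hca, hr _ _ rca⟩
          · rw [hda3, Finset.card_eq_three.2 ⟨t, b, c, htb.symm, hct.symm, hcb.symm, rfl⟩]
        refine diamond hr h IH hWs ha ht hbW hcW hta hab hca.symm htb.symm hct.symm hcb.symm
          (hr _ _ rta) rab (hr _ _ rca) rtb rtc ?_ ?_
        · intro x h1 h2 h3
          have : x ∈ nbr r W a := mem_nbr.2 ⟨h1, h2, h3⟩
          rw [hNa] at this
          simpa using this
        · exact memNt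
    by_cases rca : r c a
    · by_cases rcb : r c b
      · -- K4 on a, b, t, c
        refine K4M_of_triangle hr ha hbW ht (Q := {c}) (by simpa using hcW) (conn_singleton r c)
          rab (hr _ _ rta) (hr _ _ rtb) hba.symm (fun h => hta h.symm) (fun h => htb h.symm)
          (by simpa using hca.symm) (by simpa using hcb.symm) (by simpa using hct.symm)
          ⟨c, by simp, hr _ _ rca⟩ ⟨c, by simp, hr _ _ rcb⟩ ⟨c, by simp, rtc⟩
      · exact oneSided a b ha hbW has hbs hba.symm rab (fun h => hta h.symm)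
          (fun h => htb h.symm) rta rtb hca hcb memNt rca rcb
    · by_cases rcb : r c b
      · refine oneSided b a hbW ha hbs has hba (hr _ _ rab) (fun h => htb h.symm)
          (fun h => hta h.symm) rtb rta hcb hca ?_ rcb rca
        intro x h1 h2 h3
        rcases memNt x h1 h2 h3 with h | h | h
        · exact Or.inr (Or.inl h)
        · exact Or.inl h
        · exact Or.inr (Or.inr h)
      · -- contract t into c
        refine step t c ht hcW hct rtc ?_ ?_ ⟨a, ha, has, fun h => hta h.symm⟩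
        · intro v hv hvs hvt hvc rvt rvc
          rcases memNt v hv hvt (hr _ _ rvt) with rfl | rfl | rfl
          · exact absurd (hr _ _ rvc) rca
          · exact absurd (hr _ _ rvc) rcb
          · exact absurd rfl hvc
        · intro hcs
          refine ⟨insert b ((nbr r W c).erase t), ?_, ?_⟩
          · rw [Finset.card_insert_of_notMem]
            · have := Finset.pred_card_le_card_erase (s := nbr r W c) (a := t)
              have := h c hcW hcs
              omega
            · intro hh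
              exact rcb (mem_nbr.1 (Finset.mem_of_mem_erase hh)).2.2
          · intro x hx
            rcases Finset.mem_insert.1 hx with rfl | hx
            · exact ⟨hbW, hcb.symm, fun h => htb h.symm, Or.inr rtb⟩
            · obtain ⟨g1, g2⟩ := Finset.mem_erase.1 hx
              obtain ⟨g3, g4, g5⟩ := mem_nbr.1 g2
              exact ⟨g3, g4, g1, Or.inl g5⟩

end PCF
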