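import Pool.Agent.MP_997fa2_co.Star
import Pool.Agent.MP_997fa2_co.Minor

/-!
# Multigraphs whose edges are threads

The induction behind the main theorem runs over finite multisets of edges, where every edge
carries the list of colour lists of the suppressed vertices on it.
-/

namespace PCF

set_option linter.unusedSectionVars false

/-- An edge from `p` to `q` carrying suppressed vertices with lists `l`. -/
structure E (V C : Type*) where
  /-- first end -/
  p : V
  /-- second end -/
  q : V
  /-- the lists of the suppressed vertices, read from `p` to `q` -/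
  l : List (Finset C)

variable {V C : Type*} [DecidableEq V] [DecidableEq C]

/-- The same edge, read backwards. -/
def E.flip (e : E V C) : E V C := ⟨e.q, e.p, e.l.reverse⟩

/-- contribution of an edge to the degree -/
def w1 (e : E V C) (v : V) : ℕ := (if e.p = v then 1 else 0) + (if e.q = v then 1 else 0)

/-- degree of a vertex -/
def deg (es : Multiset (E V C)) (v : V) : ℕ := (es.map (fun e => w1 e v)).sum

/-- how often `v` sees the colour `c` along a decorated edge -/
def w2 (d : E V C × C × C) (v : V) (c : C) : ℕ :=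
  (if d.1.p = v ∧ d.2.1 = c then 1 else 0) + (if d.1.q = v ∧ d.2.2 = c then 1 else 0)

/-- how often `v` sees the colour `c` -/
def cnt (D : Multiset (E V C × C × C)) (v : V) (c : C) : ℕ := (D.map (fun d => w2 d v c)).sum

/-- A decorated edge is filled in correctly. -/
def Good (φ : V → C) (d : E V C × C × C) : Prop := Thr d.1.l (φ d.1.p) d.2.1 d.2.2 (φ d.1.q)

/-- Solutions of the multigraph colouring problem. -/
def Sol (W : Finset V) (L : V → Finset C) (es : Multiset (E V C)) : Prop :=
  ∃ φ : V → C, (∀ v ∈ W, φ v ∈ L v) ∧ ∃ D : Multiset (E V C × C × C),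
    D.map Prod.fst = es ∧ (∀ d ∈ D, Good φ d) ∧ ∀ v ∈ W, deg es v ≠ 0 → ∃ c, cnt D v c = 1

/-- adjacency -/
def adj (es : Multiset (E V C)) (x y : V) : Prop :=
  ∃ e ∈ es, (e.p = x ∧ e.q = y) ∨ (e.p = y ∧ e.q = x)

/-- a direct edge between `x` and `y` -/
def Dir (x y : V) (e : E V C) : Prop := e.l = [] ∧ ((e.p = x ∧ e.q = y) ∨ (e.p = y ∧ e.q = x))

/-- A vertex set closed under the edges. -/
def Closed (es : Multiset (E V C)) (S : Finset V) : Prop := ∀ e ∈ es, (e.p ∈ S ↔ e.q ∈ S)

/-- number of vertices in `S` together with those suppressed on edges in `S` -/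
def wt (es : Multiset (E V C)) (S : Finset V) : ℕ :=
  S.card + (es.map (fun e => if e.p ∈ S then e.l.length else 0)).sum

/-- a vertex at which there is room -/
def Spec (L : V → Finset C) (es : Multiset (E V C)) (v : V) : Prop :=
  deg es v ≠ 2 ∨ deg es v + 3 ≤ (L v).card

open Classical in
/-- The induction hypothesis. -/
structure Inv (W : Finset V) (L : V → Finset C) (es : Multiset (E V C)) : Prop where
  ends : ∀ e ∈ es, e.p ∈ W ∧ e.q ∈ W
  big : ∀ e ∈ es, ∀ A ∈ e.l, 4 ≤ A.card
  loops : ∀ e ∈ es, e.p = e.q → 2 ≤ e.l.length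
  simple : ∀ x y, x ≠ y → es.countP (Dir x y) ≤ 1
  lists : ∀ v ∈ W, deg es v + 2 ≤ (L v).card
  nomin : ¬ K4M (adj es) W
  five : ∀ S ⊆ W, S.Nonempty → Closed es S → (∃ v ∈ S, Spec L es v) ∨ wt es S ≠ 5

/-! ### Basic computations -/

theorem deg_cons (e : E V C) (es : Multiset (E V C)) (v : V) :
    deg (e ::ₘ es) v = w1 e v + deg es v := by simp [deg]

theorem deg_add (es es' : Multiset (E V C)) (v : V) :
    deg (es + es') v = deg es v + deg es' v := by simp [deg]

theorem deg_zero (v : V) : deg (0 : Multiset (E V C)) v = 0 := by simp [deg]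

theorem cnt_cons (d : E V C × C × C) (D : Multiset (E V C × C × C)) (v : V) (c : C) :
    cnt (d ::ₘ D) v c = w2 d v c + cnt D v c := by simp [cnt]

theorem cnt_add (D D' : Multiset (E V C × C × C)) (v : V) (c : C) :
    cnt (D + D') v c = cnt D v c + cnt D' v c := by simp [cnt]

theorem w2_le_w1 (d : E V C × C × C) (v : V) (c : C) : w2 d v c ≤ w1 d.1 v := by
  unfold w2 w1
  split_ifs <;> simp_all

theorem cnt_le_deg (D : Multiset (E V C × C × C)) (v : V) (c : C) :
    cnt D v c ≤ deg (D.map Prod.fst) v := by
  induction D using Multiset.induction_on with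
  | empty => simp [cnt, deg]
  | cons d D ih =>
    rw [Multiset.map_cons, deg_cons, cnt_cons]
    exact Nat.add_le_add (w2_le_w1 d v c) ih

theorem not_mem_of_deg_zero {es : Multiset (E V C)} {v : V} (h : deg es v = 0) :
    ∀ e ∈ es, e.p ≠ v ∧ e.q ≠ v := by
  intro e he
  obtain ⟨es', rfl⟩ := Multiset.exists_cons_of_mem he
  rw [deg_cons] at h
  unfold w1 at h
  constructor
  · intro h'
    rw [if_pos h'] at h
    omega
  · intro h'
    rw [if_pos h'] at h
    omega

theorem deg_zero_of {es : Multiset (E V C)} {v : V} (h : ∀ e ∈ es, e.p ≠ v ∧ e.q ≠ v) :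
    deg es v = 0 := by
  induction es using Multiset.induction_on with
  | empty => exact deg_zero v
  | cons e es ih =>
    rw [deg_cons, ih (fun f hf => h f (Multiset.mem_cons_of_mem hf))]
    obtain ⟨h1, h2⟩ := h e (Multiset.mem_cons_self e es)
    simp [w1, h1, h2]

theorem adj_symm {es : Multiset (E V C)} {x y : V} (h : adj es x y) : adj es y x := by
  obtain ⟨e, he, h | h⟩ := h
  · exact ⟨e, he, Or.inr h⟩
  · exact ⟨e, he, Or.inl h⟩

theorem adj_mono {es es' : Multiset (E V C)} (h : es' ≤ es) {x y : V} (hxy : adj es' x y) :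
    adj es x y := by
  obtain ⟨e, he, h'⟩ := hxy
  exact ⟨e, Multiset.mem_of_le h he, h'⟩

theorem w1_flip (e : E V C) (v : V) : w1 e.flip v = w1 e v :=
  Nat.add_comm _ _

theorem pull {D : Multiset (E V C × C × C)} {e : E V C} {es : Multiset (E V C)}
    (h : D.map Prod.fst = e ::ₘ es) :
    ∃ s t D', D = (e, s, t) ::ₘ D' ∧ D'.map Prod.fst = es := by
  classical
  obtain ⟨d, hd, hde, hD⟩ := (Multiset.map_eq_cons Prod.fst D es e).2 h
  obtain ⟨e', s, t⟩ := d
  simp only at hde
  subst hde
  exact ⟨s, t, D.erase _, (Multiset.cons_erase hd).symm, hD⟩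

/-! ### Changing the orientation of edges -/

theorem dir_flip (x y : V) (e : E V C) : Dir x y e.flip ↔ Dir x y e := by
  unfold Dir E.flip
  simp only [List.reverse_eq_nil_iff]
  tauto

theorem adj_flip (e : E V C) (es : Multiset (E V C)) (x y : V) :
    adj (e.flip ::ₘ es) x y ↔ adj (e ::ₘ es) x y := by
  unfold adj
  simp only [Multiset.mem_cons, exists_eq_or_imp, E.flip]
  rw [and_comm (a := e.q = x), and_comm (a := e.q = y), or_comm (a := e.p = y ∧ e.q = x)]

theorem deg_flip (e : E V C) (es : Multiset (E V C)) (x : V) :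
    deg (e.flip ::ₘ es) x = deg (e ::ₘ es) x := by
  rw [deg_cons, deg_cons, w1_flip]

theorem Inv.flip {W : Finset V} {L : V → Finset C} {e : E V C} {es : Multiset (E V C)}
    (h : Inv W L (e ::ₘ es)) : Inv W L (e.flip ::ₘ es) := by
  classical
  constructor
  · intro f hf
    rcases Multiset.mem_cons.1 hf with rfl | hf
    · exact (h.ends e (Multiset.mem_cons_self _ _)).symm
    · exact h.ends f (Multiset.mem_cons_of_mem hf)
  · intro f hf
    rcases Multiset.mem_cons.1 hf with rfl | hf
    · intro A hA
      exact h.big e (Multiset.mem_cons_self _ _) A (by simpa [E.flip] using hA)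
    · exact h.big f (Multiset.mem_cons_of_mem hf)
  · intro f hf
    rcases Multiset.mem_cons.1 hf with rfl | hf
    · intro h'
      simpa [E.flip] using h.loops e (Multiset.mem_cons_self _ _) h'.symm
    · exact h.loops f (Multiset.mem_cons_of_mem hf)
  · intro x y hxy
    refine le_trans (le_of_eq ?_) (h.simple x y hxy)
    rw [Multiset.countP_cons, Multiset.countP_cons]
    simp only [dir_flip]
  · intro v hv
    rw [deg_flip]
    exact h.lists v hv
  · intro hK
    exact h.nomin (hK.mono (Finset.Subset.refl _) (fun x y _ hxy => (adj_flip e es x y).1 hxy))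
  · intro S hS hne hcl
    have hcl' : Closed (e ::ₘ es) S := by
      intro f hf
      rcases Multiset.mem_cons.1 hf with rfl | hf
      · exact (hcl f.flip (Multiset.mem_cons_self _ _)).symm
      · exact hcl f (Multiset.mem_cons_of_mem hf)
    have hw : wt (e.flip ::ₘ es) S = wt (e ::ₘ es) S := by
      unfold wt
      rw [Multiset.map_cons, Multiset.map_cons, Multiset.sum_cons, Multiset.sum_cons]
      have h1 := hcl' e (Multiset.mem_cons_self _ _)
      simp only [E.flip, List.length_reverse]
      by_cases hp : e.p ∈ S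
      · rw [if_pos hp, if_pos (h1.1 hp)]
      · rw [if_neg hp, if_neg (fun hq => hp (h1.2 hq))]
    rw [hw]
    rcases h.five S hS hne hcl' with ⟨v, hv, hs⟩ | h2
    · left
      refine ⟨v, hv, ?_⟩
      unfold Spec at hs ⊢
      rwa [deg_flip]
    · exact Or.inr h2

theorem Sol.flip {W : Finset V} {L : V → Finset C} {e : E V C} {es : Multiset (E V C)}
    (h : Sol W L (e.flip ::ₘ es)) : Sol W L (e ::ₘ es) := by
  obtain ⟨φ, h1, D, h2, h3, h4⟩ := h
  obtain ⟨s, t, D', rfl, h5⟩ := pull h2
  refine ⟨φ, h1, (e, t, s) ::ₘ D', ?_, ?_, ?_⟩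
  · rw [Multiset.map_cons, h5]
  · intro d hd
    rcases Multiset.mem_cons.1 hd with rfl | hd
    · have := h3 _ (Multiset.mem_cons_self _ _)
      unfold Good at this ⊢
      exact (thr_reverse _ _ _ _ _).1 this
    · exact h3 d (Multiset.mem_cons_of_mem hd)
  · intro v hv hd
    rw [← deg_flip] at hd
    obtain ⟨c, hc⟩ := h4 v hv hd
    refine ⟨c, ?_⟩
    rw [cnt_cons] at hc ⊢
    rw [← hc]
    congr 1
    exact Nat.add_comm _ _

theorem Inv.flips {W : Finset V} {L : V → Finset C} (f : E V C → E V C)
    (hf : ∀ e, f e = e ∨ f e = e.flip) (es es' : Multiset (E V C))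
    (h : Inv W L (es + es')) : Inv W L (es.map f + es') := by
  induction es using Multiset.induction_on generalizing es' with
  | empty => simpa using h
  | cons e es ih =>
    rw [Multiset.map_cons, Multiset.cons_add, ← Multiset.add_cons]
    apply ih
    rw [Multiset.add_cons]
    rw [Multiset.cons_add] at h
    rcases hf e with h' | h'
    · rw [h']; exact h
    · rw [h']; exact h.flip

theorem Sol.flips {W : Finset V} {L : V → Finset C} (f : E V C → E V C)
    (hf : ∀ e, f e = e ∨ f e = e.flip) (es es' : Multiset (E V C))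
    (h : Sol W L (es.map f + es')) : Sol W L (es + es') := by
  induction es using Multiset.induction_on generalizing es' with
  | empty => simpa using h
  | cons e es ih =>
    rw [Multiset.map_cons, Multiset.cons_add, ← Multiset.add_cons] at h
    have := ih _ h
    rw [Multiset.add_cons] at this
    rw [Multiset.cons_add]
    rcases hf e with h' | h'
    · rwa [h'] at this
    · rw [h'] at this; exact this.flip

/-! ### Removing edges -/

theorem Inv.sub {W W' : Finset V} {L L' : V → Finset C} {es es' : Multiset (E V C)}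
    (h : Inv W L es) (hW : W' ⊆ W) (hle : es' ≤ es) (hends : ∀ e ∈ es', e.p ∈ W' ∧ e.q ∈ W')
    (hl : ∀ v ∈ W', deg es' v + 2 ≤ (L' v).card)
    (h5 : ∀ S ⊆ W', S.Nonempty → Closed es' S → (∃ v ∈ S, Spec L' es' v) ∨ wt es' S ≠ 5) :
    Inv W' L' es' := by
  classical
  exact {
    ends := hends
    big := fun e he => h.big e (Multiset.mem_of_le hle he)
    loops := fun e he => h.loops e (Multiset.mem_of_le hle he)
    simple := fun x y hxy => le_trans (Multiset.countP_le_of_le _ hle) (h.simple x y hxy)
    lists := hl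
    nomin := fun hK => h.nomin (hK.mono hW (fun x y _ hxy => adj_mono hle hxy))
    five := h5 }

/-- If the removed edges do not touch `S`, nothing changes on `S`. -/
theorem Inv.five_rest {W : Finset V} {L L' : V → Finset C} {es₁ es' : Multiset (E V C)}
    (h : Inv W L (es₁ + es')) {S : Finset V} (hS : S ⊆ W) (hne : S.Nonempty)
    (hcl : Closed es' S) (hL : ∀ v ∈ S, L' v = L v) (h1 : ∀ e ∈ es₁, e.p ∉ S ∧ e.q ∉ S) :
    (∃ v ∈ S, Spec L' es' v) ∨ wt es' S ≠ 5 := by
  have hcl' : Closed (es₁ + es') S := by
    intro e he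
    rcases Multiset.mem_add.1 he with he | he
    · exact ⟨fun hp => absurd hp (h1 e he).1, fun hq => absurd hq (h1 e he).2⟩
    · exact hcl e he
  have hw : wt (es₁ + es') S = wt es' S := by
    unfold wt
    rw [Multiset.map_add, Multiset.sum_add]
    have : (es₁.map (fun e => if e.p ∈ S then e.l.length else 0)).sum = 0 := by
      rw [Multiset.sum_eq_zero]
      intro x hx
      obtain ⟨e, he, rfl⟩ := Multiset.mem_map.1 hx
      rw [if_neg (h1 e he).1]
    rw [this, zero_add]
  have hdeg : ∀ v ∈ S, deg (es₁ + es') v = deg es' v := by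
    intro v hv
    rw [deg_add, deg_zero_of, zero_add]
    intro e he
    exact ⟨fun hh => (h1 e he).1 (hh ▸ hv), fun hh => (h1 e he).2 (hh ▸ hv)⟩
  rcases h.five S hS hne hcl' with ⟨v, hv, hs⟩ | h2
  · left
    refine ⟨v, hv, ?_⟩
    unfold Spec at hs ⊢
    rw [hdeg v hv] at hs
    rw [hL v hv]
    exact hs
  · right; rwa [hw] at h2

/-! ### Reduction steps -/

theorem good_update {φ : V → C} {u : V} {a : C} {d : E V C × C × C} (h1 : d.1.p ≠ u)
    (h2 : d.1.q ≠ u) (h : Good φ d) : Good (Function.update φ u a) d := by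
  unfold Good at *
  rwa [Function.update_of_ne h1, Function.update_of_ne h2]

theorem w2_of_ne {d : E V C × C × C} {v : V} (h1 : d.1.p ≠ v) (h2 : d.1.q ≠ v) (c : C) :
    w2 d v c = 0 := by
  simp [w2, h1, h2]

theorem cnt_zero_of_deg {D : Multiset (E V C × C × C)} {es : Multiset (E V C)} {v : V}
    (hD : D.map Prod.fst = es) (h : deg es v = 0) (c : C) : cnt D v c = 0 := by
  have := cnt_le_deg D v c
  rw [hD, h] at this
  omega

theorem mem_of_map {D : Multiset (E V C × C × C)} {es : Multiset (E V C)}
    (hD : D.map Prod.fst = es) {d} (hd : d ∈ D) : d.1 ∈ es := by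
  rw [← hD]; exact Multiset.mem_map_of_mem _ hd

/-- isolated vertex -/
theorem step_iso {W : Finset V} {L : V → Finset C} {es : Multiset (E V C)} (h : Inv W L es)
    {u : V} (hu : u ∈ W) (hd : deg es u = 0) :
    Inv (W.erase u) L es ∧ (Sol (W.erase u) L es → Sol W L es) := by
  have hn := not_mem_of_deg_zero hd
  constructor
  · refine h.sub (Finset.erase_subset _ _) le_rfl ?_ ?_ ?_
    · intro e he
      obtain ⟨h1, h2⟩ := h.ends e he
      exact ⟨Finset.mem_erase.2 ⟨(hn e he).1, h1⟩, Finset.mem_erase.2 ⟨(hn e he).2, h2⟩⟩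
    · exact fun v hv => h.lists v (Finset.mem_of_mem_erase hv)
    · exact fun S hS hne hcl => h.five S (hS.trans (Finset.erase_subset _ _)) hne hcl
  · rintro ⟨φ, h1, D, h2, h3, h4⟩
    have hL := h.lists u hu
    obtain ⟨a, ha⟩ : (L u).Nonempty := Finset.card_pos.1 (by omega)
    refine ⟨Function.update φ u a, ?_, D, h2, ?_, ?_⟩
    · intro v hv
      by_cases hvu : v = u
      · subst hvu; simpa using ha
      · rw [Function.update_of_ne hvu]; exact h1 v (Finset.mem_erase.2 ⟨hvu, hv⟩)
    · intro d hdD
      obtain ⟨g1, g2⟩ := hn d.1 (mem_of_map h2 hdD)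
      exact good_update g1 g2 (h3 d hdD)
    · intro v hv hdv
      have hvu : v ≠ u := fun h => hdv (h ▸ hd)
      exact h4 v (Finset.mem_erase.2 ⟨hvu, hv⟩) hdv

/-- vertex of degree one -/
theorem step_leaf {W : Finset V} {L : V → Finset C} {e : E V C} {es : Multiset (E V C)}
    (h : Inv W L (e ::ₘ es)) (hne : e.q ≠ e.p) (hd : deg es e.p = 0) :
    Inv (W.erase e.p) L es ∧ (Sol (W.erase e.p) L es → Sol W L (e ::ₘ es)) := by
  have hn := not_mem_of_deg_zero hd
  have hu := (h.ends e (Multiset.mem_cons_self _ _)).1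
  have hq := (h.ends e (Multiset.mem_cons_self _ _)).2
  have hle : es ≤ e ::ₘ es := Multiset.le_cons_self _ _
  have hdp : deg (e ::ₘ es) e.p = 1 := by
    rw [deg_cons, hd]; simp [w1, hne]
  have hdq : deg (e ::ₘ es) e.q = 1 + deg es e.q := by
    rw [deg_cons]; simp [w1, hne.symm]
  constructor
  · refine h.sub (Finset.erase_subset _ _) hle ?_ ?_ ?_
    · intro f hf
      obtain ⟨h1, h2⟩ := h.ends f (Multiset.mem_cons_of_mem hf)
      exact ⟨Finset.mem_erase.2 ⟨(hn f hf).1, h1⟩, Finset.mem_erase.2 ⟨(hn f hf).2, h2⟩⟩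
    · intro v hv
      have h1 := h.lists v (Finset.mem_of_mem_erase hv)
      rw [deg_cons] at h1
      omega
    · intro S hS hSne hcl
      by_cases hqS : e.q ∈ S
      · left
        refine ⟨e.q, hqS, Or.inr ?_⟩
        have h1 := h.lists e.q hq
        omega
      · refine Inv.five_rest (es₁ := {e}) (L := L) (by simpa using h)
          (hS.trans (Finset.erase_subset _ _)) hSne hcl (fun _ _ => rfl) ?_
        intro f hf
        rw [Multiset.mem_singleton] at hf
        subst hf
        refine ⟨fun hp => ?_, hqS⟩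
        exact (Finset.mem_erase.1 (hS hp)).1 rfl
  · rintro ⟨φ, h1, D, h2, h3, h4⟩
    have hL := h.lists e.p hu
    obtain ⟨c, hc⟩ : ∃ c, deg es e.q ≠ 0 → cnt D e.q c = 1 := by
      by_cases h0 : deg es e.q = 0
      · exact ⟨φ e.q, fun h' => absurd h0 h'⟩
      · obtain ⟨c, hc⟩ := h4 e.q (Finset.mem_erase.2 ⟨hne, hq⟩) h0
        exact ⟨c, fun _ => hc⟩
    obtain ⟨a, ha, s, t, hthr, htc⟩ := leaf e.l (h.big e (Multiset.mem_cons_self _ _)) (L e.p)
      (by omega) (φ e.q) c
    refine ⟨Function.update φ e.p a, ?_, (e, s, t) ::ₘ D, by rw [Multiset.map_cons, h2], ?_, ?_⟩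
    · intro v hv
      by_cases hvu : v = e.p
      · subst hvu; simpa using ha
      · rw [Function.update_of_ne hvu]; exact h1 v (Finset.mem_erase.2 ⟨hvu, hv⟩)
    · intro d hdD
      rcases Multiset.mem_cons.1 hdD with rfl | hdD
      · unfold Good
        simp only [Function.update_self, Function.update_of_ne hne]
        exact hthr
      · obtain ⟨g1, g2⟩ := hn d.1 (mem_of_map h2 hdD)
        exact good_update g1 g2 (h3 d hdD)
    · intro v hv hdv
      by_cases hvp : v = e.p
      · subst hvp
        refine ⟨s, ?_⟩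
        rw [cnt_cons, cnt_zero_of_deg h2 hd]
        simp [w2, hne]
      · by_cases hvq : v = e.q
        · subst hvq
          by_cases h0 : deg es e.q = 0
          · refine ⟨t, ?_⟩
            rw [cnt_cons, cnt_zero_of_deg h2 h0]
            simp [w2, hne.symm]
          · refine ⟨c, ?_⟩
            rw [cnt_cons, hc h0]
            simp [w2, hne.symm, htc]
        · have hdv' : deg es v ≠ 0 := by
            rw [deg_cons] at hdv
            simpa [w1, Ne.symm hvp, Ne.symm hvq] using hdv
          obtain ⟨c', hc'⟩ := h4 v (Finset.mem_erase.2 ⟨hvp, hv⟩) hdv'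
          refine ⟨c', ?_⟩
          rw [cnt_cons, hc']
          simp [w2, Ne.symm hvp, Ne.symm hvq]

/-- a loop at a vertex that has other edges -/
theorem step_loop {W : Finset V} {L : V → Finset C} {e : E V C} {es : Multiset (E V C)}
    (h : Inv W L (e ::ₘ es)) (hpq : e.q = e.p) (hd : deg es e.p ≠ 0) :
    Inv W L es ∧ (Sol W L es → Sol W L (e ::ₘ es)) := by
  have hu := (h.ends e (Multiset.mem_cons_self _ _)).1
  have hle : es ≤ e ::ₘ es := Multiset.le_cons_self _ _
  have hdp : deg (e ::ₘ es) e.p = 2 + deg es e.p := by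
    rw [deg_cons]; simp [w1, hpq]
  constructor
  · refine h.sub (Finset.Subset.refl _) hle ?_ ?_ ?_
    · intro f hf
      exact h.ends f (Multiset.mem_cons_of_mem hf)
    · intro v hv
      have h1 := h.lists v hv
      rw [deg_cons] at h1
      omega
    · intro S hS hSne hcl
      by_cases hpS : e.p ∈ S
      · left
        refine ⟨e.p, hpS, Or.inr ?_⟩
        have h1 := h.lists e.p hu
        omega
      · refine Inv.five_rest (es₁ := {e}) (L := L) (by simpa using h) hS hSne hcl
          (fun _ _ => rfl) ?_
        intro f hf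
        rw [Multiset.mem_singleton] at hf
        subst hf
        exact ⟨hpS, hpq ▸ hpS⟩
  · rintro ⟨φ, h1, D, h2, h3, h4⟩
    obtain ⟨c, hc⟩ := h4 e.p hu hd
    obtain ⟨s, t, hthr, hsc, htc⟩ := loop e.l (h.loops e (Multiset.mem_cons_self _ _) hpq.symm)
      (h.big e (Multiset.mem_cons_self _ _)) (φ e.p) c
    refine ⟨φ, h1, (e, s, t) ::ₘ D, by rw [Multiset.map_cons, h2], ?_, ?_⟩
    · intro d hdD
      rcases Multiset.mem_cons.1 hdD with rfl | hdD
      · unfold Good
        simp only [hpq]
        exact hthr
      · exact h3 d hdD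
    · intro v hv hdv
      by_cases hvp : v = e.p
      · subst hvp
        refine ⟨c, ?_⟩
        rw [cnt_cons, hc]
        simp [w2, hsc, htc]
      · have hdv' : deg es v ≠ 0 := by
          rw [deg_cons] at hdv
          simpa [w1, hpq, Ne.symm hvp] using hdv
        obtain ⟨c', hc'⟩ := h4 v hv hdv'
        refine ⟨c', ?_⟩
        rw [cnt_cons, hc']
        simp [w2, hpq, Ne.symm hvp]

/-- a component consisting of a single loop -/
theorem step_cyc {W : Finset V} {L : V → Finset C} {e : E V C} {es : Multiset (E V C)}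
    (h : Inv W L (e ::ₘ es)) (hpq : e.q = e.p) (hd : deg es e.p = 0) :
    Inv (W.erase e.p) L es ∧ (Sol (W.erase e.p) L es → Sol W L (e ::ₘ es)) := by
  have hn := not_mem_of_deg_zero hd
  have hu := (h.ends e (Multiset.mem_cons_self _ _)).1
  have hle : es ≤ e ::ₘ es := Multiset.le_cons_self _ _
  have hdp : deg (e ::ₘ es) e.p = 2 := by
    rw [deg_cons, hd]; simp [w1, hpq]
  constructor
  · refine h.sub (Finset.erase_subset _ _) hle ?_ ?_ ?_
    · intro f hf
      obtain ⟨h1, h2⟩ := h.ends f (Multiset.mem_cons_of_mem hf)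
      exact ⟨Finset.mem_erase.2 ⟨(hn f hf).1, h1⟩, Finset.mem_erase.2 ⟨(hn f hf).2, h2⟩⟩
    · intro v hv
      have h1 := h.lists v (Finset.mem_of_mem_erase hv)
      rw [deg_cons] at h1
      omega
    · intro S hS hSne hcl
      have hpS : e.p ∉ S := fun hp => (Finset.mem_erase.1 (hS hp)).1 rfl
      refine Inv.five_rest (es₁ := {e}) (L := L) (by simpa using h)
        (hS.trans (Finset.erase_subset _ _)) hSne hcl (fun _ _ => rfl) ?_
      intro f hf
      rw [Multiset.mem_singleton] at hf
      subst hf
      exact ⟨hpS, hpq ▸ hpS⟩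
  · rintro ⟨φ, h1, D, h2, h3, h4⟩
    have hL := h.lists e.p hu
    have hcase : 5 ≤ (L e.p).card ∨ e.l.length ≠ 4 := by
      have hcl : Closed (e ::ₘ es) {e.p} := by
        intro f hf
        rcases Multiset.mem_cons.1 hf with rfl | hf
        · simp [hpq]
        · simp [(hn f hf).1, (hn f hf).2]
      rcases h.five {e.p} (by simpa using hu) ⟨e.p, by simp⟩ hcl with ⟨v, hv, hs⟩ | h5
      · rw [Finset.mem_singleton] at hv
        subst hv
        left
        rcases hs with hs | hs
        · exact absurd hdp hs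
        · omega
      · right
        intro h'
        apply h5
        unfold wt
        rw [Multiset.map_cons, Multiset.sum_cons, Multiset.sum_eq_zero]
        · simp [h']
        · intro x hx
          obtain ⟨f, hf, rfl⟩ := Multiset.mem_map.1 hx
          simp [(hn f hf).1]
    obtain ⟨a, ha, s, t, hthr, hst⟩ := cyc e.l (h.loops e (Multiset.mem_cons_self _ _) hpq.symm)
      (h.big e (Multiset.mem_cons_self _ _)) (L e.p) (by omega) hcase
    refine ⟨Function.update φ e.p a, ?_, (e, s, t) ::ₘ D, by rw [Multiset.map_cons, h2], ?_, ?_⟩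
    · intro v hv
      by_cases hvu : v = e.p
      · subst hvu; simpa using ha
      · rw [Function.update_of_ne hvu]; exact h1 v (Finset.mem_erase.2 ⟨hvu, hv⟩)
    · intro d hdD
      rcases Multiset.mem_cons.1 hdD with rfl | hdD
      · unfold Good
        simp only [hpq, Function.update_self]
        exact hthr
      · obtain ⟨g1, g2⟩ := hn d.1 (mem_of_map h2 hdD)
        exact good_update g1 g2 (h3 d hdD)
    · intro v hv hdv
      by_cases hvp : v = e.p
      · subst hvp
        refine ⟨s, ?_⟩
        rw [cnt_cons, cnt_zero_of_deg h2 hd]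
        simp [w2, hst.symm]
      · have hdv' : deg es v ≠ 0 := by
          rw [deg_cons] at hdv
          simpa [w1, hpq, Ne.symm hvp] using hdv
        obtain ⟨c', hc'⟩ := h4 v (Finset.mem_erase.2 ⟨hvp, hv⟩) hdv'
        refine ⟨c', ?_⟩
        rw [cnt_cons, hc']
        simp [w2, hpq, Ne.symm hvp]

/-- suppressing a vertex of degree two -/
theorem step_supp {W : Finset V} {L : V → Finset C} {e f : E V C} {es : Multiset (E V C)}
    {w : V} (h : Inv W L (e ::ₘ f ::ₘ es)) (heq : e.q = w) (hfp : f.p = w) (hep : e.p ≠ w)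
    (hfq : f.q ≠ w) (hd : deg es w = 0)
    (hsp : (L w).card ≤ 4 ∨ Spec L (e ::ₘ f ::ₘ es) e.p) :
    Inv (W.erase w) L (⟨e.p, f.q, e.l ++ L w :: f.l⟩ ::ₘ es) ∧
    (Sol (W.erase w) L (⟨e.p, f.q, e.l ++ L w :: f.l⟩ ::ₘ es) →
      Sol W L (e ::ₘ f ::ₘ es)) := by
  classical
  have hn := not_mem_of_deg_zero hd
  obtain ⟨heW, hwW⟩ := h.ends e (Multiset.mem_cons_self _ _)
  rw [heq] at hwW
  have hfW := (h.ends f (Multiset.mem_cons_of_mem (Multiset.mem_cons_self _ _))).2
  have hdw : deg (e ::ₘ f ::ₘ es) w = 2 := by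
    rw [deg_cons, deg_cons, hd]; simp [w1, heq, hfp, hep, hfq]
  have hLw := h.lists w hwW
  have hdeg : ∀ v, v ≠ w → deg (⟨e.p, f.q, e.l ++ L w :: f.l⟩ ::ₘ es) v =
      deg (e ::ₘ f ::ₘ es) v := by
    intro v hv
    rw [deg_cons, deg_cons, deg_cons]
    simp only [w1, heq, hfp, if_neg hv.symm]
    omega
  have hmem : ∀ g ∈ es, g ∈ e ::ₘ f ::ₘ es := fun g hg =>
    Multiset.mem_cons_of_mem (Multiset.mem_cons_of_mem hg)
  constructor
  · constructor
    · intro g hg
      rcases Multiset.mem_cons.1 hg with rfl | hg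
      · exact ⟨Finset.mem_erase.2 ⟨hep, heW⟩, Finset.mem_erase.2 ⟨hfq, hfW⟩⟩
      · obtain ⟨h1, h2⟩ := h.ends g (hmem g hg)
        exact ⟨Finset.mem_erase.2 ⟨(hn g hg).1, h1⟩, Finset.mem_erase.2 ⟨(hn g hg).2, h2⟩⟩
    · intro g hg
      rcases Multiset.mem_cons.1 hg with rfl | hg
      · intro A hA
        simp only [List.mem_append, List.mem_cons] at hA
        rcases hA with hA | hA | hA
        · exact h.big e (Multiset.mem_cons_self _ _) A hA
        · subst hA; omega
        · exact h.big f (Multiset.mem_cons_of_mem (Multiset.mem_cons_self _ _)) A hA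
      · exact h.big g (hmem g hg)
    · intro g hg
      rcases Multiset.mem_cons.1 hg with rfl | hg
      · intro hpq
        simp only at hpq
        simp only [List.length_append, List.length_cons]
        by_contra hlt
        have h1 : e.l = [] := List.eq_nil_of_length_eq_zero (by omega)
        have h2 : f.l = [] := List.eq_nil_of_length_eq_zero (by omega)
        have h3 := h.simple e.p w hep
        rw [Multiset.countP_cons_of_pos, Multiset.countP_cons_of_pos] at h3
        · omega
        · exact ⟨h2, Or.inr ⟨hfp, hpq.symm⟩⟩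
        · exact ⟨h1, Or.inl ⟨rfl, heq⟩⟩
      · exact h.loops g (hmem g hg)
    · intro x y hxy
      rw [Multiset.countP_cons_of_neg]
      · exact le_trans (Multiset.countP_le_of_le _
          ((Multiset.le_cons_self _ _).trans (Multiset.le_cons_self _ _))) (h.simple x y hxy)
      · rintro ⟨h1, _⟩
        simp at h1
    · intro v hv
      rw [hdeg v (Finset.mem_erase.1 hv).1]
      exact h.lists v (Finset.mem_erase.1 hv).2
    · intro hK
      apply h.nomin
      have hwa : adj (e ::ₘ f ::ₘ es) w e.p :=
        ⟨e, Multiset.mem_cons_self _ _, Or.inr ⟨rfl, heq⟩⟩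
      apply K4M.lift (fun x y => adj_symm) hwW hwa
      refine hK.mono (Finset.Subset.refl _) ?_
      intro x y hxy hadj
      obtain ⟨g, hg, hgxy⟩ := hadj
      rcases Multiset.mem_cons.1 hg with rfl | hg
      · simp only at hgxy
        rcases hgxy with ⟨h1, h2⟩ | ⟨h1, h2⟩
        · right; left
          exact ⟨h1.symm, f, Multiset.mem_cons_of_mem (Multiset.mem_cons_self _ _),
            Or.inl ⟨hfp, h2⟩⟩
        · right; right
          exact ⟨h1.symm, f, Multiset.mem_cons_of_mem (Multiset.mem_cons_self _ _),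
            Or.inr ⟨hfp, h2⟩⟩
      · exact Or.inl ⟨g, hmem g hg, hgxy⟩
    · intro S hS hSne hcl
      have hwS : w ∉ S := fun hw => (Finset.mem_erase.1 (hS hw)).1 rfl
      have hSW := hS.trans (Finset.erase_subset _ _)
      have hpq := hcl _ (Multiset.mem_cons_self _ _)
      simp only at hpq
      by_cases hpS : e.p ∈ S
      · have hqS : f.q ∈ S := hpq.1 hpS
        have hcl' : Closed (e ::ₘ f ::ₘ es) (insert w S) := by
          intro g hg
          rcases Multiset.mem_cons.1 hg with rfl | hg
          · simp [heq, hpS]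
          · rcases Multiset.mem_cons.1 hg with rfl | hg
            · simp [hfp, hqS]
            · have h1 := hcl g (Multiset.mem_cons_of_mem hg)
              simp [(hn g hg).1, (hn g hg).2, h1]
        have hins : insert w S ⊆ W := by
          intro x hx
          rcases Finset.mem_insert.1 hx with rfl | hx
          · exact hwW
          · exact hSW hx
        have hwt : wt (e ::ₘ f ::ₘ es) (insert w S) =
            wt (⟨e.p, f.q, e.l ++ L w :: f.l⟩ ::ₘ es) S := by
          unfold wt
          rw [Finset.card_insert_of_notMem hwS]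
          simp only [Multiset.map_cons, Multiset.sum_cons]
          have h1 : (es.map (fun g => if g.p ∈ insert w S then g.l.length else 0)) =
              es.map (fun g => if g.p ∈ S then g.l.length else 0) := by
            apply Multiset.map_congr rfl
            intro g hg
            simp [(hn g hg).1]
          rw [h1]
          simp only [Finset.mem_insert, hpS, hfp, List.length_append, List.length_cons]
          simp only [or_true, if_true, true_or]
          omega
        rcases h.five (insert w S) hins ⟨w, by simp⟩ hcl' with ⟨v, hv, hs⟩ | h5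
        · left
          rcases Finset.mem_insert.1 hv with rfl | hv
          · rcases hs with hs | hs
            · exact absurd hdw hs
            · rcases hsp with hsp | hsp
              · omega
              · refine ⟨e.p, hpS, ?_⟩
                unfold Spec at hsp ⊢
                rw [hdeg _ hep]
                exact hsp
          · refine ⟨v, hv, ?_⟩
            unfold Spec at hs ⊢
            rw [hdeg v (fun hh => hwS (hh ▸ hv))]
            exact hs
        · right; rwa [hwt] at h5
      · have hqS : f.q ∉ S := fun hq => hpS (hpq.2 hq)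
        have hcl' : Closed (e ::ₘ f ::ₘ es) S := by
          intro g hg
          rcases Multiset.mem_cons.1 hg with rfl | hg
          · simp [heq, hpS, hwS]
          · rcases Multiset.mem_cons.1 hg with rfl | hg
            · simp [hfp, hqS, hwS]
            · exact hcl g (Multiset.mem_cons_of_mem hg)
        have hwt : wt (e ::ₘ f ::ₘ es) S =
            wt (⟨e.p, f.q, e.l ++ L w :: f.l⟩ ::ₘ es) S := by
          unfold wt
          simp only [Multiset.map_cons, Multiset.sum_cons, hfp, hpS, hwS, if_false, zero_add]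
        rcases h.five S hSW hSne hcl' with ⟨v, hv, hs⟩ | h5
        · left
          refine ⟨v, hv, ?_⟩
          unfold Spec at hs ⊢
          rw [hdeg v (fun hh => hwS (hh ▸ hv))]
          exact hs
        · right; rwa [hwt] at h5
  · rintro ⟨φ, h1, D, h2, h3, h4⟩
    obtain ⟨s, t, D', rfl, h5⟩ := pull h2
    have hg := h3 _ (Multiset.mem_cons_self _ _)
    unfold Good at hg
    simp only at hg
    rw [thr_append] at hg
    obtain ⟨c, hcL, x, y, hx, hy, hxy⟩ := hg
    refine ⟨Function.update φ w c, ?_, (e, s, x) ::ₘ (f, y, t) ::ₘ D', ?_, ?_, ?_⟩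
    · intro v hv
      by_cases hvw : v = w
      · subst hvw; simpa using hcL
      · rw [Function.update_of_ne hvw]; exact h1 v (Finset.mem_erase.2 ⟨hvw, hv⟩)
    · rw [Multiset.map_cons, Multiset.map_cons, h5]
    · intro d hdD
      rcases Multiset.mem_cons.1 hdD with rfl | hdD
      · unfold Good
        simp only [heq, Function.update_self, Function.update_of_ne hep]
        exact hx
      · rcases Multiset.mem_cons.1 hdD with rfl | hdD
        · unfold Good
          simp only [hfp, Function.update_self, Function.update_of_ne hfq]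
          exact hy
        · obtain ⟨g1, g2⟩ := hn d.1 (mem_of_map h5 hdD)
          exact good_update g1 g2 (h3 d (Multiset.mem_cons_of_mem hdD))
    · intro v hv hdv
      by_cases hvw : v = w
      · subst hvw
        refine ⟨x, ?_⟩
        rw [cnt_cons, cnt_cons, cnt_zero_of_deg h5 hd]
        simp [w2, heq, hfp, hep, hfq, hxy.symm]
      · rw [← hdeg v hvw] at hdv
        obtain ⟨c', hc'⟩ := h4 v (Finset.mem_erase.2 ⟨hvw, hv⟩) hdv
        refine ⟨c', ?_⟩
        rw [cnt_cons, cnt_cons, ← hc', cnt_cons, ← add_assoc]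
        congr 1
        simp [w2, heq, hfp, Ne.symm hvw]

end PCF
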