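import Pool.Agent.MP_997fa2_co.Thread

/-!
# Colouring a vertex together with the threads leaving it

A vertex `u` of degree `n ≥ 3` whose threads end at two vertices (indexed by `Bool`), which are
already coloured by `β` and already have colours `c` seen exactly once, can be coloured together
with its threads unless one special configuration occurs.
-/

namespace PCF

set_option linter.unusedSectionVars false

variable {C : Type*} [DecidableEq C]

/-- The colour `s` can be used next to `u` when `u` is coloured `a`. -/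
def Av {n : ℕ} (T : Fin n → Bool × List (Finset C)) (β c : Bool → C) (j : Fin n) (a s : C) :
    Prop := ∃ t, Thr (T j).2 a s t (β (T j).1) ∧ t ≠ c (T j).1

/-- The colour `s` is the only one that can be used next to `u` when `u` is coloured `a`. -/
def FS {n : ℕ} (T : Fin n → Bool × List (Finset C)) (β c : Bool → C) (j : Fin n) (a s : C) :
    Prop := Av T β c j a s ∧ ∀ s', Av T β c j a s' → s' = s

/-- The exceptional configuration. -/
def Exc {n : ℕ} (T : Fin n → Bool × List (Finset C)) (b : C) : Prop :=
  ∃ (j : Fin n) (B₁ B₂ : Finset C), T j = (false, [B₁, B₂]) ∧ B₁ \ B₂ = {b} ∧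
    (∀ j', (T j').1 = false → (T j').2 ≠ [] → j' = j) ∧
    (∃ j₁ j₂, j₁ ≠ j₂ ∧ (T j₁).1 = true ∧ (T j₂).1 = true) ∧
    (∃ j₁ j₂, j₁ ≠ j₂ ∧ (T j₁).1 = false ∧ (T j₂).1 = false)

theorem card_split {A O R : Finset C} (h : ∀ a ∈ A, a ∉ R → a ∈ O) :
    A.card ≤ O.card + R.card := by
  refine le_trans (Finset.card_le_card (t := O ∪ R) ?_) (Finset.card_union_le _ _)
  intro a ha
  by_cases hR : a ∈ R
  · exact Finset.mem_union_right _ hR
  · exact Finset.mem_union_left _ (h a ha hR)

theorem star {n : ℕ} (hn : 3 ≤ n) (T : Fin n → Bool × List (Finset C))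
    (hc : ∀ j, ∀ A ∈ (T j).2, 4 ≤ A.card)
    (hd : ∀ j j', (T j).1 = (T j').1 → (T j).2 = [] → (T j').2 = [] → j = j')
    (β c : Bool → C) (A : Finset C) (hA : n + 2 ≤ A.card) :
    (∃ a ∈ A, ∃ P : Fin n → C × C,
      (∀ j, Thr (T j).2 a (P j).1 (P j).2 (β (T j).1) ∧ (P j).2 ≠ c (T j).1) ∧
      ∃ j₀, ∀ j, j ≠ j₀ → (P j).1 ≠ (P j₀).1) ∨ Exc T (β true) := by
  classical
  by_contra hcon
  rw [not_or] at hcon
  obtain ⟨hcon, hexc⟩ := hcon
  -- the basic property of failing colours
  have fail : ∀ a ∈ A, (∀ j, ∃ s, Av T β c j a s) → ∀ j₀ p, Av T β c j₀ a p →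
      ∃ j, j ≠ j₀ ∧ FS T β c j a p := by
    intro a ha hne j₀ p hp
    by_contra hno
    apply hcon
    have hch : ∀ j, j ≠ j₀ → ∃ s, Av T β c j a s ∧ s ≠ p := by
      intro j hj
      by_contra hno'
      push Not at hno'
      obtain ⟨s, hs⟩ := hne j
      exact hno ⟨j, hj, (hno' s hs) ▸ hs, hno'⟩
    have hch' : ∀ j, ∃ q : C × C, (Thr (T j).2 a q.1 q.2 (β (T j).1) ∧ q.2 ≠ c (T j).1) ∧
        (j = j₀ → q.1 = p) ∧ (j ≠ j₀ → q.1 ≠ p) := by
      intro j
      by_cases hj : j = j₀
      · obtain ⟨t, ht, htc⟩ := hp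
        subst hj
        exact ⟨(p, t), ⟨ht, htc⟩, fun _ => rfl, fun h => absurd rfl h⟩
      · obtain ⟨s, ⟨t, ht, htc⟩, hsp⟩ := hch j hj
        exact ⟨(s, t), ⟨ht, htc⟩, fun h => absurd h hj, fun _ => hsp⟩
    choose P hP using hch'
    refine ⟨a, ha, P, fun j => (hP j).1, j₀, fun j hj => ?_⟩
    rw [(hP j₀).2.1 rfl]
    exact (hP j).2.2 hj
  -- the good colours
  let O : Finset C := A.filter (fun a => ∀ j, ((T j).2 = [] → a ≠ β (T j).1 ∧ a ≠ c (T j).1) ∧
    ((T j).2.length = 1 → a ≠ β (T j).1))
  have memO : ∀ a, a ∈ O ↔ a ∈ A ∧ ∀ j, ((T j).2 = [] → a ≠ β (T j).1 ∧ a ≠ c (T j).1) ∧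
    ((T j).2.length = 1 → a ≠ β (T j).1) := fun a => Finset.mem_filter
  have hne : ∀ a ∈ O, ∀ j, ∃ s, Av T β c j a s := by
    intro a ha j
    obtain ⟨h1, h2⟩ := (memO a).1 ha
    by_cases hj : (T j).2 = []
    · refine ⟨β (T j).1, a, ?_, ((h2 j).1 hj).2⟩
      rw [hj]
      exact ⟨rfl, rfl, ((h2 j).1 hj).1⟩
    · obtain ⟨s, t, h3, h4⟩ := exists_thr (T j).2 (hc j) hj a (β (T j).1) (c (T j).1) (h2 j).2
      exact ⟨s, t, h3, h4⟩
  have hb : ∀ a ∈ O, ∀ j₀ p, Av T β c j₀ a p → ∃ j, j ≠ j₀ ∧ FS T β c j a p := fun a ha =>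
    fail a ((memO a).1 ha).1 (hne a ha)
  have hdir : ∀ a ∈ O, ∀ j, (T j).2 = [] → FS T β c j a (β (T j).1) := by
    intro a ha j hj
    obtain ⟨s, hs⟩ := hne a ha j
    have key : ∀ s', Av T β c j a s' → s' = β (T j).1 := by
      rintro s' ⟨t, ht, _⟩
      rw [hj] at ht
      exact ht.1
    exact ⟨key s hs ▸ hs, key⟩
  have FSuniq : ∀ j a p q, FS T β c j a p → FS T β c j a q → p = q :=
    fun j a p q h1 h2 => h2.2 p h1.1
  -- forced indices
  let X : C → Finset (Fin n) := fun a => Finset.univ.filter (fun j => ∃ p, FS T β c j a p)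
  have memX : ∀ a j, j ∈ X a ↔ ∃ p, FS T β c j a p := fun a j => by simp [X]
  have G2 : ∀ a ∈ O, ∀ j₁ j₂ s s', FS T β c j₁ a s → FS T β c j₂ a s' → s ≠ s' →
      4 ≤ (X a).card := by
    intro a ha j₁ j₂ s s' h1 h2 hss
    obtain ⟨k₁, hk₁, h1'⟩ := hb a ha j₁ s h1.1
    obtain ⟨k₂, hk₂, h2'⟩ := hb a ha j₂ s' h2.1
    have hsub : ({j₁, k₁, j₂, k₂} : Finset (Fin n)) ⊆ X a := by
      intro j hj
      simp only [Finset.mem_insert, Finset.mem_singleton] at hj
      rw [memX]
      rcases hj with rfl | rfl | rfl | rfl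
      · exact ⟨_, h1⟩
      · exact ⟨_, h1'⟩
      · exact ⟨_, h2⟩
      · exact ⟨_, h2'⟩
    have hcard : ({j₁, k₁, j₂, k₂} : Finset (Fin n)).card = 4 := by
      have d1 : j₁ ≠ j₂ := fun h => hss (FSuniq _ _ _ _ h1 (h ▸ h2))
      have d2 : j₁ ≠ k₂ := fun h => hss (FSuniq _ _ _ _ h1 (h ▸ h2'))
      have d3 : k₁ ≠ j₂ := fun h => hss (FSuniq _ _ _ _ h1' (h ▸ h2))
      have d4 : k₁ ≠ k₂ := fun h => hss (FSuniq _ _ _ _ h1' (h ▸ h2'))
      rw [Finset.card_insert_of_notMem, Finset.card_insert_of_notMem,
        Finset.card_insert_of_notMem, Finset.card_singleton]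
      · simpa using hk₂.symm
      · simp only [Finset.mem_insert, Finset.mem_singleton, not_or]; exact ⟨d3, d4⟩
      · simp only [Finset.mem_insert, Finset.mem_singleton, not_or]; exact ⟨hk₁.symm, d1, d2⟩
    exact hcard ▸ Finset.card_le_card hsub
  have G1 : ∀ a ∈ O, (∀ j, ∃ p, FS T β c j a p) ∨ 4 ≤ (X a).card := by
    intro a ha
    by_cases hall : ∀ j, ∃ p, FS T β c j a p
    · exact Or.inl hall
    · right
      push Not at hall
      obtain ⟨j₃, hj₃⟩ := hall
      obtain ⟨s, hs⟩ := hne a ha j₃
      have : ∃ s', Av T β c j₃ a s' ∧ s' ≠ s := by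
        by_contra hno
        push Not at hno
        exact hj₃ s ⟨hs, hno⟩
      obtain ⟨s', hs', hss⟩ := this
      obtain ⟨j₁, _, h1⟩ := hb a ha j₃ s hs
      obtain ⟨j₂, _, h2⟩ := hb a ha j₃ s' hs'
      exact G2 a ha j₂ j₁ s' s h2 h1 hss
  -- threads
  let J : Finset (Fin n) := Finset.univ.filter (fun j => (T j).2 ≠ [])
  let D : Finset (Fin n) := Finset.univ.filter (fun j => (T j).2 = [])
  have memJ : ∀ j, j ∈ J ↔ (T j).2 ≠ [] := fun j => by simp [J]
  have memD : ∀ j, j ∈ D ↔ (T j).2 = [] := fun j => by simp [D]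
  have hJD : D.card + J.card = n := by
    have := Finset.card_filter_add_card_filter_not (s := (Finset.univ : Finset (Fin n)))
      (fun j => (T j).2 = [])
    simpa using this
  let x : C → Finset (Fin n) := fun a => J.filter (fun j => ∃ p, FS T β c j a p)
  let y : Fin n → Finset C := fun j => O.filter (fun a => ∃ p, FS T β c j a p)
  have memx : ∀ a j, j ∈ x a ↔ (T j).2 ≠ [] ∧ ∃ p, FS T β c j a p := fun a j => by
    simp [x, J]
  have memy : ∀ j a, a ∈ y j ↔ a ∈ O ∧ ∃ p, FS T β c j a p := fun j a => by simp [y]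
  have hXx : ∀ a, (X a).card ≤ (x a).card + D.card := by
    intro a
    refine le_trans (Finset.card_le_card (t := x a ∪ D) ?_) (Finset.card_union_le _ _)
    intro j hj
    by_cases h : (T j).2 = []
    · exact Finset.mem_union_right _ ((memD j).2 h)
    · exact Finset.mem_union_left _ ((memx a j).2 ⟨h, (memX a j).1 hj⟩)
  have htf : ∀ j ∈ J, ∀ a₁ ∈ O, ∀ a₂ ∈ O, ∀ p₁ p₂, a₁ ≠ a₂ → FS T β c j a₁ p₁ →
      FS T β c j a₂ p₂ → ({a₁, a₂, β (T j).1, c (T j).1} : Finset C).card = 4 ∧
      ((∃ X : Finset C, (T j).2 = [X] ∧ X = {a₁, a₂, β (T j).1, c (T j).1} ∧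
        p₁ = a₂ ∧ p₂ = a₁) ∨
      (∃ A B : Finset C, (T j).2 = [A, B] ∧ B = {a₁, a₂, β (T j).1, c (T j).1} ∧
        A = {a₁, a₂, β (T j).1, p₁} ∧ p₂ = p₁ ∧ A.card = 4)) := by
    intro j hj a₁ ha₁ a₂ ha₂ p₁ p₂ haa h1 h2
    exact two_forced (T j).2 (hc j) ((memJ j).1 hj) haa
      (fun h => ⟨(((memO a₁).1 ha₁).2 j).2 h, (((memO a₂).1 ha₂).2 j).2 h⟩)
      (fun s t h3 h4 => h1.2 s ⟨t, h3, h4⟩) (fun s t h3 h4 => h2.2 s ⟨t, h3, h4⟩)
  have hy2 : ∀ j ∈ J, (y j).card ≤ 2 := by
    intro j hj
    by_contra hlt
    push Not at hlt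
    obtain ⟨a₁, h1, a₂, h2, a₃, h3, h12, h13, h23⟩ := Finset.two_lt_card.1 hlt
    obtain ⟨g1, p1, f1⟩ := (memy j a₁).1 h1
    obtain ⟨g2, p2, f2⟩ := (memy j a₂).1 h2
    obtain ⟨g3, p3, f3⟩ := (memy j a₃).1 h3
    obtain ⟨c12, r12⟩ := htf j hj a₁ g1 a₂ g2 p1 p2 h12 f1 f2
    obtain ⟨c13, r13⟩ := htf j hj a₁ g1 a₃ g3 p1 p3 h13 f1 f3
    have heq : ({a₁, a₂, β (T j).1, c (T j).1} : Finset C) = {a₁, a₃, β (T j).1, c (T j).1} := by
      rcases r12 with ⟨X, e1, e2, _, _⟩ | ⟨A, B, e1, e2, _, _, _⟩
      · rcases r13 with ⟨X', e1', e2', _, _⟩ | ⟨A', B', e1', e2', _, _, _⟩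
        · rw [e1] at e1'
          have : X = X' := by simpa using e1'
          rw [← e2, this, e2']
        · rw [e1] at e1'; simp at e1'
      · rcases r13 with ⟨X', e1', e2', _, _⟩ | ⟨A', B', e1', e2', _, _, _⟩
        · rw [e1] at e1'; simp at e1'
        · rw [e1] at e1'
          have : B = B' := by simpa using (List.cons.inj (List.cons.inj e1').2).1
          rw [← e2, this, e2']
    have m : a₃ ∈ ({a₁, a₂, β (T j).1, c (T j).1} : Finset C) := by rw [heq]; simp
    obtain ⟨k1, k2, k3, k4, k5, k6⟩ := ne_of c13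
    simp only [Finset.mem_insert, Finset.mem_singleton] at m
    rcases m with h | h | h | h
    · exact h13 h.symm
    · exact h23 h.symm
    · exact k4 h
    · exact k5 h
  have hsum : ∑ a ∈ O, (x a).card = ∑ j ∈ J, (y j).card :=
    Finset.sum_card_bipartiteAbove_eq_sum_card_bipartiteBelow
      (fun a j => ∃ p, FS T β c j a p)
  have hsum_le : ∑ a ∈ O, (x a).card ≤ 2 * J.card := by
    rw [hsum]
    calc ∑ j ∈ J, (y j).card ≤ ∑ _j ∈ J, 2 := Finset.sum_le_sum hy2
      _ = 2 * J.card := by rw [Finset.sum_const, smul_eq_mul, mul_comm]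
  have hsum_ge : ∀ m, (∀ a ∈ O, m ≤ (x a).card) → m * O.card ≤ 2 * J.card := by
    intro m hm
    refine le_trans ?_ hsum_le
    calc m * O.card = ∑ _a ∈ O, m := by rw [Finset.sum_const, smul_eq_mul, mul_comm]
      _ ≤ _ := Finset.sum_le_sum hm
  have hX : ∀ a ∈ O, n ≤ (X a).card ∨ 4 ≤ (X a).card := by
    intro a ha
    rcases G1 a ha with h | h
    · left
      have : X a = Finset.univ := by
        ext j; simp [memX, h j]
      rw [this]; simp
    · exact Or.inr h
  -- exactly one direct edge
  have one : ∀ (i : Bool) (ji : Fin n), (T ji).1 = i → (T ji).2 = [] →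
      (¬ ∃ j, (T j).1 = !i ∧ (T j).2 = []) → False := by
    intro i ji hi1 hi2 hno
    push Not at hno
    have hDeq : D = {ji} := by
      ext j
      rw [memD, Finset.mem_singleton]
      constructor
      · intro h
        by_cases hj : (T j).1 = i
        · exact hd j ji (hj.trans hi1.symm) h hi2
        · exact absurd h (hno j (Bool.eq_not.2 hj))
      · rintro rfl; exact hi2
    have hDcard : D.card = 1 := by rw [hDeq]; simp
    have hO : A.card ≤ O.card + ({β i, c i, β (!i)} : Finset C).card := by
      apply card_split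
      intro a ha haR
      simp only [Finset.mem_insert, Finset.mem_singleton, not_or] at haR
      refine (memO a).2 ⟨ha, fun j => ?_⟩
      by_cases hj : (T j).1 = i
      · rw [hj]; exact ⟨fun _ => ⟨haR.1, haR.2.1⟩, fun _ => haR.1⟩
      · have hj' : (T j).1 = !i := Bool.eq_not.2 hj
        rw [hj']; exact ⟨fun h => absurd h (hno j hj'), fun _ => haR.2.2⟩
    have hO' := card_three (β i) (c i) (β (!i))
    rcases Nat.lt_or_ge n 4 with hn4 | hn4
    · -- n = 3
      have hforce : ∀ a ∈ O, ∀ j, FS T β c j a (β i) := by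
        intro a ha j
        have hXn : (X a).card ≤ n := by simpa using Finset.card_le_univ (X a)
        rcases G1 a ha with h | h
        · obtain ⟨p, hp⟩ := h j
          by_cases hpb : p = β i
          · exact hpb ▸ hp
          · have h4 := G2 a ha j ji p (β i) hp (hi1 ▸ hdir a ha ji hi2) hpb
            omega
        · omega
      have hO2 : 1 < O.card := by omega
      obtain ⟨a₁, ha₁, a₂, ha₂, haa⟩ := Finset.one_lt_card.1 hO2
      have hlen : ∀ j, (T j).2 ≠ [] → (T j).2.length ≠ 1 := by
        intro j hj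
        obtain ⟨_, r1⟩ := htf j ((memJ j).2 hj) a₁ ha₁ a₂ ha₂ _ _ haa (hforce a₁ ha₁ j)
          (hforce a₂ ha₂ j)
        rcases r1 with ⟨X, e1, e2, e3, e4⟩ | ⟨A', B, e1, _⟩
        · exact absurd (by rw [hi1, e3]) ((((memO a₂).1 ha₂).2 ji).1 hi2 |>.1)
        · rw [e1]; simp
      have hO3 : A.card ≤ O.card + ({β i, c i} : Finset C).card := by
        apply card_split
        intro a ha haR
        simp only [Finset.mem_insert, Finset.mem_singleton, not_or] at haR
        refine (memO a).2 ⟨ha, fun j => ?_⟩
        by_cases hj : (T j).1 = i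
        · rw [hj]; exact ⟨fun _ => ⟨haR.1, haR.2⟩, fun _ => haR.1⟩
        · have hj' : (T j).1 = !i := Bool.eq_not.2 hj
          refine ⟨fun h => absurd h (hno j hj'), fun h => absurd h (hlen j (hno j hj'))⟩
      have hO4 := card_two (β i) (c i)
      obtain ⟨j, hj⟩ : J.Nonempty := Finset.card_pos.1 (by omega)
      have hyO : y j = O := by
        ext a
        rw [memy]
        exact ⟨fun h => h.1, fun h => ⟨h, _, hforce a h j⟩⟩
      have := hy2 j hj
      rw [hyO] at this
      omega
    · have := hsum_ge 3 (fun a ha => by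
        have h1 := hXx a
        have h2 := hX a ha
        omega)
      omega
  by_cases hdt : ∃ j, (T j).1 = true ∧ (T j).2 = []
  · obtain ⟨jt, jt1, jt2⟩ := hdt
    by_cases hdf : ∃ j, (T j).1 = false ∧ (T j).2 = []
    · -- both direct edges
      obtain ⟨jf, jf1, jf2⟩ := hdf
      have hjtf : jt ≠ jf := by rintro rfl; rw [jt1] at jf1; cases jf1
      have hDeq : D = {jt, jf} := by
        ext j
        rw [memD]
        simp only [Finset.mem_insert, Finset.mem_singleton]
        constructor
        · intro h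
          cases hj : (T j).1 with
          | true => exact Or.inl (hd j jt (hj.trans jt1.symm) h jt2)
          | false => exact Or.inr (hd j jf (hj.trans jf1.symm) h jf2)
        · rintro (rfl | rfl) <;> assumption
      have hDcard : D.card = 2 := by rw [hDeq]; exact Finset.card_pair hjtf
      by_cases hbb : β true = β false
      · have hO : A.card ≤ O.card + ({β true, c true, c false} : Finset C).card := by
          apply card_split
          intro a ha haR
          simp only [Finset.mem_insert, Finset.mem_singleton, not_or] at haR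
          refine (memO a).2 ⟨ha, fun j => ?_⟩
          cases hj : (T j).1 with
          | true => exact ⟨fun _ => ⟨haR.1, haR.2.1⟩, fun _ => haR.1⟩
          | false => exact ⟨fun _ => ⟨hbb ▸ haR.1, haR.2.2⟩, fun _ => hbb ▸ haR.1⟩
        have hO' := card_three (β true) (c true) (c false)
        rcases Nat.lt_or_ge n 4 with hn4 | hn4
        · -- n = 3
          have hO2 : 1 < O.card := by omega
          obtain ⟨a₁, ha₁, a₂, ha₂, haa⟩ := Finset.one_lt_card.1 hO2
          obtain ⟨j, hj⟩ : J.Nonempty := Finset.card_pos.1 (by omega)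
          have hforce : ∀ a ∈ O, FS T β c j a (β true) := by
            intro a ha
            have hXn : (X a).card ≤ n := by simpa using Finset.card_le_univ (X a)
            rcases G1 a ha with h | h
            · obtain ⟨p, hp⟩ := h j
              by_cases hpb : p = β true
              · exact hpb ▸ hp
              · have h4 := G2 a ha j jt p (β true) hp (jt1 ▸ hdir a ha jt jt2) hpb
                omega
            · omega
          obtain ⟨c1, r1⟩ := htf j hj a₁ ha₁ a₂ ha₂ _ _ haa (hforce a₁ ha₁) (hforce a₂ ha₂)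
          rcases r1 with ⟨X, e1, e2, e3, e4⟩ | ⟨A', B, e1, e2, e3, e4, e5⟩
          · exact (((memO a₂).1 ha₂).2 jt).1 jt2 |>.1 (by rw [jt1, e3])
          · have hbi : β (T j).1 = β true := by
              cases (T j).1 with
              | true => rfl
              | false => exact hbb.symm
            rw [e3, hbi] at e5
            obtain ⟨_, _, _, _, _, k6⟩ := ne_of e5
            exact k6 rfl
        · have := hsum_ge 2 (fun a ha => by
            have h1 := hXx a
            have h2 := hX a ha
            omega)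
          omega
      · -- the critical case
        have hO : A.card ≤ O.card + ({β true, c true, β false, c false} : Finset C).card := by
          apply card_split
          intro a ha haR
          simp only [Finset.mem_insert, Finset.mem_singleton, not_or] at haR
          refine (memO a).2 ⟨ha, fun j => ?_⟩
          cases hj : (T j).1 with
          | true => exact ⟨fun _ => ⟨haR.1, haR.2.1⟩, fun _ => haR.1⟩
          | false => exact ⟨fun _ => ⟨haR.2.2.1, haR.2.2.2⟩, fun _ => haR.2.2.1⟩
        have hO' := card_four (β true) (c true) (β false) (c false)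
        have fst_t : ∀ a ∈ O, FS T β c jt a (β true) := fun a ha => jt1 ▸ hdir a ha jt jt2
        have fst_f : ∀ a ∈ O, FS T β c jf a (β false) := fun a ha => jf1 ▸ hdir a ha jf jf2
        have hx2 : ∀ a ∈ O, 2 ≤ (x a).card := by
          intro a ha
          have h1 := hXx a
          have h2 := G2 a ha jt jf _ _ (fst_t a ha) (fst_f a ha) hbb
          omega
        have hle := hsum_ge 2 hx2
        have hOn : O.card = n - 2 := by omega
        have hRcard : ({β true, c true, β false, c false} : Finset C).card = 4 := by omega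
        obtain ⟨r1, r2, r3, r4, r5, r6⟩ := ne_of hRcard
        have hJn : J.card = n - 2 := by omega
        have hxe : ∀ a ∈ O, (x a).card = 2 := by
          by_contra hno
          push Not at hno
          obtain ⟨a, ha, hxa⟩ := hno
          have : ∑ _a ∈ O, 2 < ∑ a ∈ O, (x a).card :=
            Finset.sum_lt_sum hx2 ⟨a, ha, lt_of_le_of_ne (hx2 a ha) (Ne.symm hxa)⟩
          rw [Finset.sum_const, smul_eq_mul] at this
          omega
        have hye : ∀ j ∈ J, (y j).card = 2 := by
          by_contra hno
          push Not at hno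
          obtain ⟨j, hj, hyj⟩ := hno
          have h1 : ∑ j ∈ J, (y j).card < ∑ _j ∈ J, 2 :=
            Finset.sum_lt_sum hy2 ⟨j, hj, lt_of_le_of_ne (hy2 j hj) hyj⟩
          have h2 : ∑ _a ∈ O, 2 ≤ ∑ a ∈ O, (x a).card := Finset.sum_le_sum hx2
          rw [Finset.sum_const, smul_eq_mul] at h1 h2
          omega
        -- threads forced to the boundary colours
        have hthr : ∀ a ∈ O, ∃ k₁ ∈ J, ∃ k₂ ∈ J, FS T β c k₁ a (β true) ∧
            FS T β c k₂ a (β false) ∧ k₁ ≠ k₂ ∧ x a = {k₁, k₂} := by
          intro a ha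
          obtain ⟨k₁, hk₁, f1⟩ := hb a ha jt _ (fst_t a ha).1
          obtain ⟨k₂, hk₂, f2⟩ := hb a ha jf _ (fst_f a ha).1
          have hk12 : k₁ ≠ k₂ := fun h => hbb (FSuniq _ _ _ _ f1 (h ▸ f2))
          have hk₁J : (T k₁).2 ≠ [] := by
            intro h
            have : k₁ ∈ D := (memD _).2 h
            rw [hDeq] at this
            simp only [Finset.mem_insert, Finset.mem_singleton] at this
            rcases this with h' | h'
            · exact hk₁ h'
            · exact hbb (FSuniq _ _ _ _ f1 (h' ▸ fst_f a ha))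
          have hk₂J : (T k₂).2 ≠ [] := by
            intro h
            have : k₂ ∈ D := (memD _).2 h
            rw [hDeq] at this
            simp only [Finset.mem_insert, Finset.mem_singleton] at this
            rcases this with h' | h'
            · exact hbb (FSuniq _ _ _ _ (h' ▸ fst_t a ha) f2)
            · exact hk₂ h'
          refine ⟨k₁, (memJ _).2 hk₁J, k₂, (memJ _).2 hk₂J, f1, f2, hk12, ?_⟩
          symm
          apply Finset.eq_of_subset_of_card_le
          · intro k hk
            simp only [Finset.mem_insert, Finset.mem_singleton] at hk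
            rcases hk with rfl | rfl
            · exact (memx a _).2 ⟨hk₁J, _, f1⟩
            · exact (memx a _).2 ⟨hk₂J, _, f2⟩
          · rw [hxe a ha, Finset.card_pair hk12]
        have hcol : ∀ a ∈ O, ∀ j p, FS T β c j a p → p = β true ∨ p = β false := by
          intro a ha j p hp
          by_cases hj : (T j).2 = []
          · have h1 := FSuniq _ _ _ _ hp (hdir a ha j hj)
            cases hj' : (T j).1 with
            | true => left; rw [h1, hj']
            | false => right; rw [h1, hj']
          · obtain ⟨k₁, _, k₂, _, f1, f2, _, hxa⟩ := hthr a ha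
            have : j ∈ x a := (memx a j).2 ⟨hj, p, hp⟩
            rw [hxa] at this
            simp only [Finset.mem_insert, Finset.mem_singleton] at this
            rcases this with rfl | rfl
            · exact Or.inl (FSuniq _ _ _ _ hp f1)
            · exact Or.inr (FSuniq _ _ _ _ hp f2)
        have hshape : ∀ j ∈ J, ∃ a₁ ∈ O, ∃ a₂ ∈ O, ∃ A' B' : Finset C, (T j).2 = [A', B'] ∧
            B' = {a₁, a₂, β (T j).1, c (T j).1} ∧ A' = {a₁, a₂, β (T j).1, β (!(T j).1)} := by
          intro j hj
          have h2 : 1 < (y j).card := by rw [hye j hj]; norm_num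
          obtain ⟨a₁, h1, a₂, h2, haa⟩ := Finset.one_lt_card.1 h2
          obtain ⟨g1, p1, f1⟩ := (memy j a₁).1 h1
          obtain ⟨g2, p2, f2⟩ := (memy j a₂).1 h2
          obtain ⟨_, r⟩ := htf j hj a₁ g1 a₂ g2 p1 p2 haa f1 f2
          rcases r with ⟨X, e1, e2, e3, e4⟩ | ⟨A', B, e1, e2, e3, e4, e5⟩
          · exfalso
            have h3 := hcol a₁ g1 j p1 f1
            rw [e3] at h3
            rcases h3 with h3 | h3
            · exact (((memO a₂).1 g2).2 jt).1 jt2 |>.1 (by rw [jt1, h3])
            · exact (((memO a₂).1 g2).2 jf).1 jf2 |>.1 (by rw [jf1, h3])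
          · refine ⟨a₁, g1, a₂, g2, A', B, e1, e2, ?_⟩
            have h3 := hcol a₁ g1 j p1 f1
            rw [e3] at e5
            obtain ⟨_, _, _, _, _, k6⟩ := ne_of e5
            have : p1 = β (!(T j).1) := by
              cases hj' : (T j).1 with
              | true =>
                rw [hj'] at k6
                rcases h3 with h3 | h3
                · exact absurd h3.symm k6
                · exact h3
              | false =>
                rw [hj'] at k6
                rcases h3 with h3 | h3
                · exact h3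
                · exact absurd h3.symm k6
            rw [e3, this]
        have hnob : ∀ j ∈ J, ∀ a s, Av T β c j a s → s ≠ β (T j).1 := by
          intro j hj a s hs
          obtain ⟨a₁, _, a₂, _, A', B', e1, _, _⟩ := hshape j hj
          obtain ⟨t, ht, _⟩ := hs
          rw [e1] at ht
          exact (thr2.1 ht).2.2.2.1
        have hOne : O.Nonempty := Finset.card_pos.1 (by omega)
        obtain ⟨a, ha⟩ := hOne
        obtain ⟨k₁, hk₁, k₂, hk₂, f1, f2, hk12, hxa⟩ := hthr a ha
        have hk₁f : (T k₁).1 = false := by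
          cases h : (T k₁).1 with
          | false => rfl
          | true => exact absurd (by rw [h]) (hnob k₁ hk₁ a _ f1.1)
        have hk₂t : (T k₂).1 = true := by
          cases h : (T k₂).1 with
          | true => rfl
          | false => exact absurd (by rw [h]) (hnob k₂ hk₂ a _ f2.1)
        have hJeq : ∀ j ∈ J, j = k₁ ∨ j = k₂ := by
          intro j hj
          by_contra hno
          rw [not_or] at hno
          have hjx : j ∉ x a := by
            rw [hxa]; simpa using hno
          -- all available colours equal the other boundary colour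
          obtain ⟨s, hs⟩ := hne a ha j
          have key : ∀ s, Av T β c j a s → s = β (!(T j).1) := by
            intro s hs
            obtain ⟨j', _, fj'⟩ := hb a ha j s hs
            have h3 := hcol a ha j' s fj'
            have h4 := hnob j hj a s hs
            cases hj' : (T j).1 with
            | true =>
              rw [hj'] at h4
              rcases h3 with h3 | h3
              · exact absurd h3 h4
              · exact h3
            | false =>
              rw [hj'] at h4
              rcases h3 with h3 | h3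
              · exact h3
              · exact absurd h3 h4
          apply hjx
          exact (memx a j).2 ⟨(memJ j).1 hj, β (!(T j).1), key s hs ▸ hs, key⟩
        apply hexc
        obtain ⟨a₁, ha₁, a₂, ha₂, A', B', e1, e2, e3⟩ := hshape k₁ hk₁
        rw [hk₁f] at e2 e3
        refine ⟨k₁, A', B', Prod.ext hk₁f e1, ?_, ?_, ?_, ?_⟩
        · have hO1 := ((memO a₁).1 ha₁).2 jt |>.1 jt2
          have hO2 := ((memO a₂).1 ha₂).2 jt |>.1 jt2
          rw [jt1] at hO1 hO2
          ext z
          rw [e2, e3]
          simp only [Finset.mem_sdiff, Finset.mem_insert, Finset.mem_singleton, Bool.not_false,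
            not_or]
          constructor
          · rintro ⟨h1 | h1 | h1 | h1, h2⟩
            · exact absurd h1 h2.1
            · exact absurd h1 h2.2.1
            · exact absurd h1 h2.2.2.1
            · exact h1
          · rintro rfl
            exact ⟨Or.inr (Or.inr (Or.inr rfl)), hO1.1.symm, hO2.1.symm, r2, r3⟩
        · intro j' h1 h2
          rcases hJeq j' ((memJ j').2 h2) with h | h
          · exact h
          · rw [h, hk₂t] at h1; cases h1
        · refine ⟨jt, k₂, ?_, jt1, hk₂t⟩
          rintro rfl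
          exact (memJ _).1 hk₂ jt2
        · refine ⟨jf, k₁, ?_, jf1, hk₁f⟩
          rintro rfl
          exact (memJ _).1 hk₁ jf2
    · exact one true jt jt1 jt2 hdf
  · by_cases hdf : ∃ j, (T j).1 = false ∧ (T j).2 = []
    · obtain ⟨jf, jf1, jf2⟩ := hdf
      exact one false jf jf1 jf2 hdt
    · -- no direct edge
      push Not at hdt hdf
      have hnd : ∀ j, (T j).2 ≠ [] := by
        intro j
        cases hj : (T j).1 with
        | true => exact hdt j hj
        | false => exact hdf j hj
      have hDeq : D = ∅ := by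
        ext j
        rw [memD]
        simp [hnd j]
      have hDcard : D.card = 0 := by rw [hDeq]; simp
      have hO : A.card ≤ O.card + ({β true, β false} : Finset C).card := by
        apply card_split
        intro a ha haR
        simp only [Finset.mem_insert, Finset.mem_singleton, not_or] at haR
        refine (memO a).2 ⟨ha, fun j => ⟨fun h => absurd h (hnd j), fun _ => ?_⟩⟩
        cases hj : (T j).1 with
        | true => exact haR.1
        | false => exact haR.2
      have hO' := card_two (β true) (β false)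
      have := hsum_ge 3 (fun a ha => by
        have h1 := hXx a
        have h2 := hX a ha
        omega)
      omega

end PCF
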