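import Pool.Agent.MP_997fa2_co.Multi

/-!
# The reduction steps at vertices of degree at least three, and the induction
-/

namespace PCF

set_option linter.unusedSectionVars false

variable {V C : Type*} [DecidableEq V] [DecidableEq C]

/-- The decorated edges of a star. -/
def Dst (lst : List (E V C)) (P : Fin lst.length → C × C) : Multiset (E V C × C × C) :=
  (Finset.univ : Finset (Fin lst.length)).val.map (fun j => (lst.get j, P j))

theorem coe_eq_map {α : Type*} (lst : List α) :
    (lst : Multiset α) = (Finset.univ : Finset (Fin lst.length)).val.map lst.get := by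
  have h : (Finset.univ : Finset (Fin lst.length)).val = (List.finRange lst.length : Multiset _) :=
    rfl
  rw [h, Multiset.map_coe, ← List.ofFn_eq_map, List.ofFn_get]

theorem Dst_map (lst : List (E V C)) (P : Fin lst.length → C × C) :
    (Dst lst P).map Prod.fst = (lst : Multiset (E V C)) := by
  unfold Dst
  rw [Multiset.map_map, coe_eq_map]
  rfl

theorem cnt_Dst (lst : List (E V C)) (P : Fin lst.length → C × C) (v : V) (c : C) :
    cnt (Dst lst P) v c = ∑ j, w2 (lst.get j, P j) v c := by
  unfold cnt Dst
  rw [Multiset.map_map]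
  rfl

theorem deg_lst (lst : List (E V C)) (v : V) :
    deg (lst : Multiset (E V C)) v = ∑ j : Fin lst.length, w1 (lst.get j) v := by
  unfold deg
  rw [coe_eq_map, Multiset.map_map]
  rfl

theorem w2_zero {d : E V C × C × C} {v : V} {c : C} (h1 : ¬ (d.1.p = v ∧ d.2.1 = c))
    (h2 : ¬ (d.1.q = v ∧ d.2.2 = c)) : w2 d v c = 0 := by
  simp [w2, h1, h2]

theorem w2_left {d : E V C × C × C} {v : V} {c : C} (h1 : d.1.p = v ∧ d.2.1 = c)
    (h2 : ¬ (d.1.q = v ∧ d.2.2 = c)) : w2 d v c = 1 := by
  simp [w2, h1, h2]

theorem w2_right {d : E V C × C × C} {v : V} {c : C} (h1 : ¬ (d.1.p = v ∧ d.2.1 = c))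
    (h2 : d.1.q = v ∧ d.2.2 = c) : w2 d v c = 1 := by
  simp [w2, h1, h2]

theorem cnt_Dst_zero (lst : List (E V C)) (P : Fin lst.length → C × C) (v : V) (c : C)
    (h : ∀ j, (lst.get j).p ≠ v ∧ ((lst.get j).q = v → (P j).2 ≠ c)) :
    cnt (Dst lst P) v c = 0 := by
  rw [cnt_Dst]
  apply Finset.sum_eq_zero
  intro j _
  obtain ⟨h1, h2⟩ := h j
  exact w2_zero (fun hh => h1 hh.1) (fun hh => h2 hh.1 hh.2)

open Classical in
theorem countP_two {α : Type*} (lst : List α) (es : Multiset α) (Q : α → Prop)
    {j j' : Fin lst.length} (hj : j ≠ j') (h1 : Q (lst.get j)) (h2 : Q (lst.get j')) :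
    2 ≤ ((lst : Multiset α) + es).countP Q := by
  rw [Multiset.countP_add]
  refine le_trans ?_ (Nat.le_add_right _ _)
  rw [coe_eq_map, Multiset.countP_map]
  have : 1 < ((Finset.univ : Finset (Fin lst.length)).filter (fun j => Q (lst.get j))).card :=
    Finset.one_lt_card.2 ⟨j, by simpa using h1, j', by simpa using h2, hj⟩
  exact this

theorem deg_lst_center {lst : List (E V C)} {u : V} (hp : ∀ e ∈ lst, e.p = u)
    (hq : ∀ e ∈ lst, e.q ≠ u) : deg (lst : Multiset (E V C)) u = lst.length := by
  rw [deg_lst]
  have : ∀ j : Fin lst.length, w1 (lst.get j) u = 1 := by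
    intro j
    unfold w1
    rw [if_pos (hp _ (List.get_mem _ _)), if_neg (hq _ (List.get_mem _ _))]
  rw [Finset.sum_congr rfl (fun j _ => this j)]
  simp

theorem Exc.uniq {n : ℕ} {T : Fin n → Bool × List (Finset C)} {b b' : C} (h : Exc T b)
    (h' : Exc T b') : b = b' := by
  obtain ⟨j, B₁, B₂, h1, h2, h3, _, _⟩ := h
  obtain ⟨j', B₁', B₂', h1', h2', _, _, _⟩ := h'
  have hj : j' = j := h3 j' (by rw [h1']) (by rw [h1']; simp)
  subst hj
  rw [h1] at h1'
  have e1 : B₁ = B₁' := by simpa using (List.cons.inj (Prod.mk.inj h1').2).1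
  have e2 : B₂ = B₂' := by
    simpa using (List.cons.inj (List.cons.inj (Prod.mk.inj h1').2).2).1
  rw [← e1, ← e2, h2] at h2'
  simpa using h2'

/-- removing a vertex whose edges lead to at most two other vertices -/
theorem step_star {W : Finset V} {L : V → Finset C} {lst : List (E V C)}
    {es : Multiset (E V C)} (h : Inv W L ((lst : Multiset (E V C)) + es)) {u x y : V}
    (hu : u ∈ W) (hp : ∀ e ∈ lst, e.p = u) (hq : ∀ e ∈ lst, e.q = x ∨ e.q = y)
    (hxu : x ≠ u) (hyu : y ≠ u) (hd : deg es u = 0) (hdx : deg es x ≠ 0) (hdy : deg es y ≠ 0)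
    (h3 : 3 ≤ lst.length) (hx : ∃ e ∈ lst, e.q = x) (hy : ∃ e ∈ lst, e.q = y) :
    ∃ L' : V → Finset C, Inv (W.erase u) L' es ∧
      (Sol (W.erase u) L' es → Sol W L ((lst : Multiset (E V C)) + es)) := by
  classical
  have hn := not_mem_of_deg_zero hd
  have hqu : ∀ e ∈ lst, e.q ≠ u := by
    intro e he
    rcases hq e he with h' | h' <;> rw [h'] <;> assumption
  obtain ⟨ex, hex, hexq⟩ := hx
  obtain ⟨ey, hey, heyq⟩ := hy
  have hxW : x ∈ W := hexq ▸ (h.ends ex (Multiset.mem_add.2 (Or.inl hex))).2
  have hyW : y ∈ W := heyq ▸ (h.ends ey (Multiset.mem_add.2 (Or.inl hey))).2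
  have hdegu : deg ((lst : Multiset (E V C)) + es) u = lst.length := by
    rw [deg_add, hd, deg_lst_center hp hqu]; rfl
  let T : Fin lst.length → Bool × List (Finset C) :=
    fun j => (decide ((lst.get j).q = x), (lst.get j).l)
  have hT1 : ∀ j, (T j).1 = true ↔ (lst.get j).q = x := fun j => by simp [T]
  have hT1' : ∀ j, (T j).1 = false ↔ (lst.get j).q ≠ x := fun j => by simp [T]
  have hw1x : ∀ j : Fin lst.length, (lst.get j).q = x → 1 ≤ w1 (lst.get j) x := by
    intro j hj; unfold w1; rw [if_pos hj]; omega
  have hw1y : ∀ j : Fin lst.length, (lst.get j).q = y → 1 ≤ w1 (lst.get j) y := by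
    intro j hj; unfold w1; rw [if_pos hj]; omega
  have hx1 : 1 ≤ deg (lst : Multiset (E V C)) x := by
    obtain ⟨j, hj⟩ := List.mem_iff_get.1 hex
    rw [deg_lst]
    refine le_trans (hw1x j (by rw [hj, hexq])) ?_
    exact Finset.single_le_sum (f := fun j : Fin lst.length => w1 (lst.get j) x)
      (fun _ _ => Nat.zero_le _) (Finset.mem_univ j)
  have hy1 : 1 ≤ deg (lst : Multiset (E V C)) y := by
    obtain ⟨j, hj⟩ := List.mem_iff_get.1 hey
    rw [deg_lst]
    refine le_trans (hw1y j (by rw [hj, heyq])) ?_
    exact Finset.single_le_sum (f := fun j : Fin lst.length => w1 (lst.get j) y)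
      (fun _ _ => Nat.zero_le _) (Finset.mem_univ j)
  have hlx := h.lists x hxW
  rw [deg_add] at hlx
  have hly := h.lists y hyW
  rw [deg_add] at hly
  -- the lists used for the rest
  obtain ⟨L', hL1, hL2, hL3, hL4⟩ : ∃ L' : V → Finset C, (∀ v, L' v ⊆ L v) ∧
      (∀ v, v ≠ x → L' v = L v) ∧ (∀ c ∈ L' x, ¬ Exc T c) ∧
      deg es x + 3 ≤ (L' x).card := by
    by_cases hE : ∃ b, Exc T b
    · obtain ⟨b, hb⟩ := hE
      refine ⟨Function.update L x ((L x).erase b), ?_, ?_, ?_, ?_⟩
      · intro v
        by_cases hvx : v = x
        · subst hvx; rw [Function.update_self]; exact Finset.erase_subset _ _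
        · rw [Function.update_of_ne hvx]
      · intro v hvx
        rw [Function.update_of_ne hvx]
      · intro c hc hcE
        rw [Function.update_self] at hc
        exact (Finset.mem_erase.1 hc).1 (hcE.uniq hb)
      · rw [Function.update_self]
        obtain ⟨_, _, _, _, _, _, ⟨j₁, j₂, hj, t1, t2⟩, _⟩ := hb
        have h2 : 2 ≤ deg (lst : Multiset (E V C)) x := by
          rw [deg_lst]
          have hsub : ∑ j ∈ ({j₁, j₂} : Finset (Fin lst.length)), w1 (lst.get j) x ≤
              ∑ j : Fin lst.length, w1 (lst.get j) x :=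
            Finset.sum_le_sum_of_subset (Finset.subset_univ _)
          rw [Finset.sum_pair hj] at hsub
          have e1 := hw1x j₁ ((hT1 _).1 t1)
          have e2 := hw1x j₂ ((hT1 _).1 t2)
          omega
        have h4 := Finset.pred_card_le_card_erase (s := L x) (a := b)
        omega
    · refine ⟨L, fun v => Finset.Subset.refl _, fun _ _ => rfl, fun c _ hc => hE ⟨c, hc⟩, ?_⟩
      omega
  refine ⟨L', ?_, ?_⟩
  · refine h.sub (Finset.erase_subset _ _) (Multiset.le_add_left _ _) ?_ ?_ ?_
    · intro e he
      obtain ⟨h1, h2⟩ := h.ends e (Multiset.mem_add.2 (Or.inr he))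
      exact ⟨Finset.mem_erase.2 ⟨(hn e he).1, h1⟩, Finset.mem_erase.2 ⟨(hn e he).2, h2⟩⟩
    · intro v hv
      by_cases hvx : v = x
      · subst hvx; omega
      · rw [hL2 v hvx]
        have := h.lists v (Finset.mem_of_mem_erase hv)
        rw [deg_add] at this
        omega
    · intro S hS hSne hcl
      by_cases hxS : x ∈ S
      · exact Or.inl ⟨x, hxS, Or.inr hL4⟩
      · by_cases hyS : y ∈ S
        · refine Or.inl ⟨y, hyS, Or.inr ?_⟩
          rw [hL2 y (fun hh => hxS (hh ▸ hyS))]
          omega
        · refine h.five_rest (hS.trans (Finset.erase_subset _ _)) hSne hcl ?_ ?_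
          · intro v hv
            exact hL2 v (fun hh => hxS (hh ▸ hv))
          · intro e he
            have he' : e ∈ lst := he
            refine ⟨fun hh => ?_, fun hh => ?_⟩
            · rw [hp e he'] at hh
              exact (Finset.mem_erase.1 (hS hh)).1 rfl
            · rcases hq e he' with h' | h'
              · exact hxS (h' ▸ hh)
              · exact hyS (h' ▸ hh)
  · rintro ⟨φ, h1, D, h2, h4, h5⟩
    obtain ⟨cx, hcx⟩ := h5 x (Finset.mem_erase.2 ⟨hxu, hxW⟩) hdx
    obtain ⟨cy, hcy⟩ := h5 y (Finset.mem_erase.2 ⟨hyu, hyW⟩) hdy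
    have hgetmem : ∀ j : Fin lst.length, lst.get j ∈ lst := fun j => List.get_mem _ _
    have hβ : ∀ j, cond (T j).1 (φ x) (φ y) = φ (lst.get j).q := by
      intro j
      cases hj : (T j).1 with
      | true => rw [(hT1 j).1 hj]; rfl
      | false =>
        rw [(hq _ (hgetmem j)).resolve_left ((hT1' j).1 hj)]; rfl
    rcases star h3 T
      (fun j A hA => h.big _ (Multiset.mem_add.2 (Or.inl (hgetmem j))) A hA)
      (by
        intro j j' hjj hl hl'
        by_contra hne
        have hl1 : (lst.get j).l = [] := hl
        have hl2 : (lst.get j').l = [] := hl'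
        cases hj : (T j).1 with
        | true =>
          have hj' : (T j').1 = true := by rw [← hjj, hj]
          have := countP_two lst es (Dir u x) hne
            ⟨hl1, Or.inl ⟨hp _ (hgetmem j), (hT1 j).1 hj⟩⟩
            ⟨hl2, Or.inl ⟨hp _ (hgetmem j'), (hT1 j').1 hj'⟩⟩
          have h' := h.simple u x hxu.symm
          omega
        | false =>
          have hj' : (T j').1 = false := by rw [← hjj, hj]
          have := countP_two lst es (Dir u y) hne
            ⟨hl1, Or.inl ⟨hp _ (hgetmem j),
              (hq _ (hgetmem j)).resolve_left ((hT1' j).1 hj)⟩⟩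
            ⟨hl2, Or.inl ⟨hp _ (hgetmem j'),
              (hq _ (hgetmem j')).resolve_left ((hT1' j').1 hj')⟩⟩
          have h' := h.simple u y hyu.symm
          omega)
      (fun i => cond i (φ x) (φ y)) (fun i => cond i cx cy) (L u)
      (by have := h.lists u hu; omega) with hres | hres
    · obtain ⟨a, ha, P, hP, j₀, hj₀⟩ := hres
      refine ⟨Function.update φ u a, ?_, Dst lst P + D, ?_, ?_, ?_⟩
      · intro v hv
        by_cases hvu : v = u
        · subst hvu; simpa using ha
        · rw [Function.update_of_ne hvu]
          exact hL1 v (h1 v (Finset.mem_erase.2 ⟨hvu, hv⟩))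
      · rw [Multiset.map_add, Dst_map, h2]
      · intro d hdD
        rcases Multiset.mem_add.1 hdD with hdD | hdD
        · obtain ⟨j, _, rfl⟩ := Multiset.mem_map.1 hdD
          have hPj := (hP j).1
          rw [hβ j] at hPj
          unfold Good
          simp only
          rw [hp _ (hgetmem j), Function.update_self, Function.update_of_ne (hqu _ (hgetmem j))]
          exact hPj
        · obtain ⟨g1, g2⟩ := hn d.1 (mem_of_map h2 hdD)
          exact good_update g1 g2 (h4 d hdD)
      · intro v hv hdv
        by_cases hvu : v = u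
        · subst hvu
          refine ⟨(P j₀).1, ?_⟩
          rw [cnt_add, cnt_zero_of_deg h2 hd, cnt_Dst, add_zero,
            Finset.sum_eq_single j₀]
          · exact w2_left ⟨hp _ (hgetmem j₀), rfl⟩ (fun hh => hqu _ (hgetmem j₀) hh.1)
          · intro j _ hj
            exact w2_zero (fun hh => hj₀ j hj hh.2) (fun hh => hqu _ (hgetmem j) hh.1)
          · intro hh; exact absurd (Finset.mem_univ _) hh
        · by_cases hvx : v = x
          · subst hvx
            refine ⟨cx, ?_⟩
            rw [cnt_add, hcx, cnt_Dst_zero]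
            intro j
            refine ⟨fun hh => hvu (hh.symm.trans (hp _ (hgetmem j))), fun hh => ?_⟩
            have := (hP j).2
            rw [(hT1 j).2 hh] at this
            exact this
          · by_cases hvy : v = y
            · subst hvy
              refine ⟨cy, ?_⟩
              rw [cnt_add, hcy, cnt_Dst_zero]
              intro j
              refine ⟨fun hh => hvu (hh.symm.trans (hp _ (hgetmem j))), fun hh => ?_⟩
              have := (hP j).2
              rw [(hT1' j).2 (fun h' => hvx (hh.symm.trans h'))] at this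
              exact this
            · have hz : deg (lst : Multiset (E V C)) v = 0 := by
                apply deg_zero_of
                intro e he
                have he' : e ∈ lst := he
                refine ⟨fun hh => hvu (hh.symm.trans (hp e he')), fun hh => ?_⟩
                rcases hq e he' with h' | h'
                · exact hvx (hh.symm.trans h')
                · exact hvy (hh.symm.trans h')
              rw [deg_add, hz, zero_add] at hdv
              obtain ⟨c', hc'⟩ := h5 v (Finset.mem_erase.2 ⟨hvu, hv⟩) hdv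
              refine ⟨c', ?_⟩
              rw [cnt_add, hc', cnt_Dst_zero]
              intro j
              refine ⟨fun hh => hvu (hh.symm.trans (hp _ (hgetmem j))), fun hh => ?_⟩
              rcases hq _ (hgetmem j) with h' | h'
              · exact absurd (hh.symm.trans h') hvx
              · exact absurd (hh.symm.trans h') hvy
    · exact absurd hres (hL3 _ (h1 x (Finset.mem_erase.2 ⟨hxu, hxW⟩)))

/-- a component consisting of two vertices joined by at least three threads -/
theorem step_theta {W : Finset V} {L : V → Finset C} {lst : List (E V C)}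
    {es : Multiset (E V C)} (h : Inv W L ((lst : Multiset (E V C)) + es)) {u x : V}
    (hu : u ∈ W) (hx : x ∈ W) (hp : ∀ e ∈ lst, e.p = u) (hq : ∀ e ∈ lst, e.q = x)
    (hxu : x ≠ u) (hd : deg es u = 0) (hdx : deg es x = 0) (h3 : 3 ≤ lst.length) :
    Inv ((W.erase u).erase x) L es ∧
      (Sol ((W.erase u).erase x) L es → Sol W L ((lst : Multiset (E V C)) + es)) := by
  classical
  have hn := not_mem_of_deg_zero hd
  have hn' := not_mem_of_deg_zero hdx
  have hqu : ∀ e ∈ lst, e.q ≠ u := fun e he => by rw [hq e he]; exact hxu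
  have hdegu : deg ((lst : Multiset (E V C)) + es) u = lst.length := by
    rw [deg_add, hd, deg_lst_center hp hqu]; rfl
  have hgetmem : ∀ j : Fin lst.length, lst.get j ∈ lst := fun j => List.get_mem _ _
  have hsubW : (W.erase u).erase x ⊆ W :=
    (Finset.erase_subset _ _).trans (Finset.erase_subset _ _)
  have memW' : ∀ v, v ∈ (W.erase u).erase x ↔ v ≠ x ∧ v ≠ u ∧ v ∈ W := fun v => by
    simp [Finset.mem_erase]
  constructor
  · refine h.sub hsubW (Multiset.le_add_left _ _) ?_ ?_ ?_
    · intro e he
      obtain ⟨h1, h2⟩ := h.ends e (Multiset.mem_add.2 (Or.inr he))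
      exact ⟨(memW' _).2 ⟨(hn' e he).1, (hn e he).1, h1⟩,
        (memW' _).2 ⟨(hn' e he).2, (hn e he).2, h2⟩⟩
    · intro v hv
      have := h.lists v (hsubW hv)
      rw [deg_add] at this
      omega
    · intro S hS hSne hcl
      refine h.five_rest (hS.trans hsubW) hSne hcl (fun _ _ => rfl) ?_
      intro e he
      have he' : e ∈ lst := he
      rw [hp e he', hq e he']
      exact ⟨fun hh => ((memW' _).1 (hS hh)).2.1 rfl, fun hh => ((memW' _).1 (hS hh)).1 rfl⟩
  · rintro ⟨φ, h1, D, h2, h4, h5⟩
    -- an edge which is not direct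
    obtain ⟨j₁, hj₁⟩ : ∃ j : Fin lst.length, (lst.get j).l ≠ [] := by
      by_contra hno
      push Not at hno
      have hne : (⟨0, by omega⟩ : Fin lst.length) ≠ ⟨1, by omega⟩ := by simp
      have := countP_two lst es (Dir u x) hne
        ⟨hno _, Or.inl ⟨hp _ (hgetmem _), hq _ (hgetmem _)⟩⟩
        ⟨hno _, Or.inl ⟨hp _ (hgetmem _), hq _ (hgetmem _)⟩⟩
      have h' := h.simple u x hxu.symm
      omega
    obtain ⟨l', Az, hl'⟩ : ∃ l' Az, (lst.get j₁).l = l' ++ [Az] :=
      ⟨_, _, (List.dropLast_append_getLast hj₁).symm⟩
    have hbig : ∀ j : Fin lst.length, ∀ A ∈ (lst.get j).l, 4 ≤ A.card := fun j =>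
      h.big _ (Multiset.mem_add.2 (Or.inl (hgetmem j)))
    have hAz : 4 ≤ Az.card := hbig j₁ Az (by rw [hl']; simp)
    have hLx := h.lists x hx
    have hLu := h.lists u hu
    obtain ⟨b, hb⟩ : (L x).Nonempty := Finset.card_pos.1 (by omega)
    obtain ⟨t₀, ht₀, ht₀b⟩ := av1 (by omega : 2 ≤ Az.card) b
    let T : Fin lst.length → Bool × List (Finset C) :=
      fun j => if j = j₁ then (false, l') else (true, (lst.get j).l)
    have hTj₁ : T j₁ = (false, l') := by simp [T]
    have hTne : ∀ j, j ≠ j₁ → T j = (true, (lst.get j).l) := fun j hj => by simp [T, hj]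
    rcases star h3 T
      (by
        intro j A hA
        by_cases hj : j = j₁
        · subst hj
          rw [hTj₁] at hA
          exact hbig j A (by rw [hl']; simp only [List.mem_append]; exact Or.inl hA)
        · rw [hTne j hj] at hA
          exact hbig j A hA)
      (by
        intro j j' hjj hl hl'
        by_contra hne
        by_cases hj : j = j₁
        · by_cases hj' : j' = j₁
          · exact hne (hj.trans hj'.symm)
          · rw [hj, hTj₁, hTne j' hj'] at hjj
            simp at hjj
        · by_cases hj' : j' = j₁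
          · rw [hj', hTj₁, hTne j hj] at hjj
            simp at hjj
          · rw [hTne j hj] at hl
            rw [hTne j' hj'] at hl'
            have := countP_two lst es (Dir u x) hne
              ⟨hl, Or.inl ⟨hp _ (hgetmem _), hq _ (hgetmem _)⟩⟩
              ⟨hl', Or.inl ⟨hp _ (hgetmem _), hq _ (hgetmem _)⟩⟩
            have h' := h.simple u x hxu.symm
            omega)
      (fun i => cond i b t₀) (fun i => cond i t₀ b) (L u)
      (by omega) with hres | hres
    · obtain ⟨a, ha, P, hP, j₀, hj₀⟩ := hres
      let P' : Fin lst.length → C × C := fun j => if j = j₁ then ((P j).1, t₀) else P j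
      have hP'1 : ∀ j, (P' j).1 = (P j).1 := by
        intro j
        by_cases hj : j = j₁ <;> simp [P', hj]
      have hP'j₁ : (P' j₁).2 = t₀ := by simp [P']
      have hP'ne : ∀ j, j ≠ j₁ → P' j = P j := fun j hj => by simp [P', hj]
      refine ⟨Function.update (Function.update φ x b) u a, ?_, Dst lst P' + D, ?_, ?_, ?_⟩
      · intro v hv
        by_cases hvu : v = u
        · subst hvu; simpa using ha
        · rw [Function.update_of_ne hvu]
          by_cases hvx : v = x
          · subst hvx; simpa using hb
          · rw [Function.update_of_ne hvx]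
            exact h1 v ((memW' v).2 ⟨hvx, hvu, hv⟩)
      · rw [Multiset.map_add, Dst_map, h2]
      · intro d hdD
        rcases Multiset.mem_add.1 hdD with hdD | hdD
        · obtain ⟨j, _, rfl⟩ := Multiset.mem_map.1 hdD
          have hPj := hP j
          unfold Good
          simp only
          rw [hp _ (hgetmem j), hq _ (hgetmem j), Function.update_self,
            Function.update_of_ne hxu, Function.update_self, hP'1]
          by_cases hj : j = j₁
          · subst hj
            rw [hP'j₁, hl']
            rw [hTj₁] at hPj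
            simp only [cond_false] at hPj
            exact thr_snoc ht₀ hPj.1 hPj.2 ht₀b
          · rw [hP'ne j hj]
            rw [hTne j hj] at hPj
            simp only [cond_true] at hPj
            exact hPj.1
        · obtain ⟨g1, g2⟩ := hn d.1 (mem_of_map h2 hdD)
          obtain ⟨g3, g4⟩ := hn' d.1 (mem_of_map h2 hdD)
          exact good_update g1 g2 (good_update g3 g4 (h4 d hdD))
      · intro v hv hdv
        by_cases hvu : v = u
        · subst hvu
          refine ⟨(P j₀).1, ?_⟩
          rw [cnt_add, cnt_zero_of_deg h2 hd, cnt_Dst, add_zero,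
            Finset.sum_eq_single j₀]
          · exact w2_left ⟨hp _ (hgetmem j₀), hP'1 j₀⟩ (fun hh => hqu _ (hgetmem j₀) hh.1)
          · intro j _ hj
            exact w2_zero (fun hh => hj₀ j hj ((hP'1 j).symm.trans hh.2))
              (fun hh => hqu _ (hgetmem j) hh.1)
          · intro hh; exact absurd (Finset.mem_univ _) hh
        · by_cases hvx : v = x
          · subst hvx
            refine ⟨t₀, ?_⟩
            rw [cnt_add, cnt_zero_of_deg h2 hdx, cnt_Dst, add_zero,
              Finset.sum_eq_single j₁]
            · exact w2_right (fun hh => hvu (hh.1.symm.trans (hp _ (hgetmem j₁))))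
                ⟨hq _ (hgetmem j₁), hP'j₁⟩
            · intro j _ hj
              refine w2_zero (fun hh => hvu (hh.1.symm.trans (hp _ (hgetmem j)))) ?_
              rintro ⟨_, hh⟩
              have := (hP j).2
              rw [hTne j hj] at this
              simp only [cond_true] at this
              rw [hP'ne j hj] at hh
              exact this hh
            · intro hh; exact absurd (Finset.mem_univ _) hh
          · have hz : deg (lst : Multiset (E V C)) v = 0 := by
              apply deg_zero_of
              intro e he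
              have he' : e ∈ lst := he
              exact ⟨fun hh => hvu (hh.symm.trans (hp e he')),
                fun hh => hvx (hh.symm.trans (hq e he'))⟩
            rw [deg_add, hz, zero_add] at hdv
            obtain ⟨c', hc'⟩ := h5 v ((memW' v).2 ⟨hvx, hvu, hv⟩) hdv
            refine ⟨c', ?_⟩
            rw [cnt_add, hc', cnt_Dst_zero]
            intro j
            exact ⟨fun hh => hvu (hh.symm.trans (hp _ (hgetmem j))),
              fun hh => absurd (hh.symm.trans (hq _ (hgetmem j))) hvx⟩
    · exfalso
      obtain ⟨_, _, _, _, _, _, _, j, j', hjj, hj, hj'⟩ := hres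
      have e1 : j = j₁ := by
        by_contra hne
        rw [hTne j hne] at hj
        simp at hj
      have e2 : j' = j₁ := by
        by_contra hne
        rw [hTne j' hne] at hj'
        simp at hj'
      exact hjj (e1.trans e2.symm)

end PCF
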