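import Mathlib

/-!
# Threads of degree-two vertices with lists

`Thr l a s t b` says that a path whose interior vertices carry the lists `l` can be coloured
between ends coloured `a` and `b`, where `s` is the colour next to the first end and `t` is the
colour next to the second end, in such a way that any three consecutive vertices get three
distinct colours.
-/

namespace PCF

variable {C : Type*}

/-- Colourability of a thread with prescribed end data. -/
def Thr : List (Finset C) → C → C → C → C → Prop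
  | [], a, s, t, b => s = b ∧ t = a ∧ a ≠ b
  | A :: l, a, s, t, b => s ∈ A ∧ s ≠ a ∧ ∃ s', Thr l s s' t b ∧ s' ≠ a

theorem thr_append (l₁ : List (Finset C)) (A : Finset C) (l₂ : List (Finset C)) (a s t b : C) :
    Thr (l₁ ++ A :: l₂) a s t b ↔
      ∃ w ∈ A, ∃ x y, Thr l₁ a s x w ∧ Thr l₂ w y t b ∧ x ≠ y := by
  induction l₁ generalizing a s with
  | nil =>
    simp only [List.nil_append, Thr]
    constructor
    · rintro ⟨h1, h2, s', h3, h4⟩
      exact ⟨s, h1, a, s', ⟨rfl, rfl, h2.symm⟩, h3, h4.symm⟩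
    · rintro ⟨w, hw, x, y, ⟨rfl, rfl, h3⟩, h4, h5⟩
      exact ⟨hw, h3.symm, y, h4, h5.symm⟩
  | cons B l₁ ih =>
    simp only [List.cons_append, Thr]
    constructor
    · rintro ⟨h1, h2, s', h3, h4⟩
      rw [ih] at h3
      obtain ⟨w, hw, x, y, h5, h6, h7⟩ := h3
      exact ⟨w, hw, x, y, ⟨h1, h2, s', h5, h4⟩, h6, h7⟩
    · rintro ⟨w, hw, x, y, ⟨h1, h2, s', h5, h4⟩, h6, h7⟩
      exact ⟨h1, h2, s', (ih _ _).2 ⟨w, hw, x, y, h5, h6, h7⟩, h4⟩

theorem thr_reverse (l : List (Finset C)) (a s t b : C) :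
    Thr l.reverse b t s a ↔ Thr l a s t b := by
  induction l generalizing a s with
  | nil =>
    simp only [List.reverse_nil, Thr]
    constructor
    · rintro ⟨h1, h2, h3⟩; exact ⟨h2, h1, h3.symm⟩
    · rintro ⟨h1, h2, h3⟩; exact ⟨h2, h1, h3.symm⟩
  | cons A l ih =>
    rw [List.reverse_cons, thr_append]
    simp only [Thr]
    constructor
    · rintro ⟨w, hw, x, y, h1, ⟨rfl, rfl, h2⟩, h3⟩
      exact ⟨hw, h2, x, (ih _ _).1 h1, h3⟩
    · rintro ⟨h1, h2, s', h3, h4⟩
      exact ⟨s, h1, s', a, (ih _ _).2 h3, ⟨rfl, rfl, h2⟩, h4⟩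

theorem Thr.ne_left {l : List (Finset C)} {a s t b : C} (h : Thr l a s t b) : s ≠ a := by
  cases l with
  | nil => obtain ⟨rfl, _, h⟩ := h; exact h.symm
  | cons A l => exact h.2.1

theorem Thr.ne_right {l : List (Finset C)} {a s t b : C} (h : Thr l a s t b) : t ≠ b :=
  ((thr_reverse l a s t b).2 h).ne_left

/-- Appending one more interior vertex at the far end. -/
theorem thr_snoc {l : List (Finset C)} {A : Finset C} {a s x w b : C} (hw : w ∈ A)
    (h : Thr l a s x w) (hx : x ≠ b) (hwb : w ≠ b) : Thr (l ++ [A]) a s w b := by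
  rw [thr_append]
  exact ⟨w, hw, x, b, h, ⟨rfl, rfl, hwb⟩, hx⟩

variable [DecidableEq C]

set_option linter.unusedSectionVars false

theorem exists_avoid {A : Finset C} {B : Finset C} (h : B.card < A.card) : ∃ x ∈ A, x ∉ B := by
  by_contra hc
  push Not at hc
  exact absurd (Finset.card_le_card (fun x hx => hc x hx)) (by omega)

theorem card_one (a : C) : ({a} : Finset C).card ≤ 1 := by simp
theorem card_two (a b : C) : ({a, b} : Finset C).card ≤ 2 := Finset.card_le_two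
theorem card_three (a b c : C) : ({a, b, c} : Finset C).card ≤ 3 := Finset.card_le_three
theorem card_four (a b c d : C) : ({a, b, c, d} : Finset C).card ≤ 4 := Finset.card_le_four

theorem ne_of {x y z w : C} (h : ({x, y, z, w} : Finset C).card = 4) :
    x ≠ y ∧ x ≠ z ∧ x ≠ w ∧ y ≠ z ∧ y ≠ w ∧ z ≠ w := by
  have key : ∀ p q r : C, ¬ ({x, y, z, w} : Finset C) ⊆ {p, q, r} := by
    intro p q r hs
    have h1 := Finset.card_le_card hs
    have h2 := card_three p q r
    omega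
  refine ⟨?_, ?_, ?_, ?_, ?_, ?_⟩
  · rintro rfl
    apply key x z w
    intro t; simp only [Finset.mem_insert, Finset.mem_singleton]; tauto
  · rintro rfl
    apply key x y w
    intro t; simp only [Finset.mem_insert, Finset.mem_singleton]; tauto
  · rintro rfl
    apply key x y z
    intro t; simp only [Finset.mem_insert, Finset.mem_singleton]; tauto
  · rintro rfl
    apply key x y w
    intro t; simp only [Finset.mem_insert, Finset.mem_singleton]; tauto
  · rintro rfl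
    apply key x y z
    intro t; simp only [Finset.mem_insert, Finset.mem_singleton]; tauto
  · rintro rfl
    apply key x y z
    intro t; simp only [Finset.mem_insert, Finset.mem_singleton]; tauto

theorem av1 {A : Finset C} (h : 2 ≤ A.card) (a : C) : ∃ x ∈ A, x ≠ a := by
  obtain ⟨x, hx, h'⟩ := exists_avoid (A := A) (B := {a}) (by have := card_one a; omega)
  exact ⟨x, hx, by simpa using h'⟩

theorem av2 {A : Finset C} (h : 3 ≤ A.card) (a b : C) : ∃ x ∈ A, x ≠ a ∧ x ≠ b := by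
  obtain ⟨x, hx, h'⟩ := exists_avoid (A := A) (B := {a, b}) (by have := card_two a b; omega)
  exact ⟨x, hx, by simpa using h'⟩

theorem av3 {A : Finset C} (h : 4 ≤ A.card) (a b c : C) : ∃ x ∈ A, x ≠ a ∧ x ≠ b ∧ x ≠ c := by
  obtain ⟨x, hx, h'⟩ := exists_avoid (A := A) (B := {a, b, c})
    (by have := card_three a b c; omega)
  exact ⟨x, hx, by simpa using h'⟩

theorem av4 {A : Finset C} (h : 5 ≤ A.card) (a b c d : C) :
    ∃ x ∈ A, x ≠ a ∧ x ≠ b ∧ x ≠ c ∧ x ≠ d := by
  obtain ⟨x, hx, h'⟩ := exists_avoid (A := A) (B := {a, b, c, d})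
    (by have := card_four a b c d; omega)
  exact ⟨x, hx, by simpa using h'⟩

theorem thr1 {A : Finset C} {a s t b : C} : Thr [A] a s t b ↔
    s ∈ A ∧ s ≠ a ∧ s ≠ b ∧ t = s ∧ a ≠ b := by
  simp only [Thr]
  constructor
  · rintro ⟨h1, h2, s', ⟨rfl, h4, h5⟩, h6⟩
    exact ⟨h1, h2, h5, h4, h6.symm⟩
  · rintro ⟨h1, h2, h3, h4, h5⟩
    exact ⟨h1, h2, b, ⟨rfl, h4, h3⟩, h5.symm⟩

theorem thr2 {A B : Finset C} {a s t b : C} : Thr [A, B] a s t b ↔
    s ∈ A ∧ t ∈ B ∧ s ≠ a ∧ s ≠ b ∧ t ≠ s ∧ t ≠ a ∧ t ≠ b := by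
  rw [Thr]
  simp only [thr1]
  constructor
  · rintro ⟨h1, h2, s', ⟨h3, h4, h5, rfl, h7⟩, h8⟩
    exact ⟨h1, h3, h2, h7, h4, h8, h5⟩
  · rintro ⟨h1, h2, h3, h4, h5, h6, h7⟩
    exact ⟨h1, h3, t, ⟨h2, h5, h7, rfl, h4⟩, h6⟩

theorem thr3 {A B D : Finset C} {a s t b : C} : Thr [A, B, D] a s t b ↔
    s ∈ A ∧ t ∈ D ∧ s ≠ a ∧ t ≠ b ∧ t ≠ s ∧ ∃ x ∈ B, x ≠ a ∧ x ≠ b ∧ x ≠ s ∧ x ≠ t := by
  rw [Thr]
  simp only [thr2]
  constructor
  · rintro ⟨h1, h2, x, ⟨h3, h4, h5, h6, h7, h8, h9⟩, h10⟩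
    exact ⟨h1, h4, h2, h9, h8, x, h3, h10, h6, h5, h7.symm⟩
  · rintro ⟨h1, h2, h3, h4, h5, x, hx, h6, h7, h8, h9⟩
    exact ⟨h1, h3, x, ⟨hx, h2, h8, h7, h9.symm, h5, h4⟩, h6⟩

/-- A thread with at least four interior vertices avoids any colour at both ends. -/
theorem mid (l : List (Finset C)) (hl : 4 ≤ l.length) (hc : ∀ A ∈ l, 4 ≤ A.card)
    (a b c c' : C) : ∃ s t, Thr l a s t b ∧ s ≠ c ∧ t ≠ c' := by
  induction l using List.reverseRecOn generalizing b c' with
  | nil => simp at hl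
  | append_singleton l A ih =>
    rcases Nat.lt_or_ge l.length 4 with h | h
    · have hl3 : l.length = 3 := by simp at hl; omega
      match l, hl3 with
      | [A₁, A₂, A₃], _ =>
        have h1 : 4 ≤ A₁.card := hc _ (by simp)
        have h2 : 4 ≤ A₂.card := hc _ (by simp)
        have h3 : 4 ≤ A₃.card := hc _ (by simp)
        have h4 : 4 ≤ A.card := hc _ (by simp)
        -- reduce to four colours
        suffices h : ∃ x₁ ∈ A₁, ∃ x₂ ∈ A₂, ∃ x₃ ∈ A₃, ∃ x₄ ∈ A, x₁ ≠ a ∧ x₁ ≠ c ∧ x₂ ≠ a ∧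
            x₂ ≠ x₁ ∧ x₃ ≠ x₁ ∧ x₃ ≠ x₂ ∧ x₃ ≠ b ∧ x₄ ≠ x₂ ∧ x₄ ≠ x₃ ∧ x₄ ≠ b ∧ x₄ ≠ c' by
          obtain ⟨x₁, m1, x₂, m2, x₃, m3, x₄, m4, e1, e2, e3, e4, e5, e6, e7, e8, e9, e10, e11⟩ := h
          refine ⟨x₁, x₄, ?_, e2, e11⟩
          refine ⟨m1, e1, x₂, ⟨m2, e4, x₃, ⟨m3, e6, x₄, ⟨m4, e9, b, ⟨rfl, rfl, e10⟩, e7.symm⟩,
            e8⟩, e5⟩, e3⟩
        obtain ⟨u, hu, hua, huc⟩ := av2 (by omega : 3 ≤ A₁.card) a c
        obtain ⟨u', hu', hua', huc', huu⟩ := av3 h1 a c u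
        obtain ⟨d, hd, hdb, hdc⟩ := av2 (by omega : 3 ≤ A.card) b c'
        obtain ⟨d', hd', hdb', hdc', hdd⟩ := av3 h4 b c' d
        by_cases hud : u = d
        · subst hud
          obtain ⟨x₂, m2, e1, e2⟩ := av2 (by omega : 3 ≤ A₂.card) a u
          obtain ⟨x₃, m3, e3, e4, e5⟩ := av3 h3 b u x₂
          exact ⟨u, hu, x₂, m2, x₃, m3, u, hd, hua, huc, e1, e2, e4, e5, e3, e2.symm, e4.symm,
            hdb, hdc⟩
        by_cases hud' : u' = d'
        · subst hud'
          obtain ⟨x₂, m2, e1, e2⟩ := av2 (by omega : 3 ≤ A₂.card) a u'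
          obtain ⟨x₃, m3, e3, e4, e5⟩ := av3 h3 b u' x₂
          exact ⟨u', hu', x₂, m2, x₃, m3, u', hd', hua', huc', e1, e2, e4, e5, e3, e2.symm,
            e4.symm, hdb', hdc'⟩
        by_cases hud'' : u = d'
        · subst hud''
          obtain ⟨x₂, m2, e1, e2⟩ := av2 (by omega : 3 ≤ A₂.card) a u
          obtain ⟨x₃, m3, e3, e4, e5⟩ := av3 h3 b u x₂
          exact ⟨u, hu, x₂, m2, x₃, m3, u, hd', hua, huc, e1, e2, e4, e5, e3, e2.symm, e4.symm,
            hdb', hdc'⟩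
        by_cases hud3 : u' = d
        · subst hud3
          obtain ⟨x₂, m2, e1, e2⟩ := av2 (by omega : 3 ≤ A₂.card) a u'
          obtain ⟨x₃, m3, e3, e4, e5⟩ := av3 h3 b u' x₂
          exact ⟨u', hu', x₂, m2, x₃, m3, u', hd, hua', huc', e1, e2, e4, e5, e3, e2.symm,
            e4.symm, hdb, hdc⟩
        -- all four distinct
        obtain ⟨x₂, m2, e1, e2, e3⟩ := av3 h2 a u d
        by_cases hx : ∃ x₃ ∈ A₃, x₃ ≠ b ∧ x₃ ≠ u ∧ x₃ ≠ d ∧ x₃ ≠ x₂
        · obtain ⟨x₃, m3, e4, e5, e6, e7⟩ := hx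
          exact ⟨u, hu, x₂, m2, x₃, m3, d, hd, hua, huc, e1, e2, e5, e7, e4, e3.symm, e6.symm,
            hdb, hdc⟩
        · push Not at hx
          -- A₃ = {b, u, d, x₂}
          obtain ⟨x₂', m2', e1', e2', e3'⟩ := av3 h2 a u' d'
          have key : ∀ x₂' ∈ A₂, x₂' ≠ a → x₂' ≠ u' → x₂' ≠ d' → ∃ x₃ ∈ A₃, x₃ ≠ b ∧ x₃ ≠ u' ∧
              x₃ ≠ d' ∧ x₃ ≠ x₂' := by
            intro y m y1 y2 y3
            have hsub : A₃ ⊆ {b, u, d, x₂} := by
              intro z hz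
              by_contra hne
              simp only [Finset.mem_insert, Finset.mem_singleton, not_or] at hne
              exact hne.2.2.2 (hx z hz hne.1 hne.2.1 hne.2.2.1)
            have heq : A₃ = {b, u, d, x₂} :=
              Finset.eq_of_subset_of_card_le hsub (le_trans (card_four _ _ _ _) h3)
            have mu : u ∈ A₃ := by rw [heq]; simp
            have md : d ∈ A₃ := by rw [heq]; simp
            have hcard : ({b, u, d, x₂} : Finset C).card = 4 :=
              le_antisymm (card_four _ _ _ _) (heq ▸ h3)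
            have hub : u ≠ b := by
              rintro rfl
              have : ({u, u, d, x₂} : Finset C) = {u, d, x₂} := by simp
              rw [this] at hcard
              have := card_three u d x₂
              omega
            by_cases hyu : y = u
            · exact ⟨d, md, hdb, fun h => hud3 h.symm, fun h => hdd h.symm, fun h => hud (hyu ▸ h.symm)⟩
            · exact ⟨u, mu, hub, fun h => huu h.symm, hud'', fun h => hyu h.symm⟩
          obtain ⟨x₃, m3, f1, f2, f3, f4⟩ := key x₂' m2' e1' e2' e3'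
          exact ⟨u', hu', x₂', m2', x₃, m3, d', hd', hua', huc', e1', e2', f2, f4, f1, e3'.symm,
            f3.symm, hdb', hdc'⟩
    · obtain ⟨w, hw, hwb, hwc⟩ := av2 (by have := hc A (by simp); omega : 3 ≤ A.card) b c'
      obtain ⟨s, x, h1, h2, h3⟩ := ih h (fun B hB => hc B (by simp [hB])) w b
      exact ⟨s, w, thr_snoc hw h1 h3 hwb, h2, hwc⟩

/-- A vertex hanging on a thread can always be coloured. -/
theorem leaf (l : List (Finset C)) (hc : ∀ A ∈ l, 4 ≤ A.card) (A : Finset C) (hA : 3 ≤ A.card)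
    (b c : C) : ∃ a ∈ A, ∃ s t, Thr l a s t b ∧ t ≠ c := by
  induction l using List.reverseRecOn generalizing b c with
  | nil =>
    obtain ⟨a, ha, h1, h2⟩ := av2 hA b c
    exact ⟨a, ha, b, a, ⟨rfl, rfl, h1⟩, h2⟩
  | append_singleton l B ih =>
    obtain ⟨w, hw, hwb, hwc⟩ := av2 (by have := hc B (by simp); omega : 3 ≤ B.card) b c
    obtain ⟨a, ha, s, x, h1, h3⟩ := ih (fun B hB => hc B (by simp [hB])) w b
    exact ⟨a, ha, s, w, thr_snoc hw h1 h3 hwb, hwc⟩

/-- A loop thread can be filled in, avoiding a colour. -/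
theorem loop (l : List (Finset C)) (hl : 2 ≤ l.length) (hc : ∀ A ∈ l, 4 ≤ A.card)
    (a c : C) : ∃ s t, Thr l a s t a ∧ s ≠ c ∧ t ≠ c := by
  match l, hl with
  | [A, B], _ =>
    have h1 : 4 ≤ A.card := hc _ (by simp)
    have h2 : 4 ≤ B.card := hc _ (by simp)
    obtain ⟨s, hs, s1, s2⟩ := av2 (by omega : 3 ≤ A.card) a c
    obtain ⟨t, ht, t1, t2, t3⟩ := av3 h2 a c s
    exact ⟨s, t, thr2.2 ⟨hs, ht, s1, s1, t3, t1, t1⟩, s2, t2⟩
  | [A, B, D], _ =>
    have h1 : 4 ≤ A.card := hc _ (by simp)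
    have h2 : 4 ≤ B.card := hc _ (by simp)
    have h3 : 4 ≤ D.card := hc _ (by simp)
    obtain ⟨s, hs, s1, s2⟩ := av2 (by omega : 3 ≤ A.card) a c
    obtain ⟨t, ht, t1, t2, t3⟩ := av3 h3 a c s
    obtain ⟨x, hx, x1, x2, x3⟩ := av3 h2 a s t
    exact ⟨s, t, thr3.2 ⟨hs, ht, s1, t1, t3, x, hx, x1, x1, x2, x3⟩, s2, t2⟩
  | (A :: B :: D :: F :: l), _ => exact mid _ (by simp) hc a a c c

/-- A cycle is colourable unless it is a five-cycle without a large list. -/
theorem cyc (l : List (Finset C)) (hl : 2 ≤ l.length) (hc : ∀ A ∈ l, 4 ≤ A.card)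
    (A : Finset C) (hA : 4 ≤ A.card) (h : 5 ≤ A.card ∨ l.length ≠ 4) :
    ∃ a ∈ A, ∃ s t, Thr l a s t a ∧ s ≠ t := by
  match l, hl with
  | [B₁, B₂], _ =>
    have h1 : 4 ≤ B₁.card := hc _ (by simp)
    have h2 : 4 ≤ B₂.card := hc _ (by simp)
    obtain ⟨a, ha⟩ : A.Nonempty := Finset.card_pos.1 (by omega)
    obtain ⟨s, hs, s1⟩ := av1 (by omega : 2 ≤ B₁.card) a
    obtain ⟨t, ht, t1, t2⟩ := av2 (by omega : 3 ≤ B₂.card) a s
    exact ⟨a, ha, s, t, thr2.2 ⟨hs, ht, s1, s1, t2, t1, t1⟩, t2.symm⟩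
  | [B₁, B₂, B₃], _ =>
    have h1 : 4 ≤ B₁.card := hc _ (by simp)
    have h2 : 4 ≤ B₂.card := hc _ (by simp)
    have h3 : 4 ≤ B₃.card := hc _ (by simp)
    obtain ⟨a, ha⟩ : A.Nonempty := Finset.card_pos.1 (by omega)
    obtain ⟨s, hs, s1⟩ := av1 (by omega : 2 ≤ B₁.card) a
    obtain ⟨t, ht, t1, t2⟩ := av2 (by omega : 3 ≤ B₃.card) a s
    obtain ⟨x, hx, x1, x2, x3⟩ := av3 h2 a s t
    exact ⟨a, ha, s, t, thr3.2 ⟨hs, ht, s1, t1, t2, x, hx, x1, x1, x2, x3⟩, t2.symm⟩
  | [B₁, B₂, B₃, B₄], _ =>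
    have h0 : 5 ≤ A.card := by
      rcases h with h | h
      · exact h
      · simp at h
    have h1 : 4 ≤ B₁.card := hc _ (by simp)
    have h2 : 4 ≤ B₂.card := hc _ (by simp)
    have h3 : 4 ≤ B₃.card := hc _ (by simp)
    have h4 : 4 ≤ B₄.card := hc _ (by simp)
    obtain ⟨x₁, m1⟩ : B₁.Nonempty := Finset.card_pos.1 (by omega)
    obtain ⟨x₂, m2, e1⟩ := av1 (by omega : 2 ≤ B₂.card) x₁
    obtain ⟨x₃, m3, e2, e3⟩ := av2 (by omega : 3 ≤ B₃.card) x₁ x₂
    obtain ⟨x₄, m4, e4, e5, e6⟩ := av3 h4 x₁ x₂ x₃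
    obtain ⟨a, ha, e7, e8, e9, e10⟩ := av4 h0 x₁ x₂ x₃ x₄
    refine ⟨a, ha, x₁, x₄, ?_, e4.symm⟩
    exact ⟨m1, e7.symm, x₂, ⟨m2, e1, x₃, ⟨m3, e3, x₄, ⟨m4, e6, a, ⟨rfl, rfl, e10.symm⟩, e9⟩,
      e5⟩, e2⟩, e8.symm⟩
  | (B₁ :: B₂ :: B₃ :: B₄ :: B₅ :: l), _ =>
    obtain ⟨a, ha⟩ : A.Nonempty := Finset.card_pos.1 (by omega)
    obtain ⟨l', B, hl'⟩ : ∃ l' B, B₁ :: B₂ :: B₃ :: B₄ :: B₅ :: l = l' ++ [B] :=
      ⟨_, _, (List.dropLast_append_getLast (by simp)).symm⟩
    have hlen : 4 ≤ l'.length := by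
      have := congrArg List.length hl'
      simp at this
      omega
    rw [hl'] at hc ⊢
    obtain ⟨w, hw, hwa⟩ := av1 (by have := hc B (by simp); omega : 2 ≤ B.card) a
    obtain ⟨s, x, h1, h2, h3⟩ := mid l' hlen (fun D hD => hc D (by simp [hD])) a w w a
    exact ⟨a, ha, s, w, thr_snoc hw h1 h3 hwa, h2⟩

/-- Existence of a colouring of a thread. -/
theorem exists_thr (l : List (Finset C)) (hc : ∀ A ∈ l, 4 ≤ A.card) (hl : l ≠ [])
    (a b c : C) (h1 : l.length = 1 → a ≠ b) : ∃ s t, Thr l a s t b ∧ t ≠ c := by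
  match l, hl with
  | [A], _ =>
    obtain ⟨s, hs, s1, s2, s3⟩ := av3 (hc A (by simp)) a b c
    exact ⟨s, s, thr1.2 ⟨hs, s1, s2, rfl, h1 rfl⟩, s3⟩
  | [A, B], _ =>
    obtain ⟨t, ht, t1, t2, t3⟩ := av3 (hc B (by simp)) a b c
    obtain ⟨s, hs, s1, s2, s3⟩ := av3 (hc A (by simp)) a b t
    exact ⟨s, t, thr2.2 ⟨hs, ht, s1, s2, s3.symm, t1, t2⟩, t3⟩
  | [A, B, D], _ =>
    obtain ⟨t, ht, t1, t2⟩ := av2 (by have := hc D (by simp); omega : 3 ≤ D.card) b c
    obtain ⟨x, hx, x1, x2, x3⟩ := av3 (hc B (by simp)) a b t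
    obtain ⟨s, hs, s1, s2, s3⟩ := av3 (hc A (by simp)) a t x
    exact ⟨s, t, thr3.2 ⟨hs, ht, s1, t1, s2.symm, x, hx, x1, x2, s3.symm, x3⟩, t2⟩
  | (A :: B :: D :: F :: l), _ =>
    obtain ⟨s, t, h, _, h'⟩ := mid _ (by simp) hc a b c c
    exact ⟨s, t, h, h'⟩

/-- If a thread is forced at two different colours then it is very special. -/
theorem two_forced (l : List (Finset C)) (hc : ∀ A ∈ l, 4 ≤ A.card) (hl : l ≠ [])
    {a₁ a₂ b c p₁ p₂ : C} (ha : a₁ ≠ a₂)
    (h0 : l.length = 1 → a₁ ≠ b ∧ a₂ ≠ b)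
    (h1 : ∀ s t, Thr l a₁ s t b → t ≠ c → s = p₁)
    (h2 : ∀ s t, Thr l a₂ s t b → t ≠ c → s = p₂) :
    ({a₁, a₂, b, c} : Finset C).card = 4 ∧
    ((∃ X : Finset C, l = [X] ∧ X = {a₁, a₂, b, c} ∧ p₁ = a₂ ∧ p₂ = a₁) ∨
      (∃ A B : Finset C, l = [A, B] ∧ B = {a₁, a₂, b, c} ∧ A = {a₁, a₂, b, p₁} ∧ p₂ = p₁ ∧
        A.card = 4)) := by
  match l, hl with
  | [X], _ =>
    obtain ⟨g1, g2⟩ := h0 rfl
    have hX := hc X (by simp)
    have s1 : X ⊆ {a₁, b, c, p₁} := by
      intro z hz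
      by_contra hne
      simp only [Finset.mem_insert, Finset.mem_singleton, not_or] at hne
      exact hne.2.2.2 (h1 z z (thr1.2 ⟨hz, hne.1, hne.2.1, rfl, g1⟩) hne.2.2.1)
    have s2 : X ⊆ {a₂, b, c, p₂} := by
      intro z hz
      by_contra hne
      simp only [Finset.mem_insert, Finset.mem_singleton, not_or] at hne
      exact hne.2.2.2 (h2 z z (thr1.2 ⟨hz, hne.1, hne.2.1, rfl, g2⟩) hne.2.2.1)
    have q1 : X = {a₁, b, c, p₁} :=
      Finset.eq_of_subset_of_card_le s1 (le_trans (card_four _ _ _ _) hX)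
    have q2 : X = {a₂, b, c, p₂} :=
      Finset.eq_of_subset_of_card_le s2 (le_trans (card_four _ _ _ _) hX)
    have m1 : a₁ ∈ X := by rw [q1]; simp
    have m2 : a₂ ∈ X := by rw [q2]; simp
    have e1 : a₁ = c ∨ a₁ = p₂ := by
      rw [q2] at m1
      simp only [Finset.mem_insert, Finset.mem_singleton] at m1
      tauto
    have e2 : a₂ = c ∨ a₂ = p₁ := by
      rw [q1] at m2
      simp only [Finset.mem_insert, Finset.mem_singleton] at m2
      rcases m2 with h | h | h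
      · exact absurd h.symm ha
      · exact absurd h g2
      · exact h
    have n1 : a₁ ≠ c := by
      intro h
      rw [q1, h] at hX
      have : ({c, b, c, p₁} : Finset C) = {b, c, p₁} := by
        ext z; simp only [Finset.mem_insert, Finset.mem_singleton]; tauto
      rw [this] at hX
      have := card_three b c p₁
      omega
    have n2 : a₂ ≠ c := by
      intro h
      rw [q2, h] at hX
      have : ({c, b, c, p₂} : Finset C) = {b, c, p₂} := by
        ext z; simp only [Finset.mem_insert, Finset.mem_singleton]; tauto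
      rw [this] at hX
      have := card_three b c p₂
      omega
    have f1 : p₁ = a₂ := by tauto
    have f2 : p₂ = a₁ := by tauto
    have q3 : X = {a₁, a₂, b, c} := by
      rw [q1, f1]
      ext z; simp only [Finset.mem_insert, Finset.mem_singleton]; tauto
    refine ⟨?_, Or.inl ⟨X, rfl, q3, f1, f2⟩⟩
    rw [← q3]
    exact le_antisymm (q3 ▸ card_four _ _ _ _) hX
  | [A, B], _ =>
    have hA := hc A (by simp)
    have hB := hc B (by simp)
    have aux : ∀ a p : C, (∀ s t, Thr [A, B] a s t b → t ≠ c → s = p) →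
        ∃ s, A = {a, b, p, s} ∧ B = {a, b, c, s} := by
      intro a p h
      obtain ⟨s, hs, e1, e2, e3⟩ := av3 hA a b p
      have hsB : ∀ s ∈ A, s ≠ a → s ≠ b → s ≠ p → B ⊆ {a, b, c, s} := by
        intro s hs e1 e2 e3 t ht
        by_contra hne
        simp only [Finset.mem_insert, Finset.mem_singleton, not_or] at hne
        exact e3 (h s t (thr2.2 ⟨hs, ht, e1, e2, hne.2.2.2, hne.1, hne.2.1⟩) hne.2.2.1)
      have hBeq : ∀ s ∈ A, s ≠ a → s ≠ b → s ≠ p → B = {a, b, c, s} := fun s hs e1 e2 e3 =>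
        Finset.eq_of_subset_of_card_le (hsB s hs e1 e2 e3) (le_trans (card_four _ _ _ _) hB)
      have hB1 := hBeq s hs e1 e2 e3
      refine ⟨s, ?_, hB1⟩
      have hcs : c ≠ s := by
        rintro rfl
        rw [hB1] at hB
        have : ({a, b, c, c} : Finset C) = {a, b, c} := by
          ext z; simp only [Finset.mem_insert, Finset.mem_singleton]; tauto
        rw [this] at hB
        have := card_three a b c
        omega
      have hsA : A ⊆ {a, b, p, s} := by
        intro z hz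
        by_contra hne
        simp only [Finset.mem_insert, Finset.mem_singleton, not_or] at hne
        have hB2 := hBeq z hz hne.1 hne.2.1 hne.2.2.1
        have : s ∈ B := by rw [hB1]; simp
        rw [hB2] at this
        simp only [Finset.mem_insert, Finset.mem_singleton] at this
        rcases this with h | h | h | h
        · exact e1 h
        · exact e2 h
        · exact hcs h.symm
        · exact hne.2.2.2 h.symm
      exact Finset.eq_of_subset_of_card_le hsA (le_trans (card_four _ _ _ _) hA)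
    obtain ⟨s₁, qA1, qB1⟩ := aux a₁ p₁ h1
    obtain ⟨s₂, qA2, qB2⟩ := aux a₂ p₂ h2
    have cB1 : ({a₁, b, c, s₁} : Finset C).card = 4 :=
      le_antisymm (card_four _ _ _ _) (qB1 ▸ hB)
    have cB2 : ({a₂, b, c, s₂} : Finset C).card = 4 :=
      le_antisymm (card_four _ _ _ _) (qB2 ▸ hB)
    have cA1 : ({a₁, b, p₁, s₁} : Finset C).card = 4 :=
      le_antisymm (card_four _ _ _ _) (qA1 ▸ hA)
    have cA2 : ({a₂, b, p₂, s₂} : Finset C).card = 4 :=
      le_antisymm (card_four _ _ _ _) (qA2 ▸ hA)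
    obtain ⟨n1, n2, n3, n4, n5, n6⟩ := ne_of cB1
    obtain ⟨n1', n2', n3', n4', n5', n6'⟩ := ne_of cB2
    obtain ⟨k1, k2, k3, k4, k5, k6⟩ := ne_of cA1
    obtain ⟨k1', k2', k3', k4', k5', k6'⟩ := ne_of cA2
    have e1 : s₁ = a₂ := by
      have : a₂ ∈ B := by rw [qB2]; simp
      rw [qB1] at this
      simp only [Finset.mem_insert, Finset.mem_singleton] at this
      rcases this with h | h | h | h
      · exact absurd h.symm ha
      · exact absurd h n1'
      · exact absurd h n2'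
      · exact h.symm
    have e2 : s₂ = a₁ := by
      have : a₁ ∈ B := by rw [qB1]; simp
      rw [qB2] at this
      simp only [Finset.mem_insert, Finset.mem_singleton] at this
      rcases this with h | h | h | h
      · exact absurd h ha
      · exact absurd h n1
      · exact absurd h n2
      · exact h.symm
    have e3 : p₂ = p₁ := by
      have : p₂ ∈ A := by rw [qA2]; simp
      rw [qA1] at this
      simp only [Finset.mem_insert, Finset.mem_singleton] at this
      rcases this with h | h | h | h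
      · exact absurd (h.trans e2.symm) k6'
      · exact absurd h.symm k4'
      · exact h
      · exact absurd (h.trans e1).symm k2'
    have qB : B = {a₁, a₂, b, c} := by
      rw [qB1, e1]
      ext z; simp only [Finset.mem_insert, Finset.mem_singleton]; tauto
    have qA : A = {a₁, a₂, b, p₁} := by
      rw [qA1, e1]
      ext z; simp only [Finset.mem_insert, Finset.mem_singleton]; tauto
    refine ⟨?_, Or.inr ⟨A, B, rfl, qB, qA, e3, ?_⟩⟩
    · rw [← qB]; exact le_antisymm (qB ▸ card_four _ _ _ _) hB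
    · exact le_antisymm (qA ▸ card_four _ _ _ _) hA
  | [A, B, D], _ =>
    exfalso
    have hA := hc A (by simp)
    have hB := hc B (by simp)
    have hD := hc D (by simp)
    have aux : ∀ a p : C, (∀ s t, Thr [A, B, D] a s t b → t ≠ c → s = p) →
        ∃ s z, B = {a, b, s, z} ∧ D = {b, c, s, z} := by
      intro a p h
      obtain ⟨s, hs, e1, e2⟩ := av2 (by omega : 3 ≤ A.card) a p
      have h' : ∀ x ∈ B, x ≠ a → x ≠ b → x ≠ s → ∀ t ∈ D, t ≠ b → t ≠ c → t ≠ s → x = t := by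
        intro x hx x1 x2 x3 t ht t1 t2 t3
        by_contra hxt
        exact e2 (h s t (thr3.2 ⟨hs, ht, e1, t1, t3, x, hx, x1, x2, x3, hxt⟩) t2)
      obtain ⟨x, hx, x1, x2, x3⟩ := av3 hB a b s
      obtain ⟨t, ht, t1, t2, t3⟩ := av3 hD b c s
      have hxt := h' x hx x1 x2 x3 t ht t1 t2 t3
      subst hxt
      refine ⟨s, x, ?_, ?_⟩
      · apply Finset.eq_of_subset_of_card_le _ (le_trans (card_four _ _ _ _) hB)
        intro z hz
        by_contra hne
        simp only [Finset.mem_insert, Finset.mem_singleton, not_or] at hne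
        exact hne.2.2.2 (h' z hz hne.1 hne.2.1 hne.2.2.1 x ht t1 t2 t3)
      · apply Finset.eq_of_subset_of_card_le _ (le_trans (card_four _ _ _ _) hD)
        intro z hz
        by_contra hne
        simp only [Finset.mem_insert, Finset.mem_singleton, not_or] at hne
        exact hne.2.2.2 (h' x hx x1 x2 x3 z hz hne.1 hne.2.1 hne.2.2.1).symm
    obtain ⟨s₁, z₁, qB1, qD1⟩ := aux a₁ p₁ h1
    obtain ⟨s₂, z₂, qB2, qD2⟩ := aux a₂ p₂ h2
    have cB1 : ({a₁, b, s₁, z₁} : Finset C).card = 4 :=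
      le_antisymm (card_four _ _ _ _) (qB1 ▸ hB)
    have cB2 : ({a₂, b, s₂, z₂} : Finset C).card = 4 :=
      le_antisymm (card_four _ _ _ _) (qB2 ▸ hB)
    have cD1 : ({b, c, s₁, z₁} : Finset C).card = 4 :=
      le_antisymm (card_four _ _ _ _) (qD1 ▸ hD)
    have cD2 : ({b, c, s₂, z₂} : Finset C).card = 4 :=
      le_antisymm (card_four _ _ _ _) (qD2 ▸ hD)
    obtain ⟨n1, n2, n3, n4, n5, n6⟩ := ne_of cB1
    obtain ⟨n1', n2', n3', n4', n5', n6'⟩ := ne_of cB2
    obtain ⟨k1, k2, k3, k4, k5, k6⟩ := ne_of cD1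
    obtain ⟨k1', k2', k3', k4', k5', k6'⟩ := ne_of cD2
    -- a₂ lies in B, so it is s₁ or z₁, hence in D, contradiction
    have m : a₂ ∈ B := by rw [qB2]; simp
    have m' : a₂ = s₁ ∨ a₂ = z₁ := by
      rw [qB1] at m
      simp only [Finset.mem_insert, Finset.mem_singleton] at m
      rcases m with h | h | h | h
      · exact absurd h.symm ha
      · exact absurd h n1'
      · exact Or.inl h
      · exact Or.inr h
    have m'' : a₂ ∈ D := by
      rw [qD1]; rcases m' with h | h <;> simp [h]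
    rw [qD2] at m''
    simp only [Finset.mem_insert, Finset.mem_singleton] at m''
    rcases m'' with h | h | h | h
    · exact n1' h
    · rcases m' with h' | h'
      · exact k4 (h.symm.trans h')
      · exact k5 (h.symm.trans h')
    · exact n2' h
    · exact n3' h
  | (A :: B :: D :: F :: l), _ =>
    exfalso
    obtain ⟨s, t, h, h3, h4⟩ := mid _ (by simp) hc a₁ b p₁ c
    exact h3 (h1 s t h h4)

end PCF
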